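import Mathlib

set_option autoImplicit false

namespace Pool.Agent.W461.HM

open Module

section

variable {O M N : Type*} [CommRing O] [AddCommGroup M] [Module O M] [AddCommGroup N] [Module O N]

/-- length of a quotient, cut by one more submodule -/
lemma len_quot_sup (A I : Submodule O M) :
    Module.length O (M ⧸ A) = Module.length O (LinearMap.range (A.mkQ ∘ₗ I.subtype)) +
      Module.length O (M ⧸ (A ⊔ I)) := by
  have hle : A ≤ A ⊔ I := le_sup_left
  refine Module.length_eq_add_of_exact (LinearMap.range (A.mkQ ∘ₗ I.subtype)).subtype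
    (Submodule.factor hle) (Submodule.subtype_injective _) (Submodule.factor_surjective hle) ?_
  rw [LinearMap.exact_iff, Submodule.range_subtype]
  ext x
  obtain ⟨x, rfl⟩ := Submodule.mkQ_surjective _ x
  rw [LinearMap.mem_ker, LinearMap.mem_range]
  simp only [Submodule.mkQ_apply, LinearMap.comp_apply, Submodule.subtype_apply]
  change (Submodule.Quotient.mk x : M ⧸ (A ⊔ I)) = 0 ↔ _
  rw [Submodule.Quotient.mk_eq_zero, Submodule.mem_sup]
  constructor
  · rintro ⟨a, ha, i, hi, rfl⟩
    refine ⟨⟨i, hi⟩, ?_⟩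
    rw [Submodule.Quotient.eq]
    simpa using ha
  · rintro ⟨⟨i, hi⟩, h⟩
    rw [Submodule.Quotient.eq] at h
    refine ⟨x - i, ?_, i, hi, by simp⟩
    have := A.neg_mem h
    simpa using this

lemma len_quot_le_add (A I : Submodule O M) :
    Module.length O (M ⧸ A) ≤ Module.length O I + Module.length O (M ⧸ (A ⊔ I)) := by
  rw [len_quot_sup A I]
  refine add_le_add ?_ le_rfl
  exact Module.length_le_of_surjective _ (LinearMap.surjective_rangeRestrict (A.mkQ ∘ₗ I.subtype))

lemma len_range_le_of_ker_le (f : M →ₗ[O] N) {N' : Type*} [AddCommGroup N'] [Module O N']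
    (g : M →ₗ[O] N') (h : LinearMap.ker f ≤ LinearMap.ker g) :
    Module.length O (LinearMap.range g) ≤ Module.length O (LinearMap.range f) := by
  rw [← (f.quotKerEquivRange).length_eq, ← (g.quotKerEquivRange).length_eq]
  exact Module.length_le_of_surjective (Submodule.factor h) (Submodule.factor_surjective h)

lemma len_quot_anti {A B : Submodule O M} (h : A ≤ B) :
    Module.length O (M ⧸ B) ≤ Module.length O (M ⧸ A) :=
  Module.length_le_of_surjective (Submodule.factor h) (Submodule.factor_surjective h)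

lemma len_step (A I P W B' : Submodule O M) (ψ : I →ₗ[O] M)
    (h1 : ∀ x : I, (x : M) ∈ A → ψ x ∈ P ⊔ B')
    (hW : ∀ w ∈ W, ∃ x : I, w - ψ x ∈ P) :
    Module.length O (M ⧸ (P ⊔ B')) + Module.length O (M ⧸ (A ⊔ I)) ≤
      Module.length O (M ⧸ A) + Module.length O (M ⧸ (P ⊔ B' ⊔ W)) := by
  rw [len_quot_sup A I, len_quot_sup (P ⊔ B') W]
  have h2 : Module.length O (LinearMap.range ((P ⊔ B').mkQ ∘ₗ W.subtype)) ≤
      Module.length O (LinearMap.range (A.mkQ ∘ₗ I.subtype)) := by
    have h3 : LinearMap.range ((P ⊔ B').mkQ ∘ₗ W.subtype) ≤ LinearMap.range ((P ⊔ B').mkQ ∘ₗ ψ) := by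
      rintro _ ⟨⟨w, hw⟩, rfl⟩
      obtain ⟨x, hx⟩ := hW w hw
      refine ⟨x, ?_⟩
      simp only [LinearMap.comp_apply, Submodule.mkQ_apply, Submodule.subtype_apply]
      rw [Submodule.Quotient.eq]
      have : ψ x - w ∈ P := by
        have := P.neg_mem hx
        simpa using this
      exact Submodule.mem_sup_left this
    refine (Module.length_le_of_injective (Submodule.inclusion h3)
      (Submodule.inclusion_injective h3)).trans ?_
    refine len_range_le_of_ker_le _ _ ?_
    intro x hx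
    rw [LinearMap.mem_ker] at hx ⊢
    simp only [LinearMap.comp_apply, Submodule.mkQ_apply, Submodule.subtype_apply,
      Submodule.Quotient.mk_eq_zero] at hx ⊢
    exact h1 x hx
  calc Module.length O (LinearMap.range ((P ⊔ B').mkQ ∘ₗ W.subtype)) +
        Module.length O (M ⧸ (P ⊔ B' ⊔ W)) + Module.length O (M ⧸ (A ⊔ I))
      ≤ Module.length O (LinearMap.range (A.mkQ ∘ₗ I.subtype)) +
        Module.length O (M ⧸ (P ⊔ B' ⊔ W)) + Module.length O (M ⧸ (A ⊔ I)) := by
        gcongr
    _ = _ := by ring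

/-- The chain inequality. -/
lemma len_chain (B B' : Submodule O M) (E : ℕ) (I P W : ℕ → Submodule O M)
    (hanti : ∀ n, I (n + 1) ≤ I n)
    (ψ : ∀ n, I n →ₗ[O] M)
    (h1 : ∀ n < E, ∀ x : I n, (x : M) ∈ I (n + 1) → ψ n x ∈ P n)
    (h2 : ∀ n < E, ∀ x : I n, (x : M) ∈ B → ψ n x ∈ B')
    (hW : ∀ n < E, ∀ w ∈ W n, ∃ x : I n, w - ψ n x ∈ P n) (E' : ℕ) (hE : E' ≤ E) :
    ∑ n ∈ Finset.range E', Module.length O (M ⧸ (P n ⊔ B')) + Module.length O (M ⧸ (I 0 ⊔ B)) ≤
      Module.length O (M ⧸ (I E' ⊔ B)) +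
        ∑ n ∈ Finset.range E', Module.length O (M ⧸ (P n ⊔ B' ⊔ W n)) := by
  induction E' with
  | zero => simp
  | succ n ih =>
    have ih' := ih (by omega)
    rw [Finset.sum_range_succ, Finset.sum_range_succ]
    have hs := len_step (I (n + 1) ⊔ B) (I n) (P n) (W n) B' (ψ n) ?_ (hW n (by omega))
    · have he : I (n + 1) ⊔ B ⊔ I n = I n ⊔ B := by
        apply le_antisymm
        · exact sup_le (sup_le ((hanti n).trans le_sup_left) le_sup_right) le_sup_left
        · exact sup_le le_sup_right (le_sup_right.trans le_sup_left)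
      rw [he] at hs
      calc ∑ x ∈ Finset.range n, Module.length O (M ⧸ (P x ⊔ B')) + Module.length O (M ⧸ (P n ⊔ B')) +
            Module.length O (M ⧸ (I 0 ⊔ B))
          = (∑ x ∈ Finset.range n, Module.length O (M ⧸ (P x ⊔ B')) +
            Module.length O (M ⧸ (I 0 ⊔ B))) + Module.length O (M ⧸ (P n ⊔ B')) := by ring
        _ ≤ (Module.length O (M ⧸ (I n ⊔ B)) +
            ∑ x ∈ Finset.range n, Module.length O (M ⧸ (P x ⊔ B' ⊔ W x))) +
              Module.length O (M ⧸ (P n ⊔ B')) := by gcongr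
        _ = (Module.length O (M ⧸ (P n ⊔ B')) + Module.length O (M ⧸ (I n ⊔ B))) +
            ∑ x ∈ Finset.range n, Module.length O (M ⧸ (P x ⊔ B' ⊔ W x)) := by ring
        _ ≤ (Module.length O (M ⧸ (I (n + 1) ⊔ B)) + Module.length O (M ⧸ (P n ⊔ B' ⊔ W n))) +
            ∑ x ∈ Finset.range n, Module.length O (M ⧸ (P x ⊔ B' ⊔ W x)) := by gcongr
        _ = _ := by ring
    · intro x hx
      rw [Submodule.mem_sup] at hx
      obtain ⟨y, hy, b, hb, hyb⟩ := hx
      have hyn : y ∈ I n := hanti n hy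
      have hbn : b ∈ I n := by
        have : b = (x : M) - y := by rw [← hyb]; simp
        rw [this]; exact (I n).sub_mem x.2 hyn
      have hx' : x = (⟨y, hyn⟩ : I n) + ⟨b, hbn⟩ := by
        apply Subtype.ext; simp [hyb]
      rw [hx', map_add]
      exact Submodule.add_mem_sup (h1 n (by omega) ⟨y, hyn⟩ hy) (h2 n (by omega) ⟨b, hbn⟩ hb)

end

section

variable {O R : Type*} [CommRing O] [CommRing R] [Algebra O R]

/-- colon ideal by one element -/
def col (a : Ideal R) (x : R) : Ideal R := Submodule.comap (LinearMap.mulLeft R x) a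

lemma mem_col {a : Ideal R} {x y : R} : y ∈ col a x ↔ x * y ∈ a := Iff.rfl

lemma col_one (a : Ideal R) : col a 1 = a := by
  ext y; rw [mem_col, one_mul]

lemma col_col (a : Ideal R) (x y : R) : col (col a x) y = col a (x * y) := by
  ext z; rw [mem_col, mem_col, mem_col, mul_assoc]

lemma le_col (a : Ideal R) (x : R) : a ≤ col a x := fun _ hy => a.mul_mem_left _ hy

lemma len_col (a : Ideal R) (x : R) :
    Module.length O (R ⧸ a) =
      Module.length O (R ⧸ col a x) + Module.length O (R ⧸ (Ideal.span {x} ⊔ a)) := by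
  have hle : a ≤ Ideal.span {x} ⊔ a := le_sup_right
  let f : (R ⧸ col a x) →ₗ[R] (R ⧸ a) :=
    Submodule.mapQ (col a x) a (LinearMap.mulLeft R x) le_rfl
  let g : (R ⧸ a) →ₗ[R] (R ⧸ (Ideal.span {x} ⊔ a)) := Submodule.factor hle
  refine Module.length_eq_add_of_exact (f.restrictScalars O) (g.restrictScalars O) ?_
    (Submodule.factor_surjective hle) ?_
  · intro u v huv
    obtain ⟨u, rfl⟩ := Submodule.mkQ_surjective _ u
    obtain ⟨v, rfl⟩ := Submodule.mkQ_surjective _ v
    have h : (Submodule.Quotient.mk (x * u) : R ⧸ a) = Submodule.Quotient.mk (x * v) := huv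
    rw [Submodule.Quotient.eq, ← mul_sub] at h
    simp only [Submodule.mkQ_apply]
    rw [Submodule.Quotient.eq]
    exact h
  · intro u
    obtain ⟨u, rfl⟩ := Submodule.mkQ_surjective _ u
    simp only [LinearMap.restrictScalars_apply, Submodule.mkQ_apply, g]
    change (Submodule.Quotient.mk u : R ⧸ (Ideal.span {x} ⊔ a)) = 0 ↔ _
    rw [Submodule.Quotient.mk_eq_zero, Submodule.mem_sup]
    constructor
    · rintro ⟨y, hy, z, hz, rfl⟩
      obtain ⟨w, rfl⟩ := Ideal.mem_span_singleton'.1 hy
      refine ⟨Submodule.Quotient.mk w, ?_⟩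
      change (Submodule.Quotient.mk (x * w) : R ⧸ a) = Submodule.Quotient.mk (w * x + z)
      rw [Submodule.Quotient.eq]
      have : x * w - (w * x + z) = - z := by ring
      rw [this]; exact a.neg_mem hz
    · rintro ⟨w, hw⟩
      obtain ⟨w, rfl⟩ := Submodule.mkQ_surjective _ w
      have h : (Submodule.Quotient.mk (x * w) : R ⧸ a) = Submodule.Quotient.mk u := hw
      rw [Submodule.Quotient.eq] at h
      refine ⟨x * w, Ideal.mem_span_singleton'.2 ⟨w, mul_comm _ _⟩, u - x * w, ?_, by ring⟩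
      have := a.neg_mem h
      simpa using this

lemma len_col_sum (a : Ideal R) (x : R) (N : ℕ) :
    Module.length O (R ⧸ a) =
      ∑ s ∈ Finset.range N, Module.length O (R ⧸ (Ideal.span {x} ⊔ col a (x ^ s))) +
        Module.length O (R ⧸ col a (x ^ N)) := by
  induction N with
  | zero => rw [Finset.sum_range_zero, zero_add, pow_zero, col_one]
  | succ N ih =>
    rw [Finset.sum_range_succ, ih, len_col (O := O) (col a (x ^ N)) x, col_col, ← pow_succ]
    ring

end

end Pool.Agent.W461.HM
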