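import Mathlib
import Pool.Agent.W461.HM.Len

set_option autoImplicit false

namespace Pool.Agent.W461.HM

open Module

/-- ideal generated by the powers `t j ^ q j` -/
def PI {R : Type*} [CommRing R] {d : ℕ} (t : Fin d → R) (q : Fin d → ℕ) : Ideal R :=
  Ideal.span (Set.range fun j => t j ^ q j)

/-- the ideal of all parameters -/
def TI {R : Type*} [CommRing R] {d : ℕ} (t : Fin d → R) : Ideal R := Ideal.span (Set.range t)

/-- towers of quotients by one parameter, ending in a field -/
def IsFrame (p : ℕ) : (d : ℕ) → (O : Type) → [CommRing O] → (Fin d → O) → Prop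
  | 0, O, _, _ => IsField O
  | d + 1, O, _, t => IsDomain O ∧ IsNoetherianRing O ∧ CharP O p ∧
      (∃ (n : ℕ) (g : Fin n → O), ∀ x : O, ∃ a : Fin n → O, x = ∑ i, g i * a i ^ p) ∧ t 0 ≠ 0 ∧
      ∃ (O' : Type) (_ : CommRing O') (π : O →+* O'), Function.Surjective π ∧
        RingHom.ker π = Ideal.span {t 0} ∧
        (∀ (q : Fin (d + 1) → ℕ) (a : ℕ) (z : O), a < q 0 → t 0 ^ a * z ∈ PI t q →
          π z ∈ PI (fun j => π (t j.succ)) (fun j => q j.succ)) ∧
        IsFrame p d O' (fun j => π (t j.succ))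

lemma IsFrame.isDomain {p d : ℕ} {O : Type} [CommRing O] {t : Fin d → O} (h : IsFrame p d O t) :
    IsDomain O := by
  cases d with
  | zero => exact IsField.isDomain h
  | succ d => exact h.1

lemma IsFrame.isNoetherianRing {p d : ℕ} {O : Type} [CommRing O] {t : Fin d → O}
    (h : IsFrame p d O t) : IsNoetherianRing O := by
  cases d with
  | zero =>
    letI := IsField.toField (R := O) h
    infer_instance
  | succ d => exact h.2.1

lemma prime_of_ker {O O' : Type*} [CommRing O] [CommRing O'] [IsDomain O'] {π : O →+* O'} {x : O}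
    (hx : x ≠ 0) (hk : RingHom.ker π = Ideal.span {x}) : Prime x := by
  rw [← Ideal.span_singleton_prime hx, ← hk]
  exact RingHom.ker_isPrime π

lemma map_TI {R R' : Type*} [CommRing R] [CommRing R'] {d : ℕ} (f : R →+* R') (t : Fin d → R) :
    (TI t).map f = TI (fun j => f (t j)) := by
  unfold TI
  rw [Ideal.map_span, ← Set.range_comp]
  rfl

lemma map_PI {R R' : Type*} [CommRing R] [CommRing R'] {d : ℕ} (f : R →+* R') (t : Fin d → R)
    (q : Fin d → ℕ) : (PI t q).map f = PI (fun j => f (t j)) q := by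
  unfold PI
  rw [Ideal.map_span, ← Set.range_comp]
  congr 2
  funext j
  simp

lemma mem_TI {R : Type*} [CommRing R] {d : ℕ} (t : Fin d → R) (j : Fin d) : t j ∈ TI t :=
  Ideal.subset_span ⟨j, rfl⟩

/-- transfer of lengths to the quotient ring -/
lemma len_transfer {O O' : Type*} [CommRing O] [CommRing O'] {π : O →+* O'}
    (hs : Function.Surjective π) {x : O} (hk : RingHom.ker π = Ideal.span {x}) (J : Ideal O) :
    Module.length O (O ⧸ (Ideal.span {x} ⊔ J)) = Module.length O' (O' ⧸ J.map π) := by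
  letI := π.toAlgebra
  have h1 : Module.length O (O' ⧸ J.map π) = Module.length O' (O' ⧸ J.map π) :=
    Module.length_eq_of_surjective hs
  rw [← h1]
  let f : O →ₗ[O] (O' ⧸ J.map π) :=
    ((J.map π).mkQ.restrictScalars O) ∘ₗ (Algebra.linearMap O O')
  have hf : Function.Surjective f := (Submodule.mkQ_surjective _).comp hs
  have hker : LinearMap.ker f = Ideal.span {x} ⊔ J := by
    ext y
    rw [LinearMap.mem_ker]
    change (Submodule.Quotient.mk (π y) : O' ⧸ J.map π) = 0 ↔ _
    rw [Submodule.Quotient.mk_eq_zero, ← Ideal.mem_comap, Ideal.comap_map_of_surjective π hs,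
      ← RingHom.ker_eq_comap_bot, hk, sup_comm]
  exact ((Submodule.quotEquivOfEq _ _ hker.symm).trans (f.quotKerEquivOfSurjective hf)).length_eq

/-- multiplicativity type bound -/
lemma len_mul_le {O : Type*} [CommRing O] (x y : O) (J : Ideal O) :
    Module.length O (O ⧸ (Ideal.span {x * y} ⊔ J)) ≤
      Module.length O (O ⧸ (Ideal.span {x} ⊔ J)) + Module.length O (O ⧸ (Ideal.span {y} ⊔ J)) := by
  rw [len_col (O := O) (Ideal.span {x * y} ⊔ J) x, add_comm]
  refine add_le_add (len_quot_anti ?_) (len_quot_anti ?_)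
  · exact sup_le_sup_left le_sup_right _
  · refine sup_le ?_ (le_sup_right.trans (le_col _ _))
    rw [Ideal.span_singleton_le_iff_mem, mem_col]
    exact Ideal.mem_sup_left (Ideal.mem_span_singleton_self _)

lemma len_pow_le {O : Type*} [CommRing O] (x : O) (n : ℕ) (J : Ideal O) :
    Module.length O (O ⧸ (Ideal.span {x ^ n} ⊔ J)) ≤
      n * Module.length O (O ⧸ (Ideal.span {x} ⊔ J)) := by
  induction n with
  | zero =>
    have : Ideal.span {x ^ 0} ⊔ J = ⊤ := by
      rw [pow_zero, Ideal.span_singleton_one, top_sup_eq]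
    rw [this]
    have : Subsingleton (O ⧸ (⊤ : Ideal O)) := Ideal.Quotient.subsingleton_iff.2 rfl
    rw [Module.length_eq_zero]
    simp
  | succ n ih =>
    rw [pow_succ]
    refine (len_mul_le _ _ J).trans ?_
    push_cast
    rw [add_mul, one_mul]
    gcongr

lemma len_top {O R : Type*} [CommRing O] [CommRing R] [Algebra O R] {a : Ideal R} (h : a = ⊤) :
    Module.length O (R ⧸ a) = 0 := by
  subst h
  have : Subsingleton (R ⧸ (⊤ : Ideal R)) := Ideal.Quotient.subsingleton_iff.2 rfl
  exact Module.length_eq_zero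

lemma pow_mem_TI {R : Type*} [CommRing R] {d : ℕ} (t : Fin d → R) (j : Fin d) (N : ℕ) :
    t j ^ N ∈ TI t ^ N := Ideal.pow_mem_pow (mem_TI t j) N

/-- lengths of the quotients by the powers of the parameter ideal -/
lemma len_frame {p : ℕ} : ∀ {d : ℕ} {O : Type} [CommRing O] {t : Fin d → O}, IsFrame p d O t →
    ∀ N : ℕ, Module.length O (O ⧸ TI t ^ N) ≤ ((N + d - 1).choose d : ℕ)
  | 0, O, _, t, h, N => by
    letI := IsField.toField (R := O) h
    have h1 : Module.length O (O ⧸ TI t ^ N) ≤ Module.length O O :=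
      Module.length_le_of_surjective (Submodule.mkQ (TI t ^ N)) (Submodule.mkQ_surjective _)
    refine h1.trans ?_
    have : Module.length O O = 1 := Module.length_eq_one (R := O) (M := O)
    rw [this]
    simp
  | d + 1, O, _, t, h, N => by
    obtain ⟨hdom, hnoeth, hchar, hfin, h0, O', _, π, hs, hk, hreg, hfr⟩ := h
    rw [len_col_sum (O := O) (TI t ^ N) (t 0) N]
    have htop : col (TI t ^ N) (t 0 ^ N) = ⊤ := by
      rw [Ideal.eq_top_iff_one, mem_col, mul_one]
      exact pow_mem_TI t 0 N
    rw [len_top htop, add_zero]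
    have hmap : (TI t).map π = TI (fun j : Fin d => π (t j.succ)) := by
      rw [map_TI]
      unfold TI
      apply le_antisymm
      · rw [Ideal.span_le]
        rintro _ ⟨j, rfl⟩
        refine Fin.cases ?_ (fun j => ?_) j
        · have : t 0 ∈ RingHom.ker π := by rw [hk]; exact Ideal.mem_span_singleton_self _
          rw [RingHom.mem_ker] at this
          simp [this]
        · exact Ideal.subset_span ⟨j, rfl⟩
      · refine Ideal.span_mono ?_
        rintro _ ⟨j, rfl⟩
        exact ⟨j.succ, rfl⟩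
    have hterm : ∀ s ∈ Finset.range N,
        Module.length O (O ⧸ (Ideal.span {t 0} ⊔ col (TI t ^ N) (t 0 ^ s))) ≤
          (((N - s) + d - 1).choose d : ℕ) := by
      intro s hs'
      have hsN : s < N := Finset.mem_range.1 hs'
      have h1 : TI t ^ (N - s) ≤ col (TI t ^ N) (t 0 ^ s) := by
        intro y hy
        rw [mem_col]
        have := Ideal.mul_mem_mul (pow_mem_TI t 0 s) hy
        rwa [← pow_add, show s + (N - s) = N by omega] at this
      refine (len_quot_anti (sup_le_sup_left h1 _)).trans ?_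
      rw [len_transfer hs hk, Ideal.map_pow, hmap]
      exact len_frame hfr (N - s)
    refine (Finset.sum_le_sum hterm).trans ?_
    rw [← Nat.cast_sum]
    rw [Nat.cast_le]
    -- combinatorial identity
    have hid : ∀ N : ℕ, ∑ s ∈ Finset.range N, ((N - s) + d - 1).choose d = (N + d).choose (d + 1) := by
      intro N
      induction N with
      | zero => simp
      | succ N ih =>
        rw [Finset.sum_range_succ']
        have : ∀ s ∈ Finset.range N, (N + 1 - (s + 1) + d - 1).choose d = (N - s + d - 1).choose d := by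
          intro s _
          congr 1
          omega
        rw [Finset.sum_congr rfl this, ih]
        have h2 : (N + 1 - 0 + d - 1) = N + d := by omega
        rw [h2, show N + 1 + d = N + d + 1 by ring, Nat.choose_succ_succ, add_comm]
    have := hid N
    have h3 : N + (d + 1) - 1 = N + d := by omega
    rw [h3]
    exact this.le

lemma choose_le_pow' (N d : ℕ) : (N + d - 1).choose d ≤ (d + 1) ^ d * (N + 1) ^ d := by
  refine (Nat.choose_le_pow _ _).trans ?_
  rw [← mul_pow]
  refine Nat.pow_le_pow_left ?_ d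
  have : N + d - 1 ≤ N + d := Nat.sub_le _ _
  nlinarith

/-- growth for quotients by a nonzero element -/
lemma len_tors {p : ℕ} : ∀ {d : ℕ} {O : Type} [CommRing O] {t : Fin d → O}, IsFrame p d O t →
    ∀ c : O, c ≠ 0 → ∃ C : ℕ, ∀ N : ℕ,
      ((N + 1 : ℕ) : ℕ∞) * Module.length O (O ⧸ (Ideal.span {c} ⊔ TI t ^ N)) ≤ ((C * (N + 1) ^ d : ℕ) : ℕ∞)
  | 0, O, _, t, h, c, hc => by
    letI := IsField.toField (R := O) h
    refine ⟨0, fun N => ?_⟩
    have : Ideal.span {c} ⊔ TI t ^ N = ⊤ := by
      have : Ideal.span {c} = ⊤ := Ideal.span_singleton_eq_top.2 (isUnit_iff_ne_zero.2 hc)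
      rw [this, top_sup_eq]
    rw [len_top this]
    simp
  | d + 1, O, _, t, h, c, hc => by
    obtain ⟨hdom, hnoeth, hchar, hfin, h0, O', _, π, hs, hk, hreg, hfr⟩ := h
    have hO' : IsDomain O' := hfr.isDomain
    have hprime : Prime (t 0) := prime_of_ker h0 hk
    have hmap : (TI t).map π = TI (fun j : Fin d => π (t j.succ)) := by
      rw [map_TI]
      unfold TI
      apply le_antisymm
      · rw [Ideal.span_le]
        rintro _ ⟨j, rfl⟩
        refine Fin.cases ?_ (fun j => ?_) j
        · have : t 0 ∈ RingHom.ker π := by rw [hk]; exact Ideal.mem_span_singleton_self _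
          rw [RingHom.mem_ker] at this
          simp [this]
        · exact Ideal.subset_span ⟨j, rfl⟩
      · refine Ideal.span_mono ?_
        rintro _ ⟨j, rfl⟩
        exact ⟨j.succ, rfl⟩
    obtain ⟨n, c', hc', hcc⟩ := WfDvdMonoid.max_power_factor hc hprime.irreducible
    have hπc : π c' ≠ 0 := by
      intro h
      have : c' ∈ RingHom.ker π := h
      rw [hk, Ideal.mem_span_singleton] at this
      exact hc' this
    obtain ⟨C, hC⟩ := len_tors hfr (π c') hπc
    refine ⟨n * (d + 1) ^ d + C, fun N => ?_⟩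
    -- the part of t 0 ^ n
    have h1 : Module.length O (O ⧸ (Ideal.span {t 0 ^ n} ⊔ TI t ^ N)) ≤
        ((n * ((d + 1) ^ d * (N + 1) ^ d) : ℕ) : ℕ∞) := by
      refine (len_pow_le _ _ _).trans ?_
      rw [len_transfer hs hk, Ideal.map_pow, hmap]
      have := len_frame hfr N
      have h2 : (((N + d - 1).choose d : ℕ) : ℕ∞) ≤ (((d + 1) ^ d * (N + 1) ^ d : ℕ) : ℕ∞) :=
        Nat.cast_le.2 (choose_le_pow' N d)
      rw [Nat.cast_mul n]
      exact mul_le_mul_right (this.trans h2) _
    -- the part of c'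
    have h2 : Module.length O (O ⧸ (Ideal.span {c'} ⊔ TI t ^ N)) ≤
        (N : ℕ∞) * Module.length O' (O' ⧸ (Ideal.span {π c'} ⊔ TI (fun j : Fin d => π (t j.succ)) ^ N)) := by
      rw [len_col_sum (O := O) (Ideal.span {c'} ⊔ TI t ^ N) (t 0) N]
      have htop : col (Ideal.span {c'} ⊔ TI t ^ N) (t 0 ^ N) = ⊤ := by
        rw [Ideal.eq_top_iff_one, mem_col, mul_one]
        exact Ideal.mem_sup_right (pow_mem_TI t 0 N)
      rw [len_top htop, add_zero]
      have hterm : ∀ s ∈ Finset.range N,
          Module.length O (O ⧸ (Ideal.span {t 0} ⊔ col (Ideal.span {c'} ⊔ TI t ^ N) (t 0 ^ s))) ≤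
            Module.length O' (O' ⧸ (Ideal.span {π c'} ⊔ TI (fun j : Fin d => π (t j.succ)) ^ N)) := by
        intro s _
        refine (len_quot_anti (sup_le_sup_left (le_col _ _) _)).trans ?_
        rw [len_transfer hs hk, Ideal.map_sup, Ideal.map_pow, hmap, Ideal.map_span, Set.image_singleton]
      refine (Finset.sum_le_sum hterm).trans ?_
      rw [Finset.sum_const, Finset.card_range, nsmul_eq_mul]
    rw [hcc]
    calc ((N + 1 : ℕ) : ℕ∞) * Module.length O (O ⧸ (Ideal.span {t 0 ^ n * c'} ⊔ TI t ^ N))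
        ≤ ((N + 1 : ℕ) : ℕ∞) * (((n * ((d + 1) ^ d * (N + 1) ^ d) : ℕ) : ℕ∞) +
          (N : ℕ∞) * Module.length O' (O' ⧸ (Ideal.span {π c'} ⊔ TI (fun j : Fin d => π (t j.succ)) ^ N))) := by
          refine mul_le_mul_right ((len_mul_le _ _ _).trans (add_le_add h1 h2)) _
      _ = (((N + 1) * (n * ((d + 1) ^ d * (N + 1) ^ d)) : ℕ) : ℕ∞) + (N : ℕ∞) *
          (((N + 1 : ℕ) : ℕ∞) * Module.length O' (O' ⧸ (Ideal.span {π c'} ⊔
            TI (fun j : Fin d => π (t j.succ)) ^ N))) := by
          push_cast; ring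
      _ ≤ (((N + 1) * (n * ((d + 1) ^ d * (N + 1) ^ d)) : ℕ) : ℕ∞) + (N : ℕ∞) *
          ((C * (N + 1) ^ d : ℕ) : ℕ∞) := by
          gcongr
          exact hC N
      _ = (((N + 1) * (n * ((d + 1) ^ d * (N + 1) ^ d)) + N * (C * (N + 1) ^ d) : ℕ) : ℕ∞) := by
          push_cast; ring
      _ ≤ _ := by
          rw [Nat.cast_le]
          have : N * (C * (N + 1) ^ d) ≤ (N + 1) * (C * (N + 1) ^ d) := Nat.mul_le_mul_right _ (by omega)
          calc (N + 1) * (n * ((d + 1) ^ d * (N + 1) ^ d)) + N * (C * (N + 1) ^ d)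
              ≤ (N + 1) * (n * ((d + 1) ^ d * (N + 1) ^ d)) + (N + 1) * (C * (N + 1) ^ d) := by omega
            _ = _ := by ring

/-- finitely generated modules annihilated by an ideal -/
lemma len_fg_le {O M : Type*} [CommRing O] [AddCommGroup M] [Module O M] {k : ℕ}
    (f : (Fin k → O) →ₗ[O] M) (hf : Function.Surjective f) (A J : Ideal O)
    (hA : ∀ a ∈ A, ∀ x : M, a • x = 0) :
    Module.length O (M ⧸ (J • (⊤ : Submodule O M))) ≤ (k : ℕ∞) * Module.length O (O ⧸ (A ⊔ J)) := by
  let g : (Fin k → O) →ₗ[O] (M ⧸ (J • (⊤ : Submodule O M))) := (Submodule.mkQ _) ∘ₗ f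
  have hg : Function.Surjective g := (Submodule.mkQ_surjective _).comp hf
  let q : (Fin k → O) →ₗ[O] (Fin k → O ⧸ (A ⊔ J)) :=
    LinearMap.pi fun i => (Submodule.mkQ (A ⊔ J)) ∘ₗ LinearMap.proj i
  have hq : Function.Surjective q := by
    intro y
    choose x hx using fun i => Submodule.mkQ_surjective (A ⊔ J) (y i)
    exact ⟨x, funext fun i => hx i⟩
  have hker : LinearMap.ker q ≤ LinearMap.ker g := by
    intro x hx
    have hx' : ∀ i, x i ∈ A ⊔ J := by
      intro i
      have : q x i = 0 := by rw [LinearMap.mem_ker.1 hx]; rfl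
      exact (Submodule.Quotient.mk_eq_zero _).1 this
    rw [LinearMap.mem_ker]
    change (Submodule.Quotient.mk (f x) : M ⧸ (J • (⊤ : Submodule O M))) = 0
    rw [Submodule.Quotient.mk_eq_zero]
    have hxs : x = ∑ i, x i • (Pi.single i 1 : Fin k → O) := by
      simpa using (pi_eq_sum_univ' x)
    rw [hxs, map_sum]
    refine Submodule.sum_mem _ fun i _ => ?_
    rw [map_smul]
    obtain ⟨a, ha, j, hj, haj⟩ := Submodule.mem_sup.1 (hx' i)
    rw [← haj, add_smul, hA a ha, zero_add]
    exact Submodule.smul_mem_smul hj trivial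
  have h1 := len_range_le_of_ker_le q g hker
  rw [LinearMap.range_eq_top.2 hq, LinearMap.range_eq_top.2 hg, Module.length_top, Module.length_top] at h1
  refine h1.trans ?_
  rw [Module.length_pi_of_fintype]
  simp

end Pool.Agent.W461.HM
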