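import Mathlib

set_option autoImplicit false

namespace Pool.Agent.W461.HM

open Module

/-- the ring is finite over its `p`-th powers -/
def FF (p : ℕ) (V : Type*) [CommRing V] : Prop :=
  ∃ (n : ℕ) (g : Fin n → V), ∀ x : V, ∃ a : Fin n → V, x = ∑ i, g i * a i ^ p

lemma FF.iterate {p : ℕ} [Fact p.Prime] {V : Type*} [CommRing V] [CharP V p] (h : FF p V) (e : ℕ) :
    FF (p ^ e) V := by
  induction e with
  | zero =>
    refine ⟨1, fun _ => 1, fun x => ⟨fun _ => x, by simp⟩⟩
  | succ e ih =>
    obtain ⟨n, g, hg⟩ := h
    obtain ⟨m, g', hg'⟩ := ih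
    refine ⟨n * m, fun k => g (finProdFinEquiv.symm k).1 * g' (finProdFinEquiv.symm k).2 ^ p,
      fun x => ?_⟩
    obtain ⟨a, ha⟩ := hg x
    choose b hb using fun i => hg' (a i)
    refine ⟨fun k => b (finProdFinEquiv.symm k).1 (finProdFinEquiv.symm k).2, ?_⟩
    rw [← finProdFinEquiv.sum_comp, Fintype.sum_prod_type]
    simp only [Equiv.symm_apply_apply]
    rw [ha]
    refine Finset.sum_congr rfl fun i _ => ?_
    rw [hb i, sum_pow_char, Finset.mul_sum]
    refine Finset.sum_congr rfl fun j _ => ?_
    rw [mul_pow, ← pow_mul, pow_succ]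
    ring

section

variable {p : ℕ} [hp : Fact p.Prime] (V K₀ K : Type*) [CommRing V] [IsDomain V]
  [IsNoetherianRing V] [IsIntegrallyClosed V] [CharP V p] [Field K₀] [Algebra V K₀]
  [IsFractionRing V K₀] [Field K] [Algebra K₀ K] [FiniteDimensional K₀ K] [Algebra V K]
  [IsScalarTower V K₀ K]

include hp K₀ in
theorem finite_integralClosure (hF : FF p V) : Module.Finite V (integralClosure V K) := by
  classical
  have : CharP K₀ p := charP_of_injective_algebraMap (IsFractionRing.injective V K₀) p
  let Ks := separableClosure K₀ K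
  set e := IsPurelyInseparable.exponent Ks K with he
  have : CharP Ks p := charP_of_injective_algebraMap (algebraMap K₀ Ks).injective p
  have hst : IsScalarTower V Ks K := IsScalarTower.of_algebraMap_eq fun x => by
    rw [IsScalarTower.algebraMap_apply V K₀ K, IsScalarTower.algebraMap_apply V K₀ Ks]
    rfl
  have : ExpChar Ks p := ExpChar.prime hp.out
  let φ : K →+* Ks := IsPurelyInseparable.iterateFrobenius Ks K p (n := e) he.ge
  have hφ : ∀ x : K, algebraMap Ks K (φ x) = x ^ p ^ e := fun x =>
    IsPurelyInseparable.algebraMap_iterateFrobenius Ks p he.ge x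
  have hφV : ∀ v : V, φ (algebraMap V K v) = algebraMap V Ks (v ^ p ^ e) := by
    intro v
    apply (algebraMap Ks K).injective
    rw [hφ, map_pow, map_pow, ← IsScalarTower.algebraMap_apply V Ks K]
  have hφinj : Function.Injective φ := φ.injective
  let Ss := integralClosure V Ks
  have hSs : Module.Finite V Ss := IsIntegralClosure.finite V K₀ Ks Ss
  have : ExpChar V p := ExpChar.prime hp.out
  let Vq : Subring V := (iterateFrobenius V p e).range
  have hVq : IsNoetherianRing Vq := inferInstance
  have hfinV : Module.Finite Vq V := by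
    obtain ⟨n, g, hg⟩ := hF.iterate e
    refine ⟨⟨Finset.univ.image g, ?_⟩⟩
    rw [eq_top_iff]
    rintro x -
    obtain ⟨a, ha⟩ := hg x
    rw [ha]
    refine Submodule.sum_mem _ fun i _ => ?_
    have : g i * a i ^ p ^ e = (⟨a i ^ p ^ e, ⟨a i, rfl⟩⟩ : Vq) • g i := by
      rw [Subring.smul_def, smul_eq_mul, mul_comm]
    rw [this]
    exact Submodule.smul_mem _ _ (Submodule.subset_span (by simp))
  have hfin : Module.Finite Vq Ss := Module.Finite.trans V Ss
  have hnoeth : IsNoetherian Vq Ss := isNoetherian_of_isNoetherianRing_of_finite Vq Ss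
  -- the image of the integral closure
  have hmem : ∀ x : K, x ∈ integralClosure V K → φ x ∈ Ss := by
    intro x hx
    have h1 : IsIntegral V x := hx
    have h2 : IsIntegral V (algebraMap Ks K (φ x)) := by
      rw [hφ]; exact h1.pow _
    exact (isIntegral_algebraMap_iff (algebraMap Ks K).injective).1 h2
  let ψ : integralClosure V K → Ss := fun x => ⟨φ x.1, hmem x.1 x.2⟩
  have hψinj : Function.Injective ψ := by
    intro x y hxy
    have : φ x.1 = φ y.1 := congrArg (fun z : Ss => (z : Ks)) hxy
    exact Subtype.ext (hφinj this)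
  obtain ⟨T, hT1, hT2⟩ := (Submodule.fg_span_iff_fg_span_finset_subset (R := Vq) (Set.range ψ)).1
    (IsNoetherian.noetherian _)
  choose! inv hinv using fun (y : Ss) (hy : y ∈ Set.range ψ) => hy
  refine ⟨⟨T.image inv, ?_⟩⟩
  rw [eq_top_iff]
  rintro x -
  have hx : ψ x ∈ Submodule.span Vq (T : Set Ss) := by
    rw [← hT2]; exact Submodule.subset_span ⟨x, rfl⟩
  obtain ⟨c, hc⟩ := Submodule.mem_span_finset.1 hx
  obtain ⟨hc1, hc2⟩ := hc
  choose w hw using fun y : Ss => (c y).2
  have key : x = ∑ y ∈ T, w y • inv y := by
    apply hψinj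
    apply Subtype.ext
    change φ x.1 = φ (∑ y ∈ T, w y • inv y : integralClosure V K).1
    have h1 : φ x.1 = ((∑ y ∈ T, c y • y : Ss) : Ks) := by rw [hc2]
    rw [h1]
    have h2 : ((∑ y ∈ T, w y • inv y : integralClosure V K) : K) = ∑ y ∈ T, algebraMap V K (w y) * (inv y : K) := by
      rw [AddSubmonoidClass.coe_finsetSum]
      refine Finset.sum_congr rfl fun y _ => ?_
      rw [← Algebra.smul_def]; rfl
    rw [h2, map_sum, AddSubmonoidClass.coe_finsetSum]
    refine Finset.sum_congr rfl fun y hy => ?_
    rw [map_mul, hφV]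
    have h3 : φ (inv y : K) = (y : Ks) := by
      have := hinv y (hT1 hy)
      exact congrArg (fun z : Ss => (z : Ks)) this
    rw [h3]
    have h4 : (c y : V) = w y ^ p ^ e := by
      rw [← hw y, iterateFrobenius_def]
    have h5 : ((c y • y : Ss) : Ks) = (c y : V) • (y : Ks) := rfl
    rw [h5, h4, Algebra.smul_def]
  rw [key]
  refine Submodule.sum_mem _ fun y hy => Submodule.smul_mem _ _ (Submodule.subset_span ?_)
  exact Finset.mem_coe.2 (Finset.mem_image_of_mem _ hy)

end

section

variable {p : ℕ} [hp : Fact p.Prime] (V K₀ K : Type*) [CommRing V] [IsDomain V]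
  [IsDiscreteValuationRing V] [CharP V p] [Field K₀] [Algebra V K₀]
  [IsFractionRing V K₀] [Field K] [Algebra K₀ K] [FiniteDimensional K₀ K] [Algebra V K]
  [IsScalarTower V K₀ K]

include hp K₀ in
theorem pid_integralClosure (hF : FF p V) : IsPrincipalIdealRing (integralClosure V K) := by
  classical
  have hfin : Module.Finite V (integralClosure V K) := finite_integralClosure (p := p) V K₀ K hF
  have hn : IsNoetherianRing (integralClosure V K) :=
    isNoetherianRing_iff.mpr (isNoetherian_of_tower V
      (isNoetherian_of_isNoetherianRing_of_finite V (integralClosure V K)))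
  have hinj : Function.Injective (algebraMap V K) := by
    rw [IsScalarTower.algebraMap_eq V K₀ K]
    exact (algebraMap K₀ K).injective.comp (IsFractionRing.injective V K₀)
  have hinjS : Function.Injective (algebraMap V (integralClosure V K)) := by
    intro a b hab
    apply hinj
    have := congrArg (fun z : integralClosure V K => (z : K)) hab
    exact this
  have hfr : IsFractionRing (integralClosure V K) K :=
    IsIntegralClosure.isFractionRing_of_finite_extension V K₀ K (integralClosure V K)
  have hic : IsIntegrallyClosed (integralClosure V K) :=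
    integralClosure.isIntegrallyClosedOfFiniteExtension K₀
  have hdim : Ring.DimensionLEOne (integralClosure V K) := Ring.DimensionLEOne.of_isIntegral V _
  have hded : IsDedekindDomain (integralClosure V K) :=
    { hn, hdim, hic with }
  have htf : Module.IsTorsionFree V (integralClosure V K) :=
    Module.isTorsionFree_iff_algebraMap_injective.2 hinjS
  have hm0 : IsLocalRing.maximalIdeal V ≠ ⊥ := IsDiscreteValuationRing.not_a_field V
  have hprimes := IsDedekindDomain.primesOver_finite (IsLocalRing.maximalIdeal V) (integralClosure V K)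
  refine IsPrincipalIdealRing.of_finite_maximals (hprimes.subset ?_)
  intro Q hQ
  have hQmax : Q.IsMaximal := hQ
  refine ⟨hQmax.isPrime, ?_⟩
  constructor
  have : (Q.comap (algebraMap V (integralClosure V K))).IsMaximal :=
    Ideal.isMaximal_comap_of_isIntegral_of_isMaximal Q
  exact (IsLocalRing.eq_maximalIdeal this).symm

end

end Pool.Agent.W461.HM
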