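import Mathlib
import Pool.Agent.W461.HM.Norm

set_option autoImplicit false
set_option linter.unusedSectionVars false
set_option linter.unusedVariables false

namespace Pool.Agent.W461.HM

open Module

/-- Data of a finite birational extension which is normal in codimension one over `t`. -/
structure Norm1 (O R : Type) [CommRing O] [CommRing R] [Algebra O R] (t : O) where
  R' : Type
  [cr : CommRing R']
  [dom : IsDomain R']
  [alg : Algebra O R']
  [fin : Module.Finite O R']
  inj : Function.Injective (algebraMap O R')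
  ι : R →ₐ[O] R'
  ιinj : Function.Injective ι
  tors : ∃ c : O, c ≠ 0 ∧ ∀ x : R', ∃ y : R, ι y = c • x
  E : ℕ
  P : ℕ → Ideal R'
  I : ℕ → Submodule O R'
  ψ : ∀ n, I n →ₗ[O] R'
  ρ : ℕ → R'
  w : ℕ → O
  I0 : I 0 = ⊤
  Ianti : ∀ n, I (n + 1) ≤ I n
  IE : ∀ x : R', t • x ∈ I E
  Pprime : ∀ n < E, (P n).IsPrime
  Pcomap : ∀ n < E, (P n).comap (algebraMap O R') = Ideal.span {t}
  ψP : ∀ n < E, ∀ x : I n, (x : R') ∈ I (n + 1) → ψ n x ∈ P n
  ψρ : ∀ n < E, ∀ x : I n, t • ψ n x = ρ n * x
  wt : ∀ n < E, w n ∉ Ideal.span {t}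
  ψw : ∀ n < E, ∀ y : R', ∃ x : I n, ψ n x = w n • y
  rank : ∀ (κ : ℕ → Type) [∀ n, Fintype (κ n)] (z : ∀ n, κ n → R') (c : ℕ → O),
    (∀ n < E, c n ∉ Ideal.span {t}) →
    (∀ n < E, ∀ x : R', ∃ y ∈ Submodule.span O (Set.range (z n)), c n • x - y ∈ P n) →
    ∃ (Z : (Σ n : Fin E, κ n) → R) (c' : O), c' ≠ 0 ∧
      ∀ x : R, c' • x ∈ Submodule.span O (Set.range Z)
  free : ∃ (k : ℕ) (e : Fin k → R') (c₀ : O), c₀ ∉ Ideal.span {t} ∧ LinearIndependent O e ∧
    ∀ x : R', c₀ • x ∈ Submodule.span O (Set.range e)

section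

variable {O V K : Type} [CommRing O] [IsDomain O] [CommRing V] [Field K] [Algebra O V]
  [Algebra V K] [Algebra O K] [IsScalarTower O V K] {P : Ideal O} [P.IsPrime]
  [IsLocalization.AtPrime V P]

/-- uniform denominators -/
lemma unif_denom (A : Submodule O K) (G : Set K) (hG : G.Finite)
    (h : ∀ g ∈ G, ∃ u : O, u ∉ P ∧ u • g ∈ A) :
    ∃ u : O, u ∉ P ∧ ∀ x ∈ Submodule.span O G, u • x ∈ A := by
  classical
  choose! u hu1 hu2 using h
  refine ⟨∏ g ∈ hG.toFinset, u g, ?_, ?_⟩
  · intro hmem
    obtain ⟨g, hg, hgP⟩ := (Ideal.IsPrime.prod_mem_iff (p := P)).1 hmem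
    exact hu1 g (hG.mem_toFinset.1 hg) hgP
  · intro x hx
    induction hx using Submodule.span_induction with
    | mem g hg =>
      rw [← Finset.prod_erase_mul _ _ (hG.mem_toFinset.2 hg), mul_smul]
      exact A.smul_mem _ (hu2 g hg)
    | zero => rw [smul_zero]; exact A.zero_mem
    | add x y _ _ hx hy => rw [smul_add]; exact A.add_mem hx hy
    | smul a x _ hx => rw [smul_comm]; exact A.smul_mem _ hx

lemma denom_span (G : Set K) (s : K) (hs : s ∈ Submodule.span V G) :
    ∃ u : O, u ∉ P ∧ u • s ∈ Submodule.span O G := by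
  induction hs using Submodule.span_induction with
  | mem g hg => exact ⟨1, fun h => (Ideal.ne_top_iff_one P).1 (Ideal.IsPrime.ne_top ‹_›) h, by
      rw [one_smul]; exact Submodule.subset_span hg⟩
  | zero => exact ⟨1, fun h => (Ideal.ne_top_iff_one P).1 (Ideal.IsPrime.ne_top ‹_›) h, by
      rw [smul_zero]; exact Submodule.zero_mem _⟩
  | add x y _ _ hx hy =>
    obtain ⟨u, hu, hux⟩ := hx
    obtain ⟨v, hv, hvy⟩ := hy
    refine ⟨u * v, fun h => ?_, ?_⟩
    · rcases Ideal.IsPrime.mem_or_mem ‹P.IsPrime› h with h | h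
      · exact hu h
      · exact hv h
    · rw [smul_add, mul_smul, mul_smul, smul_comm]
      exact Submodule.add_mem _ (Submodule.smul_mem _ _ hux) (Submodule.smul_mem _ _ hvy)
  | smul a x _ hx =>
    obtain ⟨u, hu, hux⟩ := hx
    obtain ⟨⟨b, s⟩, hbs⟩ := IsLocalization.surj P.primeCompl a
    refine ⟨s.1 * u, fun h => ?_, ?_⟩
    · rcases Ideal.IsPrime.mem_or_mem ‹P.IsPrime› h with h | h
      · exact s.2 h
      · exact hu h
    · have h1 : (s.1 * u) • a • x = b • (u • x) := by
        have h2 : s.1 • a = algebraMap O V b := by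
          rw [Algebra.smul_def, mul_comm]; exact hbs
        have h3 : (s.1 * u) • a • x = u • ((s.1 • a) • x) := by
          rw [mul_comm, mul_smul, smul_assoc]
        rw [h3, h2, algebraMap_smul, smul_comm]
      rw [h1]
      exact Submodule.smul_mem _ _ hux

end

/-- prime factorisation as a sequence -/
lemma exists_prime_seq {S : Type*} [CommRing S] [IsDomain S] [UniqueFactorizationMonoid S] (a : S)
    (ha : a ≠ 0) : ∃ (E : ℕ) (ϖ : ℕ → S), (∀ n < E, Prime (ϖ n)) ∧
      Associated (∏ i ∈ Finset.range E, ϖ i) a := by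
  induction a using UniqueFactorizationMonoid.induction_on_prime with
  | h₁ => exact absurd rfl ha
  | h₂ x hx => exact ⟨0, fun _ => 1, fun n hn => absurd hn (by omega), by
      simpa using (associated_one_iff_isUnit.2 hx).symm⟩
  | h₃ b q hb hq ih =>
    obtain ⟨E, ϖ, h1, h2⟩ := ih hb
    refine ⟨E + 1, fun n => if n = 0 then q else ϖ (n - 1), ?_, ?_⟩
    · intro n hn
      by_cases h : n = 0
      · simp [h, hq]
      · simp only [h, if_false]; exact h1 _ (by omega)
    · rw [Finset.prod_range_succ']
      simp only [Nat.add_eq_zero_iff, one_ne_zero, and_false, if_false, Nat.add_sub_cancel, if_true]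
      rw [mul_comm]
      exact Associated.mul_left q h2

section

variable {O V K R : Type} [CommRing O] [IsDomain O] [IsNoetherianRing O] [CommRing V] [IsDomain V]
  [IsDiscreteValuationRing V] [Field K] [Algebra O V] [CommRing R] [IsDomain R]
  [Algebra V K] [Algebra O K] [IsScalarTower O V K] (P : Ideal O) [hP : P.IsPrime]
  [IsLocalization.AtPrime V P] [Algebra O R] [Module.Finite O R] [Algebra R K]
  [IsScalarTower O R K] [IsFractionRing R K]

variable (V K R) in
theorem exists_R' (hfin : Module.Finite V (integralClosure V K)) :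
    ∃ R' : Subalgebra O K, Module.Finite O R' ∧ (∀ x : R, algebraMap R K x ∈ R') ∧
      (∀ x ∈ R', x ∈ integralClosure V K) ∧
      (∀ s ∈ integralClosure V K, ∃ u : O, u ∉ P ∧ u • s ∈ R') := by
  classical
  obtain ⟨T, hT⟩ := hfin.fg_top
  obtain ⟨G, hG⟩ := (inferInstance : Module.Finite O R).fg_top
  have h1 : ∀ s : integralClosure V K, ∃ u : O, u ∉ P ∧ IsIntegral O (u • (s : K)) := by
    intro s
    obtain ⟨m, hm⟩ := IsIntegral.exists_multiple_integral_of_isLocalization (M := P.primeCompl)
      (Rₘ := V) (s : K) s.2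
    exact ⟨m.1, m.2, hm⟩
  choose u hu1 hu2 using h1
  set Gen : Set K := (algebraMap R K) '' (G : Set R) ∪ (fun s : integralClosure V K => u s • (s : K)) '' (T : Set _)
    with hGen
  have hGenfin : Gen.Finite := (G.finite_toSet.image _).union (T.finite_toSet.image _)
  have hRint : ∀ x : R, IsIntegral O (algebraMap R K x) := fun x =>
    (Algebra.IsIntegral.isIntegral (R := O) x).map (IsScalarTower.toAlgHom O R K)
  have hint : ∀ x ∈ Gen, IsIntegral O x := by
    rintro x (⟨g, _, rfl⟩ | ⟨s, _, rfl⟩)
    · exact hRint g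
    · exact hu2 s
  refine ⟨Algebra.adjoin O Gen, Algebra.finite_adjoin_of_finite_of_isIntegral hGenfin hint, ?_, ?_, ?_⟩
  · intro x
    have hx : x ∈ Submodule.span O (G : Set R) := by rw [hG]; trivial
    induction hx using Submodule.span_induction with
    | mem g hg => exact Algebra.subset_adjoin (Or.inl ⟨g, hg, rfl⟩)
    | zero => rw [map_zero]; exact Subalgebra.zero_mem _
    | add x y _ _ hx hy => rw [map_add]; exact Subalgebra.add_mem _ hx hy
    | smul a x _ hx =>
      rw [Algebra.smul_def, map_mul, ← IsScalarTower.algebraMap_apply]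
      exact Subalgebra.mul_mem _ (Subalgebra.algebraMap_mem _ _) hx
  · intro x hx
    have h2 : Algebra.adjoin O Gen ≤ integralClosure O K := Algebra.adjoin_le hint
    have h3 : IsIntegral O x := h2 hx
    exact h3.tower_top
  · intro s hs
    have h3 : (⟨s, hs⟩ : integralClosure V K) ∈ Submodule.span V (T : Set (integralClosure V K)) := by
      rw [hT]; trivial
    have h4 : s ∈ Submodule.span V ((fun s : integralClosure V K => (s : K)) '' (T : Set _)) := by
      have := Submodule.mem_map_of_mem (f := (integralClosure V K).val.toLinearMap) h3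
      rw [Submodule.map_span] at this
      exact this
    obtain ⟨v, hv, hvs⟩ := denom_span (O := O) (P := P) _ s h4
    obtain ⟨w, hw, hws⟩ := unif_denom (P := P) (Subalgebra.toSubmodule (Algebra.adjoin O Gen))
      ((fun s : integralClosure V K => (s : K)) '' (T : Set _)) (T.finite_toSet.image _) (by
        rintro _ ⟨s, hsT, rfl⟩
        exact ⟨u s, hu1 s, Algebra.subset_adjoin (Or.inr ⟨s, hsT, rfl⟩)⟩)
    refine ⟨w * v, fun h => ?_, ?_⟩
    · rcases hP.mem_or_mem h with h | h
      · exact hw h
      · exact hv h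
    · rw [mul_smul]; exact hws _ hvs

end

section

variable {O V K R : Type} [CommRing O] [IsDomain O] [IsNoetherianRing O] [CommRing V] [IsDomain V]
  [IsDiscreteValuationRing V] [Field K] [Algebra O V] [CommRing R] [IsDomain R]
  [Algebra V K] [Algebra O K] [IsScalarTower O V K] {P : Ideal O} [hP : P.IsPrime]
  [IsLocalization.AtPrime V P] [Algebra O R] [Module.Finite O R] [Algebra R K]
  [IsScalarTower O R K] [IsFractionRing R K] (R' : Subalgebra O K) [Module.Finite O R']
  (hR'S : ∀ x ∈ R', x ∈ integralClosure V K)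
  (hSR' : ∀ s ∈ integralClosure V K, ∃ u : O, u ∉ P ∧ u • s ∈ R')

include hSR' hP in
/-- division by an element of the integral closure -/
lemma exists_div (y r : K) (hy : y ≠ 0) (hr : r ∈ integralClosure V K) :
    ∃ u : O, u ∉ P ∧ u • r ∈ R' ∧ ∀ z ∈ integralClosure V K, y * z ∈ R' → u • z ∈ R' := by
  classical
  -- the submodule of multiples of y
  let N : Submodule O R' := 
    { carrier := {x | ∃ z ∈ integralClosure V K, (x : K) = y * z}
      add_mem' := by
        rintro a b ⟨z, hz, hz'⟩ ⟨w, hw, hw'⟩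
        exact ⟨z + w, add_mem hz hw, by rw [mul_add, ← hz', ← hw']; rfl⟩
      zero_mem' := ⟨0, zero_mem _, by simp⟩
      smul_mem' := by
        rintro a x ⟨z, hz, hz'⟩
        refine ⟨algebraMap O V a • z, Subalgebra.smul_mem _ hz _, ?_⟩
        rw [algebraMap_smul, mul_smul_comm, ← hz']
        rfl }
  have hnoeth : IsNoetherian O R' := isNoetherian_of_isNoetherianRing_of_finite O R'
  obtain ⟨G, hG⟩ := IsNoetherian.noetherian N
  let L : R' →ₗ[O] K := (LinearMap.mulLeft O y⁻¹) ∘ₗ (Subalgebra.val R').toLinearMap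
  have hL : ∀ x : R', L x = y⁻¹ * (x : K) := fun _ => rfl
  obtain ⟨v, hv, hvr⟩ := hSR' r hr
  obtain ⟨u, hu, huz⟩ := unif_denom (P := P) (Subalgebra.toSubmodule R') (L '' (G : Set R'))
    (G.finite_toSet.image _) (by
      rintro _ ⟨g, hg, rfl⟩
      have hgN : g ∈ N := by rw [← hG]; exact Submodule.subset_span hg
      obtain ⟨z, hz, hz'⟩ := hgN
      have : L g = z := by rw [hL, hz', inv_mul_cancel_left₀ hy]
      rw [this]
      exact hSR' z hz)
  refine ⟨u * v, fun h => ?_, ?_, ?_⟩
  · rcases hP.mem_or_mem h with h | h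
    · exact hu h
    · exact hv h
  · rw [mul_smul]; exact Subalgebra.smul_mem _ hvr _
  · intro z hz hyz
    rw [mul_comm, mul_smul]
    refine Subalgebra.smul_mem _ ?_ _
    refine huz z ?_
    rw [← Submodule.map_span, hG]
    refine ⟨⟨y * z, hyz⟩, ⟨z, hz, rfl⟩, ?_⟩
    rw [hL]
    exact inv_mul_cancel_left₀ hy z

/-- the inclusion into the integral closure -/
def jj (hR'S : ∀ x ∈ R', x ∈ integralClosure V K) : R' →+* integralClosure V K where
  toFun x := ⟨x.1, hR'S x.1 x.2⟩
  map_one' := rfl
  map_mul' _ _ := rfl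
  map_zero' := rfl
  map_add' _ _ := rfl

lemma jj_coe (x : R') : ((jj R' hR'S x : integralClosure V K) : K) = (x : K) := rfl

lemma jj_smul (a : O) (x : R') : jj R' hR'S (a • x) = algebraMap O V a • jj R' hR'S x := by
  apply Subtype.ext
  change ((a • x : R') : K) = algebraMap O V a • (x : K)
  rw [algebraMap_smul]; rfl

/-- the submodules `y S ∩ R'` -/
def II (y : integralClosure V K) : Submodule O R' where
  carrier := {x | y ∣ jj R' hR'S x}
  add_mem' := by
    intro a b ha hb
    change y ∣ jj R' hR'S (a + b)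
    rw [map_add]; exact dvd_add ha hb
  zero_mem' := by
    change y ∣ jj R' hR'S 0
    rw [map_zero]; exact dvd_zero y
  smul_mem' := by
    intro a x hx
    change y ∣ jj R' hR'S (a • x)
    rw [jj_smul, Algebra.smul_def]
    exact Dvd.dvd.mul_left hx _

lemma mem_II (y : integralClosure V K) (x : R') : x ∈ II R' hR'S y ↔ y ∣ jj R' hR'S x := Iff.rfl

/-- the primes `ϖ S ∩ R'` -/
def PP (ϖ : integralClosure V K) : Ideal R' := (Ideal.span {ϖ}).comap (jj R' hR'S)

lemma mem_PP (ϖ : integralClosure V K) (x : R') : x ∈ PP R' hR'S ϖ ↔ ϖ ∣ jj R' hR'S x := by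
  unfold PP
  rw [Ideal.mem_comap, Ideal.mem_span_singleton]

include hSR' hP in
lemma exists_psi (y ϖ r : integralClosure V K) (t : O) (hy : y ≠ 0)
    (hyr : y * r = algebraMap V (integralClosure V K) (algebraMap O V t)) :
    ∃ (ψ : II R' hR'S y →ₗ[O] R') (ρ : R') (w : O), w ∉ P ∧
      (∀ x : II R' hR'S y, (x : R') ∈ II R' hR'S (y * ϖ) → ψ x ∈ PP R' hR'S ϖ) ∧
      (∀ x : II R' hR'S y, t • ψ x = ρ * x) ∧
      (∀ b : R', ∃ x : II R' hR'S y, ψ x = w • b) := by
  classical
  have hy' : (y : K) ≠ 0 := fun h => hy (Subtype.ext h)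
  obtain ⟨u, hu, hur, huz⟩ := exists_div R' hSR' (y : K) (r : K) hy' r.2
  -- division
  have hdiv : ∀ x : II R' hR'S y, u • ((y : K)⁻¹ * ((x : R') : K)) ∈ R' := by
    rintro ⟨x, hx⟩
    obtain ⟨z, hz⟩ := (mem_II R' hR'S y x).1 hx
    have hz' : (x : K) = (y : K) * (z : K) := congrArg (fun s : integralClosure V K => (s : K)) hz
    change u • ((y : K)⁻¹ * (x : K)) ∈ R'
    rw [hz', inv_mul_cancel_left₀ hy']
    exact huz z z.2 (by rw [← hz']; exact x.2)
  let ψ : II R' hR'S y →ₗ[O] R' :=
    { toFun := fun x => ⟨u • ((y : K)⁻¹ * ((x : R') : K)), hdiv x⟩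
      map_add' := by
        intro a b
        apply Subtype.ext
        change u • ((y : K)⁻¹ * (((a : R') : K) + ((b : R') : K))) = u • _ + u • _
        rw [mul_add, smul_add]
      map_smul' := by
        intro a x
        apply Subtype.ext
        change u • ((y : K)⁻¹ * (a • ((x : R') : K))) = a • (u • _)
        rw [mul_smul_comm, smul_comm] }
  have hψ : ∀ x : II R' hR'S y, ((ψ x : R') : K) = u • ((y : K)⁻¹ * ((x : R') : K)) := fun _ => rfl
  obtain ⟨v, hv, hvy⟩ := hSR' (y : K) y.2
  refine ⟨ψ, ⟨u • (r : K), hur⟩, u * v, ?_, ?_, ?_, ?_⟩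
  · intro h
    rcases hP.mem_or_mem h with h | h
    · exact hu h
    · exact hv h
  · intro x hx
    rw [mem_PP]
    obtain ⟨z, hz⟩ := (mem_II R' hR'S _ _).1 hx
    have hz' : ((x : R') : K) = (y : K) * (ϖ : K) * (z : K) :=
      congrArg (fun s : integralClosure V K => (s : K)) hz
    refine ⟨algebraMap O V u • z, ?_⟩
    apply Subtype.ext
    rw [jj_coe, hψ, hz', mul_assoc, inv_mul_cancel_left₀ hy']
    change u • ((ϖ : K) * (z : K)) = (ϖ : K) * (algebraMap O V u • (z : K))
    rw [algebraMap_smul, mul_smul_comm]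
  · intro x
    apply Subtype.ext
    change t • ((ψ x : R') : K) = (u • (r : K)) * ((x : R') : K)
    have h1 : (y : K) * (r : K) = algebraMap O K t := by
      have := congrArg (fun s : integralClosure V K => (s : K)) hyr
      change (y : K) * (r : K) = algebraMap V K (algebraMap O V t) at this
      rwa [← IsScalarTower.algebraMap_apply] at this
    rw [hψ, Algebra.smul_def, ← h1, Algebra.smul_def, Algebra.smul_def]
    field_simp
  · intro b
    refine ⟨⟨⟨v • (y : K), hvy⟩ * b, ?_⟩, ?_⟩
    · rw [mem_II, map_mul]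
      refine Dvd.dvd.mul_right ?_ _
      refine ⟨algebraMap V (integralClosure V K) (algebraMap O V v), ?_⟩
      apply Subtype.ext
      change v • (y : K) = (y : K) * algebraMap V K (algebraMap O V v)
      rw [← IsScalarTower.algebraMap_apply, Algebra.smul_def, mul_comm]
    · apply Subtype.ext
      rw [hψ]
      change u • ((y : K)⁻¹ * ((v • (y : K)) * (b : K))) = (u * v) • (b : K)
      rw [mul_smul, smul_mul_assoc, mul_smul_comm, inv_mul_cancel_left₀ hy']


lemma PP_prime (ϖ : integralClosure V K) (h : Prime ϖ) : (PP R' hR'S ϖ).IsPrime := by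
  have : (Ideal.span {ϖ}).IsPrime := (Ideal.span_singleton_prime h.ne_zero).2 h
  exact Ideal.comap_isPrime (jj R' hR'S) _

lemma jj_algebraMap (a : O) : jj R' hR'S (algebraMap O R' a) =
    algebraMap V (integralClosure V K) (algebraMap O V a) := by
  apply Subtype.ext
  change algebraMap O K a = algebraMap V K (algebraMap O V a)
  rw [← IsScalarTower.algebraMap_apply]

lemma PP_comap (ϖ : integralClosure V K) (h : Prime ϖ) (t : O) (hPt : P = Ideal.span {t})
    (hdvd : ϖ ∣ algebraMap V (integralClosure V K) (algebraMap O V t)) :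
    (PP R' hR'S ϖ).comap (algebraMap O R') = P := by
  apply le_antisymm
  · intro a ha
    rw [Ideal.mem_comap, mem_PP, jj_algebraMap] at ha
    by_contra hna
    have hu : IsUnit (algebraMap O V a) := IsLocalization.map_units V (⟨a, hna⟩ : P.primeCompl)
    exact h.not_unit (isUnit_of_dvd_unit ha (hu.map _))
  · intro a ha
    rw [hPt, Ideal.mem_span_singleton] at ha
    obtain ⟨b, rfl⟩ := ha
    rw [Ideal.mem_comap, mem_PP, jj_algebraMap, map_mul, map_mul]
    exact Dvd.dvd.mul_right hdvd _

include hR'S hSR' hP in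
lemma rank_aux (hRR' : ∀ x : R, algebraMap R K x ∈ R')
    (hfin : Module.Finite V (integralClosure V K)) (t : O) (hPt : P = Ideal.span {t})
    (E : ℕ) (ϖ y : ℕ → integralClosure V K) (hy0 : y 0 = 1) (hys : ∀ n, y (n + 1) = y n * ϖ n)
    (hyE : algebraMap V (integralClosure V K) (algebraMap O V t) ∣ y E)
    (κ : ℕ → Type) [∀ n, Fintype (κ n)] (z : ∀ n, κ n → R') (c : ℕ → O) (hc : ∀ n < E, c n ∉ P)
    (hz : ∀ n < E, ∀ x : R', ∃ b ∈ Submodule.span O (Set.range (z n)), c n • x - b ∈ PP R' hR'S (ϖ n)) :
    ∃ (Z : (Σ n : Fin E, κ n) → R) (c' : O), c' ≠ 0 ∧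
      ∀ x : R, c' • x ∈ Submodule.span O (Set.range Z) := by
  classical
  let zz : (Σ n : Fin E, κ n) → integralClosure V K := fun a => y a.1 * jj R' hR'S (z a.1 a.2)
  set N : Submodule V (integralClosure V K) := Submodule.span V (Set.range zz) with hN
  -- elements of the O-span of z n, multiplied by y n, lie in N
  have hspan : ∀ n (hn : n < E), ∀ b ∈ Submodule.span O (Set.range (z n)),
      y n * jj R' hR'S b ∈ N := by
    intro n hn b hb
    induction hb using Submodule.span_induction with
    | mem g hg =>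
      obtain ⟨k, rfl⟩ := hg
      exact Submodule.subset_span ⟨⟨⟨n, hn⟩, k⟩, rfl⟩
    | zero => rw [map_zero, mul_zero]; exact N.zero_mem
    | add a b _ _ ha hb => rw [map_add, mul_add]; exact N.add_mem ha hb
    | smul a x _ hx =>
      rw [jj_smul, mul_smul_comm]
      exact N.smul_mem _ hx
  have hstep : ∀ k n, n + k = E → ∀ s : integralClosure V K, ∃ b ∈ N, y E ∣ y n * s - b := by
    intro k
    induction k with
    | zero =>
      intro n hn s
      exact ⟨0, N.zero_mem, by rw [sub_zero, ← hn, add_zero]; exact Dvd.intro _ rfl⟩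
    | succ k ihk =>
      intro n hnk s
      have hn : n < E := by omega
      have ih := ihk (n + 1) (by omega)
      obtain ⟨u, hu, hus⟩ := hSR' (s : K) s.2
      obtain ⟨b, hb, hbP⟩ := hz n hn ⟨u • (s : K), hus⟩
      rw [mem_PP, map_sub] at hbP
      obtain ⟨s', hs'⟩ := hbP
      obtain ⟨b', hb', hb'E⟩ := ih s'
      have hcu : IsUnit (algebraMap O V (c n * u)) :=
        IsLocalization.map_units V (⟨c n * u, fun h => by
          rcases hP.mem_or_mem h with h | h
          · exact hc n hn h
          · exact hu h⟩ : P.primeCompl)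
      obtain ⟨v, hv⟩ := hcu
      refine ⟨(v⁻¹ : Vˣ) • (y n * jj R' hR'S b + b'), ?_, ?_⟩
      · exact N.smul_mem _ (N.add_mem (hspan n hn b hb) hb')
      · have h1 : jj R' hR'S (c n • (⟨u • (s : K), hus⟩ : R')) = (v : V) • s := by
          apply Subtype.ext
          rw [jj_coe, hv]
          change c n • (u • (s : K)) = algebraMap O V (c n * u) • (s : K)
          rw [algebraMap_smul, mul_smul]
        rw [h1] at hs'
        have h2 : y n * s - (v⁻¹ : Vˣ) • (y n * jj R' hR'S b + b') =
            (v⁻¹ : Vˣ) • (y (n + 1) * s' - b') := by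
          have h3 : y n * ((v : V) • s) = y n * jj R' hR'S b + y (n + 1) * s' := by
            rw [hys, mul_assoc, ← hs']; ring
          have h4 : y n * s = (v⁻¹ : Vˣ) • (y n * ((v : V) • s)) := by
            rw [mul_smul_comm, Units.smul_def, smul_smul, Units.inv_mul, one_smul]
          rw [h4, h3, ← smul_sub]
          congr 1
          ring
        rw [h2, Units.smul_def, Algebra.smul_def]
        exact Dvd.dvd.mul_left hb'E _
  have hNtop : N = ⊤ := by
    rw [eq_top_iff]
    refine Submodule.le_of_le_smul_of_le_jacobson_bot (I := IsLocalRing.maximalIdeal V)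
      hfin.fg_top (IsLocalRing.maximalIdeal_le_jacobson _) ?_
    rintro s -
    obtain ⟨b, hb, hbE⟩ := hstep E 0 (by omega) s
    rw [hy0, one_mul] at hbE
    obtain ⟨s', hs'⟩ := hyE.trans hbE
    have : s = b + (algebraMap O V t) • s' := by
      rw [Algebra.smul_def, ← hs']; ring
    rw [this]
    refine Submodule.add_mem_sup hb (Submodule.smul_mem_smul ?_ trivial)
    have htP : t ∈ P := by rw [hPt]; exact Ideal.mem_span_singleton_self _
    exact (IsLocalization.AtPrime.to_map_mem_maximal_iff V P t).2 htP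
  -- now in the field
  let zK : (Σ n : Fin E, κ n) → K := fun a => (zz a : K)
  have hspanK : ∀ s ∈ integralClosure V K, s ∈ Submodule.span V (Set.range zK) := by
    intro s hs
    have h3 : (⟨s, hs⟩ : integralClosure V K) ∈ Submodule.span V (Set.range zz) := by
      rw [← hN, hNtop]; trivial
    have := Submodule.mem_map_of_mem (f := (integralClosure V K).val.toLinearMap) h3
    rw [Submodule.map_span, ← Set.range_comp] at this
    exact this
  obtain ⟨G, hG⟩ := (inferInstance : Module.Finite O R).fg_top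
  obtain ⟨u, hu, hux⟩ := unif_denom (P := P) (Submodule.span O (Set.range zK))
    ((algebraMap R K) '' (G : Set R)) (G.finite_toSet.image _) (by
      rintro _ ⟨g, _, rfl⟩
      exact denom_span (O := O) (P := P) _ _ (hspanK _ (hR'S _ (hRR' g))))
  -- a common denominator for the elements zK
  have hden : ∀ x : K, ∃ b : O, b ∉ (⊥ : Ideal O) ∧ b • x ∈ LinearMap.range (Algebra.linearMap R K |>.restrictScalars O) := by
    intro x
    obtain ⟨a, b, hb, rfl⟩ := IsFractionRing.div_surjective (A := R) x
    have hb0 : b ≠ 0 := nonZeroDivisors.ne_zero hb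
    have hint : IsIntegral O b := Algebra.IsIntegral.isIntegral b
    have hne := Ideal.comap_ne_bot_of_integral_mem (R := O) hb0 (Ideal.mem_span_singleton_self b) hint
    obtain ⟨c, hc, hc0⟩ := Submodule.exists_mem_ne_zero_of_ne_bot hne
    rw [Ideal.mem_comap, Ideal.mem_span_singleton] at hc
    obtain ⟨d, hd⟩ := hc
    refine ⟨c, by simpa using hc0, d * a, ?_⟩
    change algebraMap R K (d * a) = c • _
    have hbK : algebraMap R K b ≠ 0 := by
      intro h
      exact hb0 ((IsFractionRing.injective R K) (by rw [h, map_zero]))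
    rw [Algebra.smul_def, IsScalarTower.algebraMap_apply O R K, hd, map_mul, map_mul]
    field_simp
  obtain ⟨b, hb, hbz⟩ := unif_denom (P := (⊥ : Ideal O))
    (LinearMap.range ((Algebra.linearMap R K).restrictScalars O)) (Set.range zK) (Set.finite_range _)
    (fun g _ => hden g)
  have hb0 : b ≠ 0 := by simpa using hb
  have hZ : ∀ a, ∃ r : R, algebraMap R K r = b • zK a := by
    intro a
    obtain ⟨r, hr⟩ := hbz (zK a) (Submodule.subset_span ⟨a, rfl⟩)
    exact ⟨r, hr⟩
  choose Z hZ using hZ
  have hu0 : u ≠ 0 := fun h => hu (by rw [h]; exact P.zero_mem)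
  refine ⟨Z, b * u, mul_ne_zero hb0 hu0, fun x => ?_⟩
  have hx : x ∈ Submodule.span O (G : Set R) := by rw [hG]; trivial
  have hxK : algebraMap R K x ∈ Submodule.span O ((algebraMap R K) '' (G : Set R)) := by
    have := Submodule.mem_map_of_mem (f := (Algebra.linearMap R K).restrictScalars O) hx
    rw [Submodule.map_span] at this
    exact this
  have h5 := hux _ hxK
  -- multiply by b
  have h6 : ∀ s ∈ Submodule.span O (Set.range zK), ∃ r ∈ Submodule.span O (Set.range Z),
      algebraMap R K r = b • s := by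
    intro s hs
    induction hs using Submodule.span_induction with
    | mem g hg =>
      obtain ⟨a, rfl⟩ := hg
      exact ⟨Z a, Submodule.subset_span ⟨a, rfl⟩, hZ a⟩
    | zero => exact ⟨0, Submodule.zero_mem _, by simp⟩
    | add s s' _ _ h h' =>
      obtain ⟨r, hr, hr'⟩ := h
      obtain ⟨r2, hr2, hr2'⟩ := h'
      exact ⟨r + r2, Submodule.add_mem _ hr hr2, by rw [map_add, hr', hr2', smul_add]⟩
    | smul a s _ h =>
      obtain ⟨r, hr, hr'⟩ := h
      refine ⟨a • r, Submodule.smul_mem _ _ hr, ?_⟩
      rw [Algebra.smul_def, map_mul, hr', ← IsScalarTower.algebraMap_apply, ← Algebra.smul_def,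
        smul_comm]
  obtain ⟨r, hr, hr'⟩ := h6 _ h5
  have : (b * u) • x = r := by
    apply IsFractionRing.injective R K
    rw [hr', Algebra.smul_def, map_mul, ← IsScalarTower.algebraMap_apply, ← Algebra.smul_def, mul_smul]
  rw [this]
  exact hr

include hR'S hSR' hP in
lemma free_aux (hVK : Function.Injective (algebraMap V K)) (hOV : Function.Injective (algebraMap O V))
    (hfin : Module.Finite V (integralClosure V K)) :
    ∃ (k : ℕ) (e : Fin k → R') (c₀ : O), c₀ ∉ P ∧ LinearIndependent O e ∧
      ∀ x : R', c₀ • x ∈ Submodule.span O (Set.range e) := by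
  classical
  have hinjS : Function.Injective (algebraMap V (integralClosure V K)) := by
    intro a b hab
    apply hVK
    exact congrArg (fun z : integralClosure V K => (z : K)) hab
  have htf : Module.IsTorsionFree V (integralClosure V K) :=
    Module.isTorsionFree_iff_algebraMap_injective.2 hinjS
  have hfree : Module.Free V (integralClosure V K) := Module.free_of_finite_type_torsion_free'
  let bs := Module.finBasis V (integralClosure V K)
  set k := Module.finrank V (integralClosure V K) with hk
  have h1 : ∀ i : Fin k, ∃ u : O, u ∉ P ∧ u • (bs i : K) ∈ R' := fun i => hSR' _ (bs i).2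
  obtain ⟨u, hu, hux⟩ := unif_denom (P := P) (Subalgebra.toSubmodule R')
    (Set.range fun i => (bs i : K)) (Set.finite_range _) (by
      rintro _ ⟨i, rfl⟩
      exact h1 i)
  let e : Fin k → R' := fun i => ⟨u • (bs i : K), hux _ (Submodule.subset_span ⟨i, rfl⟩)⟩
  have hu0 : u ≠ 0 := fun h => hu (by rw [h]; exact P.zero_mem)
  obtain ⟨G, hG⟩ := (inferInstance : Module.Finite O R').fg_top
  obtain ⟨v, hv, hvx⟩ := unif_denom (P := P) (Submodule.span O (Set.range fun i => (bs i : K)))
    ((fun x : R' => (x : K)) '' (G : Set R')) (G.finite_toSet.image _) (by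
      rintro _ ⟨g, _, rfl⟩
      refine denom_span (O := O) (P := P) (V := V) _ _ ?_
      have h3 : (⟨(g : K), hR'S _ g.2⟩ : integralClosure V K) ∈ Submodule.span V (Set.range bs) := by
        rw [bs.span_eq]; trivial
      have := Submodule.mem_map_of_mem (f := (integralClosure V K).val.toLinearMap) h3
      rw [Submodule.map_span, ← Set.range_comp] at this
      exact this)
  refine ⟨k, e, u * v, fun h => ?_, ?_, ?_⟩
  · rcases hP.mem_or_mem h with h | h
    · exact hu h
    · exact hv h
  · rw [Fintype.linearIndependent_iff]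
    intro g hg i
    have h2 : ∑ i, (algebraMap O V (g i * u)) • bs i = 0 := by
      apply Subtype.ext
      have h3 := congrArg (fun x : R' => (x : K)) hg
      simp only [AddSubmonoidClass.coe_finsetSum, ZeroMemClass.coe_zero] at h3 ⊢
      rw [← h3]
      refine Finset.sum_congr rfl fun i _ => ?_
      change algebraMap O V (g i * u) • (bs i : K) = g i • (u • (bs i : K))
      rw [algebraMap_smul, mul_smul]
    have h4 := Fintype.linearIndependent_iff.1 bs.linearIndependent _ h2 i
    have h5 : g i * u = 0 := hOV (by rw [h4, map_zero])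
    rcases mul_eq_zero.1 h5 with h | h
    · exact h
    · exact absurd h hu0
  · intro x
    have hx : x ∈ Submodule.span O (G : Set R') := by rw [hG]; trivial
    have hxK : (x : K) ∈ Submodule.span O ((fun x : R' => (x : K)) '' (G : Set R')) := by
      have := Submodule.mem_map_of_mem (f := (Subalgebra.val R').toLinearMap) hx
      rw [Submodule.map_span] at this
      exact this
    have h5 := hvx _ hxK
    have h6 : ∀ s ∈ Submodule.span O (Set.range fun i => (bs i : K)),
        ∃ r ∈ Submodule.span O (Set.range e), (r : K) = u • s := by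
      intro s hs
      induction hs using Submodule.span_induction with
      | mem g hg =>
        obtain ⟨a, rfl⟩ := hg
        exact ⟨e a, Submodule.subset_span ⟨a, rfl⟩, rfl⟩
      | zero => exact ⟨0, Submodule.zero_mem _, by simp⟩
      | add s s' _ _ h h' =>
        obtain ⟨r, hr, hr'⟩ := h
        obtain ⟨r2, hr2, hr2'⟩ := h'
        refine ⟨r + r2, Submodule.add_mem _ hr hr2, ?_⟩
        change (r : K) + (r2 : K) = _
        rw [hr', hr2', smul_add]
      | smul a s _ h =>
        obtain ⟨r, hr, hr'⟩ := h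
        refine ⟨a • r, Submodule.smul_mem _ _ hr, ?_⟩
        change a • (r : K) = _
        rw [hr', smul_comm]
    obtain ⟨r, hr, hr'⟩ := h6 _ h5
    have : (u * v) • x = r := by
      apply Subtype.ext
      change (u * v) • (x : K) = (r : K)
      rw [hr', mul_smul]
    rw [this]
    exact hr

include hR'S in
lemma tors_aux :
    ∃ c : O, c ≠ 0 ∧ ∀ x : R', ∃ y : R, algebraMap R K y = c • (x : K) := by
  classical
  have hden : ∀ x : K, ∃ b : O, b ∉ (⊥ : Ideal O) ∧ b • x ∈ LinearMap.range (Algebra.linearMap R K |>.restrictScalars O) := by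
    intro x
    obtain ⟨a, b, hb, rfl⟩ := IsFractionRing.div_surjective (A := R) x
    have hb0 : b ≠ 0 := nonZeroDivisors.ne_zero hb
    have hint : IsIntegral O b := Algebra.IsIntegral.isIntegral b
    have hne := Ideal.comap_ne_bot_of_integral_mem (R := O) hb0 (Ideal.mem_span_singleton_self b) hint
    obtain ⟨c, hc, hc0⟩ := Submodule.exists_mem_ne_zero_of_ne_bot hne
    rw [Ideal.mem_comap, Ideal.mem_span_singleton] at hc
    obtain ⟨d, hd⟩ := hc
    refine ⟨c, by simpa using hc0, d * a, ?_⟩
    change algebraMap R K (d * a) = c • _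
    have hbK : algebraMap R K b ≠ 0 := by
      intro h
      exact hb0 ((IsFractionRing.injective R K) (by rw [h, map_zero]))
    rw [Algebra.smul_def, IsScalarTower.algebraMap_apply O R K, hd, map_mul, map_mul]
    field_simp
  obtain ⟨G, hG⟩ := (inferInstance : Module.Finite O R').fg_top
  obtain ⟨b, hb, hbz⟩ := unif_denom (P := (⊥ : Ideal O))
    (LinearMap.range ((Algebra.linearMap R K).restrictScalars O))
    ((fun x : R' => (x : K)) '' (G : Set R')) (G.finite_toSet.image _)
    (fun g _ => hden g)
  have hb0 : b ≠ 0 := by simpa using hb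
  refine ⟨b, hb0, fun x => ?_⟩
  have hx : x ∈ Submodule.span O (G : Set R') := by rw [hG]; trivial
  have hxK : (x : K) ∈ Submodule.span O ((fun x : R' => (x : K)) '' (G : Set R')) := by
    have := Submodule.mem_map_of_mem (f := (Subalgebra.val R').toLinearMap) hx
    rw [Submodule.map_span] at this
    exact this
  obtain ⟨r, hr⟩ := hbz _ hxK
  exact ⟨r, hr⟩

include hR'S hSR' hP in
theorem assemble (hRR' : ∀ x : R, algebraMap R K x ∈ R')
    (hfin : Module.Finite V (integralClosure V K)) [IsPrincipalIdealRing (integralClosure V K)]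
    (t : O) (ht : t ≠ 0) (hPt : P = Ideal.span {t})
    (hVK : Function.Injective (algebraMap V K)) (hOV : Function.Injective (algebraMap O V)) :
    Nonempty (Norm1 O R t) := by
  classical
  have hinjS : Function.Injective (algebraMap V (integralClosure V K)) := by
    intro a b hab
    apply hVK
    exact congrArg (fun z : integralClosure V K => (z : K)) hab
  have htS : algebraMap V (integralClosure V K) (algebraMap O V t) ≠ 0 := by
    intro h
    apply ht
    apply hOV
    apply hinjS
    rw [h, map_zero, map_zero]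
  have : UniqueFactorizationMonoid (integralClosure V K) := inferInstance
  obtain ⟨E, ϖ, hϖ, hass⟩ := exists_prime_seq _ htS
  set y : ℕ → integralClosure V K := fun n => ∏ i ∈ Finset.range n, ϖ i with hy
  have hy0 : y 0 = 1 := by simp [hy]
  have hys : ∀ n, y (n + 1) = y n * ϖ n := fun n => Finset.prod_range_succ _ _
  have hdvd : ∀ n ≤ E, y n ∣ algebraMap V (integralClosure V K) (algebraMap O V t) := by
    intro n hn
    exact (Finset.prod_dvd_prod_of_subset _ _ _ (Finset.range_subset_range.2 hn)).trans hass.dvd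
  have hyne : ∀ n ≤ E, y n ≠ 0 := fun n hn h => htS (by
    have := hdvd n hn
    rw [h] at this
    exact zero_dvd_iff.1 this)
  have hψ : ∀ n, ∃ (ψ : II R' hR'S (y n) →ₗ[O] R') (ρ : R') (w : O), n < E → (w ∉ P ∧
      (∀ x : II R' hR'S (y n), (x : R') ∈ II R' hR'S (y (n + 1)) → ψ x ∈ PP R' hR'S (ϖ n)) ∧
      (∀ x : II R' hR'S (y n), t • ψ x = ρ * x) ∧
      (∀ b : R', ∃ x : II R' hR'S (y n), ψ x = w • b)) := by
    intro n
    by_cases hn : n < E
    · obtain ⟨r, hr⟩ := hdvd n hn.le
      obtain ⟨ψ, ρ, w, h1, h2, h3, h4⟩ := exists_psi (P := P) R' hR'S hSR' (y n) (ϖ n) r t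
        (hyne n hn.le) hr.symm
      refine ⟨ψ, ρ, w, fun _ => ⟨h1, ?_, h3, h4⟩⟩
      rw [hys]
      exact h2
    · exact ⟨0, 0, 0, fun h => absurd h hn⟩
  choose ψ ρ w hψ using hψ
  obtain ⟨ct, hct0, hct⟩ := tors_aux (V := V) (R := R) R' hR'S
  have hιinj : Function.Injective ((IsScalarTower.toAlgHom O R K).codRestrict R' hRR') := by
    intro a b hab
    apply IsFractionRing.injective R K
    exact congrArg (fun z : R' => (z : K)) hab
  refine ⟨{
    R' := R'
    inj := ?_
    ι := (IsScalarTower.toAlgHom O R K).codRestrict R' hRR'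
    ιinj := hιinj
    tors := ⟨ct, hct0, fun x => ?_⟩
    E := E
    P := fun n => PP R' hR'S (ϖ n)
    I := fun n => II R' hR'S (y n)
    ψ := ψ
    ρ := ρ
    w := w
    I0 := ?_
    Ianti := ?_
    IE := ?_
    Pprime := fun n hn => PP_prime R' hR'S _ (hϖ n hn)
    Pcomap := fun n hn => ?_
    ψP := fun n hn => (hψ n hn).2.1
    ψρ := fun n hn => (hψ n hn).2.2.1
    wt := fun n hn => ?_
    ψw := fun n hn => (hψ n hn).2.2.2
    rank := ?_
    free := ?_ }⟩
  · intro a b hab
    apply hOV
    apply hVK
    rw [← IsScalarTower.algebraMap_apply, ← IsScalarTower.algebraMap_apply]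
    exact congrArg (fun z : R' => (z : K)) hab
  · obtain ⟨z, hz⟩ := hct x
    refine ⟨z, ?_⟩
    apply Subtype.ext
    exact hz
  · rw [eq_top_iff]
    intro x _
    rw [mem_II, hy0]
    exact one_dvd _
  · intro n x hx
    rw [mem_II] at hx ⊢
    rw [hys] at hx
    exact (Dvd.intro _ rfl).trans hx
  · intro x
    rw [mem_II, jj_smul, Algebra.smul_def]
    exact Dvd.dvd.mul_right hass.dvd _
  · rw [PP_comap R' hR'S (ϖ n) (hϖ n hn) t hPt
      (((Finset.dvd_prod_of_mem _ (Finset.mem_range.2 hn)).trans hass.dvd)), hPt]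
  · rw [← hPt]; exact (hψ n hn).1
  · intro κ _ z c hc hz
    exact rank_aux (V := V) (P := P) R' hR'S hSR' hRR' hfin t hPt E ϖ y hy0 hys hass.symm.dvd κ z c
      (fun n hn => by rw [hPt]; exact hc n hn) hz
  · rw [← hPt]
    exact free_aux R' hR'S hSR' hVK hOV hfin

end


lemma FF.localization {p : ℕ} [Fact p.Prime] {O V : Type} [CommRing O] [CommRing V] [Algebra O V]
    [CharP V p] (M : Submonoid O) [IsLocalization M V] (h : FF p O) : FF p V := by
  have hp : 0 < p := (Fact.out : p.Prime).pos
  obtain ⟨n, g, hg⟩ := h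
  refine ⟨n, fun i => algebraMap O V (g i), fun x => ?_⟩
  obtain ⟨a, s, rfl⟩ := IsLocalization.exists_mk'_eq M x
  obtain ⟨b, hb⟩ := hg (a * s ^ (p - 1))
  refine ⟨fun i => IsLocalization.mk' V (b i) s, ?_⟩
  have h1 : IsLocalization.mk' V a s = IsLocalization.mk' V (a * s ^ (p - 1)) (s ^ p) := by
    rw [IsLocalization.mk'_eq_iff_eq]
    congr 1
    rw [SubmonoidClass.coe_pow]
    have : (s : O) ^ p = s ^ (p - 1) * s := by
      rw [← pow_succ]; congr 1; omega
    rw [this]; ring
  rw [h1, hb]
  have h2 : ∀ i, algebraMap O V (g i) * (IsLocalization.mk' V (b i) s) ^ p =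
      IsLocalization.mk' V (g i * b i ^ p) (s ^ p) := by
    intro i
    rw [← IsLocalization.mk'_pow, ← IsLocalization.mul_mk'_eq_mk'_of_mul]
  simp only [h2]
  symm
  rw [IsLocalization.eq_mk'_iff_mul_eq, Finset.sum_mul, map_sum]
  refine Finset.sum_congr rfl fun i _ => ?_
  exact IsLocalization.mk'_spec _ _ _

/-- The main structure theorem. -/
theorem exists_norm1 (p : ℕ) [Fact p.Prime] (O R : Type) [CommRing O] [IsDomain O]
    [IsNoetherianRing O] [CharP O p] (hF : FF p O) (t : O) (ht : t ≠ 0)
    (hprime : (Ideal.span {t}).IsPrime)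
    [CommRing R] [IsDomain R] [Algebra O R] [Module.Finite O R]
    (hinj : Function.Injective (algebraMap O R)) : Nonempty (Norm1 O R t) := by
  classical
  have key : ∀ (F : Type) [Field F] (A B D : F), B ≠ 0 → (B * D) * (A / B) = D * A := by
    intro F _ A B D hB
    field_simp
  obtain ⟨P, hP⟩ : ∃ P : Ideal O, P = Ideal.span {t} := ⟨_, rfl⟩
  have hPp : P.IsPrime := by rw [hP]; exact hprime
  let V := Localization.AtPrime P
  let K := FractionRing R
  let K₀ := FractionRing O
  have hOV : Function.Injective (algebraMap O V) :=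
    IsLocalization.injective V P.primeCompl_le_nonZeroDivisors
  have hdomV : IsDomain V := IsLocalization.isDomain_localization P.primeCompl_le_nonZeroDivisors
  have hOK : Function.Injective (algebraMap O K) := by
    rw [IsScalarTower.algebraMap_eq O R K]
    exact (IsFractionRing.injective R K).comp hinj
  have hfaith : FaithfulSMul O K := (faithfulSMul_iff_algebraMap_injective O K).2 hOK
  let : Algebra K₀ K := FractionRing.liftAlgebra O K
  have : IsScalarTower O K₀ K := FractionRing.isScalarTower_liftAlgebra O K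
  let : Algebra V K := ((algebraMap K₀ K).comp (algebraMap V K₀)).toAlgebra
  have : IsScalarTower V K₀ K := IsScalarTower.of_algebraMap_eq fun x => rfl
  have : IsScalarTower O V K := IsScalarTower.of_algebraMap_eq fun x => by
    rw [IsScalarTower.algebraMap_apply V K₀ K, ← IsScalarTower.algebraMap_apply O V K₀,
      ← IsScalarTower.algebraMap_apply O K₀ K]
  have hVK : Function.Injective (algebraMap V K) := by
    rw [IsScalarTower.algebraMap_eq V K₀ K]
    exact (algebraMap K₀ K).injective.comp (IsFractionRing.injective V K₀)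
  have : IsNoetherianRing V := IsLocalization.isNoetherianRing P.primeCompl V inferInstance
  have htP : t ∈ P := by rw [hP]; exact Ideal.mem_span_singleton_self _
  have hnf : ¬ IsField V := by
    intro h
    have h1 : algebraMap O V t ∈ IsLocalRing.maximalIdeal V :=
      (IsLocalization.AtPrime.to_map_mem_maximal_iff V P t).2 htP
    have h2 : IsUnit (algebraMap O V t) := by
      rw [isUnit_iff_exists_inv]
      exact h.mul_inv_cancel (fun h0 => ht (hOV (by rw [h0, map_zero])))
    exact (IsLocalRing.mem_maximalIdeal _).1 h1 h2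
  have : IsDiscreteValuationRing V := by
    refine ((IsDiscreteValuationRing.TFAE V hnf).out 0 4).2 ?_
    refine ⟨⟨algebraMap O V t, ?_⟩⟩
    have hm : P.map (algebraMap O V) = (Ideal.span {t}).map (algebraMap O V) :=
      congrArg (Ideal.map (algebraMap O V)) hP
    rw [← Localization.AtPrime.map_eq_maximalIdeal, hm, Ideal.map_span, Set.image_singleton]
  have : CharP V p := charP_of_injective_algebraMap hOV p
  have hFV : FF p V := hF.localization P.primeCompl
  have hfinK : Module.Finite K₀ K := by
    obtain ⟨G, hG⟩ := (inferInstance : Module.Finite O R).fg_top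
    refine ⟨⟨G.image (algebraMap R K), ?_⟩⟩
    rw [eq_top_iff]
    rintro x -
    obtain ⟨a, b, hb, rfl⟩ := IsFractionRing.div_surjective (A := R) x
    have hb0 : b ≠ 0 := nonZeroDivisors.ne_zero hb
    have hint : IsIntegral O b := Algebra.IsIntegral.isIntegral b
    have hne := Ideal.comap_ne_bot_of_integral_mem (R := O) hb0 (Ideal.mem_span_singleton_self b) hint
    obtain ⟨c, hc, hc0⟩ := Submodule.exists_mem_ne_zero_of_ne_bot hne
    rw [Ideal.mem_comap, Ideal.mem_span_singleton] at hc
    obtain ⟨d, hd⟩ := hc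
    have hbK : algebraMap R K b ≠ 0 := by
      intro h
      exact hb0 ((IsFractionRing.injective R K) (by rw [h, map_zero]))
    have hcK : algebraMap O K₀ c ≠ 0 := fun h => hc0 (IsFractionRing.injective O K₀ (by
      rw [h, map_zero]))
    have h1 : algebraMap R K a / algebraMap R K b = (algebraMap O K₀ c)⁻¹ • algebraMap R K (d * a) := by
      rw [eq_inv_smul_iff₀ hcK, Algebra.smul_def, ← IsScalarTower.algebraMap_apply,
        IsScalarTower.algebraMap_apply O R K, hd, map_mul, map_mul]
      exact key K _ _ _ hbK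
    rw [h1]
    refine Submodule.smul_mem _ _ ?_
    have hx : d * a ∈ Submodule.span O (G : Set R) := by rw [hG]; trivial
    have := Submodule.mem_map_of_mem (f := (Algebra.linearMap R K).restrictScalars O) hx
    rw [Submodule.map_span] at this
    rw [Finset.coe_image]
    exact Submodule.span_le_restrictScalars O K₀ _ this
  have hfin : Module.Finite V (integralClosure V K) := finite_integralClosure (p := p) V K₀ K hFV
  have : IsPrincipalIdealRing (integralClosure V K) := pid_integralClosure (p := p) V K₀ K hFV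
  obtain ⟨R', h1, h2, h3, h4⟩ := exists_R' V K R P hfin
  exact assemble (V := V) R' h3 h4 h2 hfin t ht hP hVK hOV

end Pool.Agent.W461.HM
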