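import Mathlib
import Pool.Agent.W461.HM.Frame
import Pool.Agent.W461.HM.Struct

set_option autoImplicit false
set_option linter.unusedSectionVars false
set_option linter.unusedVariables false
set_option linter.style.haveILetI false

namespace Pool.Agent.W461.HM

open Module

open Classical in
/-- number of points of the box `[0,N)^d` outside `T` -/
noncomputable def cnt : (d : ℕ) → ℕ → Set (Fin d → ℕ) → ℕ
  | 0, _, T => if (fun j : Fin 0 => j.elim0 : Fin 0 → ℕ) ∈ T then 0 else 1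
  | d + 1, N, T => ∑ a ∈ Finset.range N, cnt d N {s | (Fin.cons a s : Fin (d + 1) → ℕ) ∈ T}

lemma len_transfer' {O O' R' : Type} [CommRing O] [CommRing O'] [CommRing R'] [Algebra O R']
    {π : O →+* O'} (hs : Function.Surjective π) (P : Ideal R') [Algebra O' (R' ⧸ P)]
    (hcomp : ∀ a : O, algebraMap O' (R' ⧸ P) (π a) = Ideal.Quotient.mk P (algebraMap O R' a))
    (b : Ideal R') :
    Module.length O' ((R' ⧸ P) ⧸ b.map (Ideal.Quotient.mk P)) = Module.length O (R' ⧸ (P ⊔ b)) := by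
  letI := π.toAlgebra
  haveI : IsScalarTower O O' (R' ⧸ P) := IsScalarTower.of_algebraMap_eq fun a => (hcomp a).symm
  have h1 : Module.length O ((R' ⧸ P) ⧸ b.map (Ideal.Quotient.mk P)) =
      Module.length O' ((R' ⧸ P) ⧸ b.map (Ideal.Quotient.mk P)) :=
    Module.length_eq_of_surjective hs
  rw [← h1]
  let f : R' →ₗ[O] ((R' ⧸ P) ⧸ b.map (Ideal.Quotient.mk P)) :=
    ((b.map (Ideal.Quotient.mk P)).mkQ.restrictScalars O) ∘ₗ (P.mkQ.restrictScalars O)
  have hf : Function.Surjective f := (Submodule.mkQ_surjective _).comp (Submodule.mkQ_surjective _)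
  have hker : LinearMap.ker f = (P ⊔ b).restrictScalars O := by
    ext y
    rw [LinearMap.mem_ker]
    change (Submodule.Quotient.mk (Ideal.Quotient.mk P y) :
      (R' ⧸ P) ⧸ b.map (Ideal.Quotient.mk P)) = 0 ↔ y ∈ P ⊔ b
    rw [Submodule.Quotient.mk_eq_zero, ← Ideal.mem_comap,
      Ideal.comap_map_of_surjective _ Ideal.Quotient.mk_surjective,
      ← RingHom.ker_eq_comap_bot, Ideal.mk_ker, sup_comm]
  have h2 := (f.quotKerEquivOfSurjective hf).length_eq
  rw [← h2]
  exact (Submodule.quotEquivOfEq _ _ hker).length_eq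


/-- conclusion of the flag theorem -/
structure FlagData (O R : Type) [CommRing O] [CommRing R] [Algebra O R] {d : ℕ} (t : Fin d → O)
    {Γ : Type} [AddCommMonoid Γ] (sz : Γ → ℕ) (r : ℕ) (𝔞 : Γ → Ideal R) where
  ι : Type
  [fι : Fintype ι]
  S : ι → Set (Γ × (Fin d → ℕ))
  C : ℕ
  z : ι → R
  c : O
  c0 : c ≠ 0
  L : ∀ x : R, c • x ∈ Submodule.span O (Set.range z)
  add : ∀ i, ∀ u ∈ S i, ∀ v ∈ S i, u + v ∈ S i
  base : ∀ i g s, algebraMap O R (∏ j, t j ^ s j) ∈ 𝔞 g → (g, s) ∈ S i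
  count : ∀ g, ((sz g + 1 : ℕ) : ℕ∞) * ((∑ i, cnt d (r * sz g) {s | (g, s) ∈ S i} : ℕ) : ℕ∞) ≤
    ((sz g + 1 : ℕ) : ℕ∞) * Module.length O (R ⧸ 𝔞 g) + ((C * (sz g + 1) ^ d : ℕ) : ℕ∞)
  bound : ∀ c : O, c ≠ 0 → ∃ b : ℕ, ∀ i g s, (g, s) ∈ S i → ∀ q : Fin d → ℕ,
    (∀ x ∈ 𝔞 g, c • x ∈ PI (fun j => algebraMap O R (t j)) q) → ∃ j, q j ≤ s j + b

/-- flag data for the quotient by a prime, expressed upstairs -/
structure FlagQ (O R : Type) [CommRing O] [CommRing R] [Algebra O R] {d : ℕ} (x : O)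
    (t : Fin d → O) (P : Ideal R)
    {Γ : Type} [AddCommMonoid Γ] (sz : Γ → ℕ) (r : ℕ) (𝔞 : Γ → Ideal R)
    (ι : Type) [Fintype ι] (S : ι → Set (Γ × (Fin d → ℕ))) (C : ℕ) (z : ι → R) (c : O) :
    Prop where
  c0 : c ∉ Ideal.span {x}
  L : ∀ y : R, ∃ b ∈ Submodule.span O (Set.range z), c • y - b ∈ P
  add : ∀ i, ∀ u ∈ S i, ∀ v ∈ S i, u + v ∈ S i
  base : ∀ i g s, algebraMap O R (∏ j, t j ^ s j) ∈ 𝔞 g → (g, s) ∈ S i
  count : ∀ g, ((sz g + 1 : ℕ) : ℕ∞) * ((∑ i, cnt d (r * sz g) {s | (g, s) ∈ S i} : ℕ) : ℕ∞) ≤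
    ((sz g + 1 : ℕ) : ℕ∞) * Module.length O (R ⧸ (P ⊔ 𝔞 g)) + ((C * (sz g + 1) ^ d : ℕ) : ℕ∞)
  bound : ∀ c : O, c ∉ Ideal.span {x} → ∃ b : ℕ, ∀ i g s, (g, s) ∈ S i → ∀ q : Fin d → ℕ,
    (∀ y ∈ 𝔞 g, c • y ∈ PI (fun j => algebraMap O R (t j)) q ⊔ P) → ∃ j, q j ≤ s j + b

lemma flag_quot {O O' R' : Type} [CommRing O] [CommRing O'] [IsDomain O'] [CommRing R']
    [Algebra O R'] [Module.Finite O R']
    {π : O →+* O'} (hs : Function.Surjective π) {x : O} (hk : RingHom.ker π = Ideal.span {x})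
    (P : Ideal R') (hP : P.IsPrime) (hPc : P.comap (algebraMap O R') = Ideal.span {x})
    {d : ℕ} (t : Fin d → O)
    {Γ : Type} [AddCommMonoid Γ] (sz : Γ → ℕ) (r : ℕ) (𝔞 : Γ → Ideal R')
    (hmul : ∀ g g', 𝔞 g * 𝔞 g' ≤ 𝔞 (g + g'))
    (hpow : ∀ g, TI (fun j => algebraMap O R' (t j)) ^ (r * sz g) ≤ 𝔞 g)
    (IH : ∀ (R : Type) [CommRing R] [IsDomain R] [Algebra O' R] [Module.Finite O' R]
      (hinj : Function.Injective (algebraMap O' R)) (𝔞 : Γ → Ideal R)
      (hmul : ∀ g g', 𝔞 g * 𝔞 g' ≤ 𝔞 (g + g'))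
      (hpow : ∀ g, TI (fun j => algebraMap O' R (π (t j))) ^ (r * sz g) ≤ 𝔞 g),
      Nonempty (FlagData O' R (fun j => π (t j)) sz r 𝔞)) :
    ∃ (ι : Type) (_ : Fintype ι) (S : ι → Set (Γ × (Fin d → ℕ))) (C : ℕ) (z : ι → R') (c : O),
      FlagQ O R' x t P sz r 𝔞 ι S C z c := by
  classical
  have hker : RingHom.ker π ≤ RingHom.ker ((Ideal.Quotient.mk P).comp (algebraMap O R')) := by
    intro a ha
    rw [hk, ← hPc] at ha
    rw [RingHom.mem_ker, RingHom.comp_apply]
    exact Ideal.Quotient.eq_zero_iff_mem.2 ha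
  let φ : O' →+* (R' ⧸ P) := RingHom.liftOfSurjective π hs
    ⟨(Ideal.Quotient.mk P).comp (algebraMap O R'), hker⟩
  have hφ : ∀ a, φ (π a) = Ideal.Quotient.mk P (algebraMap O R' a) := fun a =>
    RingHom.liftOfRightInverse_comp_apply _ _ _ _ a
  letI : Algebra O' (R' ⧸ P) := φ.toAlgebra
  have hcomp : ∀ a : O, algebraMap O' (R' ⧸ P) (π a) = Ideal.Quotient.mk P (algebraMap O R' a) := hφ
  have hinj : Function.Injective (algebraMap O' (R' ⧸ P)) := by
    rw [injective_iff_map_eq_zero]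
    intro a ha
    obtain ⟨a, rfl⟩ := hs a
    rw [hcomp, Ideal.Quotient.eq_zero_iff_mem, ← Ideal.mem_comap, hPc, ← hk] at ha
    exact ha
  have hsm : ∀ (a : O) (y : R'), π a • (Ideal.Quotient.mk P y) = Ideal.Quotient.mk P (a • y) := by
    intro a y
    rw [Algebra.smul_def, hcomp, ← map_mul, ← Algebra.smul_def]
  haveI : Module.Finite O' (R' ⧸ P) := by
    obtain ⟨G, hG⟩ := (inferInstance : Module.Finite O R').fg_top
    refine ⟨⟨G.image (Ideal.Quotient.mk P), ?_⟩⟩
    rw [eq_top_iff]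
    rintro y -
    obtain ⟨y, rfl⟩ := Ideal.Quotient.mk_surjective y
    have hy : y ∈ Submodule.span O (G : Set R') := by rw [hG]; trivial
    induction hy using Submodule.span_induction with
    | mem g hg => exact Submodule.subset_span (by simpa using ⟨g, hg, rfl⟩)
    | zero => rw [map_zero]; exact Submodule.zero_mem _
    | add a b _ _ ha hb => rw [map_add]; exact Submodule.add_mem _ ha hb
    | smul a y _ hy => rw [← hsm]; exact Submodule.smul_mem _ _ hy
  have hmk : Function.Surjective (Ideal.Quotient.mk P) := Ideal.Quotient.mk_surjective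
  obtain ⟨F⟩ := IH (R' ⧸ P) hinj (fun g => (𝔞 g).map (Ideal.Quotient.mk P)) (by
    intro g g'
    rw [← Ideal.map_mul]
    exact Ideal.map_mono (hmul g g')) (by
    intro g
    have : TI (fun j => algebraMap O' (R' ⧸ P) (π (t j))) =
        (TI (fun j => algebraMap O R' (t j))).map (Ideal.Quotient.mk P) := by
      rw [map_TI]
      simp only [hcomp]
    rw [this, ← Ideal.map_pow]
    exact Ideal.map_mono (hpow g))
  letI := F.fι
  choose z hz using fun i => hmk (F.z i)
  obtain ⟨c, hc⟩ := hs F.c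
  refine ⟨F.ι, F.fι, F.S, F.C, z, c, ?_, ?_, F.add, ?_, ?_, ?_⟩
  · rw [← hk, RingHom.mem_ker, hc]; exact F.c0
  · intro y
    have h1 := F.L (Ideal.Quotient.mk P y)
    rw [Submodule.mem_span_range_iff_exists_fun] at h1
    obtain ⟨a, ha⟩ := h1
    choose a' ha' using fun i => hs (a i)
    refine ⟨∑ i, a' i • z i, ?_, ?_⟩
    · exact Submodule.sum_mem _ fun i _ => Submodule.smul_mem _ _ (Submodule.subset_span ⟨i, rfl⟩)
    · rw [← Ideal.Quotient.eq_zero_iff_mem, map_sub, map_sum, ← hsm, hc, ← ha, sub_eq_zero]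
      refine Finset.sum_congr rfl fun i _ => ?_
      rw [← hsm, ha', hz]
  · intro i g s h
    refine F.base i g s ?_
    have := Ideal.mem_map_of_mem (Ideal.Quotient.mk P) h
    rw [← hcomp, map_prod] at this
    simpa only [map_pow] using this
  · intro g
    have := F.count g
    rwa [len_transfer' hs P hcomp] at this
  · intro c hc
    have hc' : π c ≠ 0 := by
      intro h
      apply hc
      rw [← hk]; exact h
    obtain ⟨b, hb⟩ := F.bound (π c) hc'
    refine ⟨b, fun i g s hgs q hq => hb i g s hgs q ?_⟩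
    intro y hy
    rw [Ideal.mem_map_iff_of_surjective _ hmk] at hy
    obtain ⟨y, hy, rfl⟩ := hy
    have h1 := hq y hy
    have h2 := Ideal.mem_map_of_mem (Ideal.Quotient.mk P) h1
    rw [Ideal.map_sup, Ideal.map_quotient_self, sup_bot_eq, map_PI] at h2
    rw [hsm]
    simpa only [hcomp] using h2


/-- base case -/
lemma flag_zero {O R : Type} [CommRing O] [CommRing R] [IsDomain R] [Algebra O R]
    [Module.Finite O R] (hO : IsField O) (hinj : Function.Injective (algebraMap O R))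
    (t : Fin 0 → O) {Γ : Type} [AddCommMonoid Γ] (sz : Γ → ℕ) (r : ℕ) (𝔞 : Γ → Ideal R)
    (hmul : ∀ g g', 𝔞 g * 𝔞 g' ≤ 𝔞 (g + g')) : Nonempty (FlagData O R t sz r 𝔞) := by
  classical
  letI := hO.toField
  refine ⟨{
    ι := Fin (Module.finrank O R)
    S := fun _ => {u | 𝔞 u.1 ≠ ⊥}
    C := 0
    z := Module.finBasis O R
    c := 1
    c0 := one_ne_zero
    L := ?_
    add := ?_
    base := ?_
    count := ?_
    bound := ?_ }⟩
  · intro x
    rw [(Module.finBasis O R).span_eq]; trivial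
  · rintro i ⟨g, s⟩ hg ⟨g', s'⟩ hg' h
    have h1 : 𝔞 (g + g') = ⊥ := h
    have h2 : 𝔞 g * 𝔞 g' = ⊥ := le_bot_iff.1 (by rw [← h1]; exact hmul g g')
    rcases Ideal.mul_eq_bot.1 h2 with h | h
    · exact hg h
    · exact hg' h
  · intro i g s h h'
    have h1 : 𝔞 g = ⊥ := h'
    rw [h1] at h
    simp at h
  · intro g
    rw [zero_mul, Nat.cast_zero, add_zero]
    refine mul_le_mul_right ?_ _
    by_cases h : 𝔞 g = ⊥
    · have h1 : ∀ i : Fin (Module.finrank O R), cnt 0 (r * sz g) {s : Fin 0 → ℕ | (g, s) ∈ {u : Γ × (Fin 0 → ℕ) | 𝔞 u.1 ≠ ⊥}} = 1 := by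
        intro i
        unfold cnt
        rw [if_neg]
        simp [h]
      rw [Finset.sum_congr rfl fun i _ => h1 i, h]
      have h2 : Module.length O (R ⧸ (⊥ : Ideal R)) = Module.length O R :=
        ((Submodule.quotEquivOfEqBot (⊥ : Ideal R) rfl).restrictScalars O).length_eq
      rw [h2, Module.length_eq_finrank]
      simp
    · have h1 : ∀ i : Fin (Module.finrank O R), cnt 0 (r * sz g) {s : Fin 0 → ℕ | (g, s) ∈ {u : Γ × (Fin 0 → ℕ) | 𝔞 u.1 ≠ ⊥}} = 0 := by
        intro i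
        unfold cnt
        rw [if_pos]
        simp [h]
      rw [Finset.sum_congr rfl fun i _ => h1 i]
      simp
  · intro c hc
    refine ⟨0, fun i g s hgs q hq => ?_⟩
    exfalso
    have hgs' : 𝔞 g ≠ ⊥ := hgs
    apply hgs'
    rw [eq_bot_iff]
    intro x hx
    have h1 := hq x hx
    have h2 : PI (fun j => algebraMap O R (t j)) q = ⊥ := by
      unfold PI
      rw [Set.range_eq_empty]
      exact Ideal.span_empty
    rw [h2, Ideal.mem_bot, Algebra.smul_def] at h1
    rcases mul_eq_zero.1 h1 with h | h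
    · exact absurd (hinj (by rw [h, map_zero])) hc
    · exact h


lemma len_rs {O R' : Type} [CommRing O] [CommRing R'] [Algebra O R'] (I : Ideal R') :
    Module.length O (R' ⧸ I.restrictScalars O) = Module.length O (R' ⧸ I) :=
  (Submodule.Quotient.restrictScalarsEquiv O I).length_eq

lemma len_gen {O M : Type*} [CommRing O] [AddCommGroup M] [Module O M] {k : ℕ}
    (f : (Fin k → O) →ₗ[O] M) (hf : Function.Surjective f) (K : Ideal O) (Q : Submodule O M)
    (h : ∀ a ∈ K, ∀ y : M, a • y ∈ Q) :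
    Module.length O (M ⧸ Q) ≤ (k : ℕ∞) * Module.length O (O ⧸ K) := by
  have h1 := len_fg_le f hf ⊥ K (by
    intro a ha x
    rw [Ideal.mem_bot] at ha
    rw [ha, zero_smul])
  rw [bot_sup_eq] at h1
  refine (len_quot_anti ?_).trans h1
  rw [Submodule.smul_le]
  intro a ha y _
  exact h a ha y

lemma exists_fg_map (O M : Type*) [CommRing O] [AddCommGroup M] [Module O M] [Module.Finite O M] :
    ∃ (k : ℕ) (f : (Fin k → O) →ₗ[O] M), Function.Surjective f := by
  obtain ⟨k, f, hf⟩ := Module.Finite.exists_fin' O M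
  exact ⟨k, f, hf⟩

lemma TI_act {O R' : Type} [CommRing O] [CommRing R'] [Algebra O R'] {d : ℕ} (t : Fin d → O)
    (N : ℕ) (b : Ideal R') (hb : TI (fun j => algebraMap O R' (t j)) ^ N ≤ b) (a : O)
    (ha : a ∈ TI t ^ N) (y : R') : a • y ∈ b := by
  rw [Algebra.smul_def]
  refine b.mul_mem_right _ (hb ?_)
  have := Ideal.mem_map_of_mem (algebraMap O R') ha
  rwa [Ideal.map_pow, map_TI] at this

lemma quot_err {p d : ℕ} {O O' R' : Type} [CommRing O] [CommRing O'] [CommRing R']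
    [Algebra O R'] [Module.Finite O R']
    {π : O →+* O'} (hs : Function.Surjective π) {x : O} (hk : RingHom.ker π = Ideal.span {x})
    (t : Fin d → O) (hfr : IsFrame p d O' (fun j => π (t j)))
    (P : Ideal R') (hx : algebraMap O R' x ∈ P) (w : O) (hw : w ∉ Ideal.span {x}) :
    ∃ C : ℕ, ∀ (N : ℕ) (b : Ideal R'), TI (fun j => algebraMap O R' (t j)) ^ N ≤ b →
      ∀ W : Submodule O R', (∀ y, w • y ∈ W) →
      ((N + 1 : ℕ) : ℕ∞) * Module.length O (R' ⧸ (P.restrictScalars O ⊔ b.restrictScalars O ⊔ W)) ≤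
        ((C * (N + 1) ^ d : ℕ) : ℕ∞) := by
  obtain ⟨k, f, hf⟩ := exists_fg_map O R'
  have hw' : π w ≠ 0 := by
    intro h
    apply hw
    rw [← hk]; exact h
  obtain ⟨C, hC⟩ := len_tors hfr (π w) hw'
  refine ⟨k * C, fun N b hb W hW => ?_⟩
  have h1 := len_gen f hf (Ideal.span {x} ⊔ (Ideal.span {w} ⊔ TI t ^ N))
    (P.restrictScalars O ⊔ b.restrictScalars O ⊔ W) (by
      have h2 : Ideal.span {x} ⊔ (Ideal.span {w} ⊔ TI t ^ N) ≤
          (P.restrictScalars O ⊔ b.restrictScalars O ⊔ W).colon (Set.univ : Set R') := by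
        refine sup_le ?_ (sup_le ?_ ?_)
        · rw [Ideal.span_singleton_le_iff_mem, Submodule.mem_colon]
          intro y _
          refine Submodule.mem_sup_left (Submodule.mem_sup_left ?_)
          rw [Algebra.smul_def]
          exact P.mul_mem_right _ hx
        · rw [Ideal.span_singleton_le_iff_mem, Submodule.mem_colon]
          intro y _
          exact Submodule.mem_sup_right (hW y)
        · intro a ha
          rw [Submodule.mem_colon]
          intro y _
          refine Submodule.mem_sup_left (Submodule.mem_sup_right ?_)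
          exact TI_act t N b hb a ha y
      intro a ha y
      exact Submodule.mem_colon.1 (h2 ha) y trivial)
  rw [len_transfer hs hk, Ideal.map_sup, Ideal.map_pow, map_TI, Ideal.map_span,
    Set.image_singleton] at h1
  calc ((N + 1 : ℕ) : ℕ∞) * Module.length O (R' ⧸ (P.restrictScalars O ⊔ b.restrictScalars O ⊔ W))
      ≤ ((N + 1 : ℕ) : ℕ∞) * ((k : ℕ∞) * Module.length O'
        (O' ⧸ (Ideal.span {π w} ⊔ TI (fun j => π (t j)) ^ N))) := by gcongr
    _ = (k : ℕ∞) * (((N + 1 : ℕ) : ℕ∞) * Module.length O'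
        (O' ⧸ (Ideal.span {π w} ⊔ TI (fun j => π (t j)) ^ N))) := by ring
    _ ≤ (k : ℕ∞) * ((C * (N + 1) ^ d : ℕ) : ℕ∞) := by
        gcongr
        exact hC N
    _ = _ := by push_cast; ring

lemma quot_all {p d : ℕ} {O O' R' : Type} [CommRing O] [CommRing O'] [CommRing R']
    [Algebra O R'] [Module.Finite O R']
    {π : O →+* O'} (hs : Function.Surjective π) {x : O} (hk : RingHom.ker π = Ideal.span {x})
    (t : Fin d → O) (hfr : IsFrame p d O' (fun j => π (t j)))
    (P : Ideal R') (hx : algebraMap O R' x ∈ P) :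
    ∃ C : ℕ, ∀ (N : ℕ) (b : Ideal R'), TI (fun j => algebraMap O R' (t j)) ^ N ≤ b →
      Module.length O (R' ⧸ (P.restrictScalars O ⊔ b.restrictScalars O)) ≤
        ((C * (N + 1) ^ d : ℕ) : ℕ∞) := by
  obtain ⟨k, f, hf⟩ := exists_fg_map O R'
  refine ⟨k * (d + 1) ^ d, fun N b hb => ?_⟩
  have h1 := len_gen f hf (Ideal.span {x} ⊔ TI t ^ N)
    (P.restrictScalars O ⊔ b.restrictScalars O) (by
      have h2 : Ideal.span {x} ⊔ TI t ^ N ≤
          (P.restrictScalars O ⊔ b.restrictScalars O).colon (Set.univ : Set R') := by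
        refine sup_le ?_ ?_
        · rw [Ideal.span_singleton_le_iff_mem, Submodule.mem_colon]
          intro y _
          refine (Submodule.mem_sup_left ?_)
          rw [Algebra.smul_def]
          exact P.mul_mem_right _ hx
        · intro a ha
          rw [Submodule.mem_colon]
          intro y _
          refine (Submodule.mem_sup_right ?_)
          exact TI_act t N b hb a ha y
      intro a ha y
      exact Submodule.mem_colon.1 (h2 ha) y trivial)
  rw [len_transfer hs hk, Ideal.map_pow, map_TI] at h1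
  have h2 : (((N + d - 1).choose d : ℕ) : ℕ∞) ≤ (((d + 1) ^ d * (N + 1) ^ d : ℕ) : ℕ∞) :=
    Nat.cast_le.2 (choose_le_pow' N d)
  calc _ ≤ (k : ℕ∞) * Module.length O' (O' ⧸ (TI (fun j => π (t j)) ^ N)) := h1
    _ ≤ (k : ℕ∞) * (((d + 1) ^ d * (N + 1) ^ d : ℕ) : ℕ∞) := by
        gcongr
        exact (len_frame hfr N).trans h2
    _ = _ := by push_cast; ring

/-- passage from `R` to a finite extension with torsion cokernel -/
lemma tors_err {p d : ℕ} {O R R' : Type} [CommRing O] [CommRing R] [CommRing R']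
    [Algebra O R] [Algebra O R'] [Module.Finite O R'] (t : Fin d → O) (hfr : IsFrame p d O t)
    (ι : R →ₐ[O] R') (c : O) (hc : c ≠ 0) (hι : ∀ x : R', ∃ y : R, ι y = c • x) :
    ∃ C : ℕ, ∀ (N : ℕ) (a : Ideal R), TI (fun j => algebraMap O R (t j)) ^ N ≤ a →
      ∃ e : ℕ∞, Module.length O (R' ⧸ a.map (ι : R →+* R')) ≤ Module.length O (R ⧸ a) + e ∧
        ((N + 1 : ℕ) : ℕ∞) * e ≤ ((C * (N + 1) ^ d : ℕ) : ℕ∞) := by
  obtain ⟨k, f, hf⟩ := exists_fg_map O R'
  obtain ⟨C, hC⟩ := len_tors hfr c hc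
  refine ⟨k * C, fun N a ha => ?_⟩
  have hb : TI (fun j => algebraMap O R' (t j)) ^ N ≤ a.map (ι : R →+* R') := by
    have h1 : TI (fun j => algebraMap O R' (t j)) = (TI (fun j => algebraMap O R (t j))).map (ι : R →+* R') := by
      rw [map_TI]
      congr 1
      funext j
      exact (ι.commutes (t j)).symm
    rw [h1, ← Ideal.map_pow]
    exact Ideal.map_mono ha
  refine ⟨Module.length O (R' ⧸ ((a.map (ι : R →+* R')).restrictScalars O ⊔ LinearMap.range ι.toLinearMap)),
    ?_, ?_⟩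
  · rw [← len_rs (O := O) (a.map (ι : R →+* R')), len_quot_sup ((a.map (ι : R →+* R')).restrictScalars O)
      (LinearMap.range ι.toLinearMap)]
    refine add_le_add ?_ le_rfl
    rw [← len_rs (O := O) a]
    -- the image is a quotient of R / a
    let g : R →ₗ[O] (R' ⧸ (a.map (ι : R →+* R')).restrictScalars O) :=
      (Submodule.mkQ _) ∘ₗ ι.toLinearMap
    have h1 : LinearMap.range (((a.map (ι : R →+* R')).restrictScalars O).mkQ ∘ₗ
        (LinearMap.range ι.toLinearMap).subtype) = LinearMap.range g := by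
      ext y
      constructor
      · rintro ⟨⟨_, ⟨u, rfl⟩⟩, rfl⟩
        exact ⟨u, rfl⟩
      · rintro ⟨u, rfl⟩
        exact ⟨⟨_, ⟨u, rfl⟩⟩, rfl⟩
    rw [h1]
    have h2 := len_range_le_of_ker_le (a.restrictScalars O).mkQ g (by
      intro y hy
      rw [Submodule.ker_mkQ] at hy
      rw [LinearMap.mem_ker]
      change (Submodule.Quotient.mk (ι y) : R' ⧸ (a.map (ι : R →+* R')).restrictScalars O) = 0
      rw [Submodule.Quotient.mk_eq_zero]
      exact Ideal.mem_map_of_mem (ι : R →+* R') hy)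
    rwa [Submodule.range_mkQ, Module.length_top] at h2
  · have h1 := len_gen f hf (Ideal.span {c} ⊔ TI t ^ N)
      ((a.map (ι : R →+* R')).restrictScalars O ⊔ LinearMap.range ι.toLinearMap) (by
        have h2 : Ideal.span {c} ⊔ TI t ^ N ≤
            ((a.map (ι : R →+* R')).restrictScalars O ⊔ LinearMap.range ι.toLinearMap).colon
              (Set.univ : Set R') := by
          refine sup_le ?_ ?_
          · rw [Ideal.span_singleton_le_iff_mem, Submodule.mem_colon]
            intro y _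
            obtain ⟨u, hu⟩ := hι y
            exact Submodule.mem_sup_right ⟨u, hu⟩
          · intro u hu
            rw [Submodule.mem_colon]
            intro y _
            refine (Submodule.mem_sup_left ?_)
            exact TI_act t N _ hb u hu y
        intro a ha y
        exact Submodule.mem_colon.1 (h2 ha) y trivial)
    calc _ ≤ ((N + 1 : ℕ) : ℕ∞) * ((k : ℕ∞) * Module.length O (O ⧸ (Ideal.span {c} ⊔ TI t ^ N))) := by
          gcongr
      _ = (k : ℕ∞) * (((N + 1 : ℕ) : ℕ∞) * Module.length O (O ⧸ (Ideal.span {c} ⊔ TI t ^ N))) := by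
          ring
      _ ≤ (k : ℕ∞) * ((C * (N + 1) ^ d : ℕ) : ℕ∞) := by
          gcongr
          exact hC N
      _ = _ := by push_cast; ring


attribute [instance] Norm1.cr Norm1.dom Norm1.alg Norm1.fin

lemma enat_cancel (n : ℕ) (x y : ℕ∞) (h : ((n + 1 : ℕ) : ℕ∞) * x ≤ ((n + 1 : ℕ) : ℕ∞) * y) : x ≤ y :=
  (ENat.mul_le_mul_left_iff (by simp) (ENat.natCast_ne_top _)).1 h

lemma enat_sum_cancel (n : ℕ) (x : ℕ → ℕ∞) (c : ℕ∞)
    (h : ∀ k < n, ((n + 1 : ℕ) : ℕ∞) * x k ≤ c) : ∑ k ∈ Finset.range n, x k ≤ c := by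
  apply enat_cancel n
  rw [Finset.mul_sum]
  refine (Finset.sum_le_sum fun k hk => h k (Finset.mem_range.1 hk)).trans ?_
  rw [Finset.sum_const, Finset.card_range, nsmul_eq_mul]
  gcongr
  exact Nat.le_succ n

/-- the length estimate of the inductive step -/
lemma step_len {p d : ℕ} {O O' R : Type} [CommRing O] [CommRing O'] [CommRing R] [Algebra O R]
    {π : O →+* O'} (hs : Function.Surjective π) (t : Fin (d + 1) → O)
    (hk : RingHom.ker π = Ideal.span {t 0}) (hfrO : IsFrame p (d + 1) O t)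
    (hfr : IsFrame p d O' (fun j => π (t j.succ))) (N : Norm1 O R (t 0)) :
    ∃ C : ℕ, ∀ (n : ℕ) (a : Ideal R), TI (fun j => algebraMap O R (t j)) ^ n ≤ a →
      ∑ k ∈ Finset.range n, ∑ m ∈ Finset.range N.E, Module.length O
        (N.R' ⧸ (N.P m ⊔ col (a.map (N.ι : R →+* N.R')) (algebraMap O N.R' (t 0) ^ k))) ≤
      Module.length O (R ⧸ a) + ((C * (n + 1) ^ d : ℕ) : ℕ∞) := by
  classical
  have hx : ∀ m < N.E, algebraMap O N.R' (t 0) ∈ N.P m := by
    intro m hm
    have : t 0 ∈ (N.P m).comap (algebraMap O N.R') := by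
      rw [N.Pcomap m hm]; exact Ideal.mem_span_singleton_self _
    exact this
  have h1 : ∀ m, ∃ C : ℕ, m < N.E → ∀ (n : ℕ) (b : Ideal N.R'),
      TI (fun j : Fin d => algebraMap O N.R' (t j.succ)) ^ n ≤ b →
      ∀ W : Submodule O N.R', (∀ y, N.w m • y ∈ W) → ((n + 1 : ℕ) : ℕ∞) *
        Module.length O (N.R' ⧸ ((N.P m).restrictScalars O ⊔ b.restrictScalars O ⊔ W)) ≤
        ((C * (n + 1) ^ d : ℕ) : ℕ∞) := by
    intro m
    by_cases hm : m < N.E
    · obtain ⟨C, hC⟩ := quot_err hs hk (fun j : Fin d => t j.succ) hfr (N.P m) (hx m hm) (N.w m)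
        (N.wt m hm)
      exact ⟨C, fun _ => hC⟩
    · exact ⟨0, fun h => absurd h hm⟩
  have h0 : ∀ m, ∃ C : ℕ, m < N.E → ∀ (n : ℕ) (b : Ideal N.R'),
      TI (fun j : Fin d => algebraMap O N.R' (t j.succ)) ^ n ≤ b →
        Module.length O (N.R' ⧸ ((N.P m).restrictScalars O ⊔ b.restrictScalars O)) ≤
        ((C * (n + 1) ^ d : ℕ) : ℕ∞) := by
    intro m
    by_cases hm : m < N.E
    · obtain ⟨C, hC⟩ := quot_all hs hk (fun j : Fin d => t j.succ) hfr (N.P m) (hx m hm)
      exact ⟨C, fun _ => hC⟩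
    · exact ⟨0, fun h => absurd h hm⟩
  choose C1 hC1 using h1
  choose C0 hC0 using h0
  obtain ⟨ct, hct0, hct⟩ := N.tors
  obtain ⟨C2, hC2⟩ := tors_err t hfrO N.ι ct hct0 hct
  refine ⟨∑ m ∈ Finset.range N.E, C0 m + ∑ m ∈ Finset.range N.E, C1 m + C2, fun n a ha => ?_⟩
  set A := a.map (N.ι : R →+* N.R') with hA
  set τ := algebraMap O N.R' (t 0) with hτ
  obtain ⟨e, he1, he2⟩ := hC2 n a ha
  have he : e ≤ ((C2 * (n + 1) ^ d : ℕ) : ℕ∞) := by
    apply enat_cancel n
    refine he2.trans (le_of_eq ?_)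
    push_cast; ring
  have hTA : TI (fun j => algebraMap O N.R' (t j)) ^ n ≤ A := by
    have h1 : TI (fun j => algebraMap O N.R' (t j)) =
        (TI (fun j => algebraMap O R (t j))).map (N.ι : R →+* N.R') := by
      rw [map_TI]
      congr 1
      funext j
      exact (N.ι.commutes (t j)).symm
    rw [h1, ← Ideal.map_pow]
    exact Ideal.map_mono ha
  have hTb : ∀ k, TI (fun j : Fin d => algebraMap O N.R' (t j.succ)) ^ n ≤ col A (τ ^ k) := by
    intro k
    refine le_trans ?_ (hTA.trans (le_col _ _))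
    refine Ideal.pow_right_mono ?_ n
    refine Ideal.span_mono ?_
    rintro _ ⟨j, rfl⟩
    exact ⟨j.succ, rfl⟩
  -- notation
  let Lf : ℕ → ℕ∞ := fun k => ∑ m ∈ Finset.range N.E, Module.length O (N.R' ⧸ (N.P m ⊔ col A (τ ^ k)))
  let Mf : ℕ → ℕ∞ := fun k => Module.length O (N.R' ⧸ (Ideal.span {τ} ⊔ col A (τ ^ k)))
  let W : ℕ → Submodule O N.R' := fun m => LinearMap.range (N.w m • (LinearMap.id : N.R' →ₗ[O] N.R'))
  let Ef : ℕ → ℕ → ℕ∞ := fun m k => Module.length O (N.R' ⧸ ((N.P m).restrictScalars O ⊔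
    (col A (τ ^ (k + 1))).restrictScalars O ⊔ W m))
  have hchain : ∀ k, Lf (k + 1) ≤ Mf k + ∑ m ∈ Finset.range N.E, Ef m k := by
    intro k
    have h := len_chain ((col A (τ ^ k)).restrictScalars O) ((col A (τ ^ (k + 1))).restrictScalars O)
      N.E N.I (fun m => (N.P m).restrictScalars O) W N.Ianti N.ψ N.ψP (by
        intro m hm x hx
        have hx' : τ ^ k * (x : N.R') ∈ A := hx
        change τ ^ (k + 1) * N.ψ m x ∈ A
        have h3 := N.ψρ m hm x
        rw [Algebra.smul_def] at h3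
        have h4 : τ ^ (k + 1) * N.ψ m x = N.ρ m * (τ ^ k * (x : N.R')) := by
          rw [pow_succ, mul_assoc, h3]; ring
        rw [h4]
        exact A.mul_mem_left _ hx') (by
        rintro m hm _ ⟨y, rfl⟩
        obtain ⟨x, hx⟩ := N.ψw m hm y
        refine ⟨x, ?_⟩
        rw [hx]
        simp) N.E le_rfl
    have h5 : Lf (k + 1) ≤ Module.length O (N.R' ⧸ (N.I N.E ⊔ (col A (τ ^ k)).restrictScalars O)) +
        ∑ m ∈ Finset.range N.E, Ef m k := by
      refine le_trans ?_ h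
      refine le_trans (le_of_eq ?_) le_self_add
      refine Finset.sum_congr rfl fun m _ => ?_
      rw [← len_rs (O := O), Submodule.restrictScalars_sup]
    refine h5.trans (add_le_add ?_ le_rfl)
    change _ ≤ Module.length O (N.R' ⧸ (Ideal.span {τ} ⊔ col A (τ ^ k)))
    rw [← len_rs (O := O) (Ideal.span {τ} ⊔ col A (τ ^ k)), Submodule.restrictScalars_sup]
    refine len_quot_anti (sup_le_sup_right ?_ _)
    intro x hx
    have hx' : x ∈ Ideal.span {τ} := hx
    rw [Ideal.mem_span_singleton'] at hx'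
    obtain ⟨y, rfl⟩ := hx'
    have := N.IE y
    rwa [Algebra.smul_def, mul_comm] at this
  have hL0 : Lf 0 ≤ (((∑ m ∈ Finset.range N.E, C0 m) * (n + 1) ^ d : ℕ) : ℕ∞) := by
    rw [Finset.sum_mul, Nat.cast_sum]
    refine Finset.sum_le_sum fun m hm => ?_
    rw [← len_rs (O := O), Submodule.restrictScalars_sup]
    exact hC0 m (Finset.mem_range.1 hm) n _ (hTb 0)
  have hE : ∑ k ∈ Finset.range n, ∑ m ∈ Finset.range N.E, Ef m k ≤
      (((∑ m ∈ Finset.range N.E, C1 m) * (n + 1) ^ d : ℕ) : ℕ∞) := by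
    rw [Finset.sum_comm, Finset.sum_mul, Nat.cast_sum]
    refine Finset.sum_le_sum fun m hm => ?_
    apply enat_sum_cancel
    intro k hk
    exact hC1 m (Finset.mem_range.1 hm) n _ (hTb (k + 1)) (W m) (fun y => ⟨y, rfl⟩)
  have hM : ∑ k ∈ Finset.range n, Mf k ≤ Module.length O (N.R' ⧸ A) := by
    rw [len_col_sum (O := O) A τ n]
    exact le_self_add
  calc ∑ k ∈ Finset.range n, Lf k ≤ ∑ k ∈ Finset.range (n + 1), Lf k :=
        Finset.sum_le_sum_of_subset (Finset.range_subset_range.2 (Nat.le_succ n))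
    _ = ∑ k ∈ Finset.range n, Lf (k + 1) + Lf 0 := Finset.sum_range_succ' _ _
    _ ≤ ∑ k ∈ Finset.range n, (Mf k + ∑ m ∈ Finset.range N.E, Ef m k) + Lf 0 := by
        gcongr with k hk
        exact hchain k
    _ = ∑ k ∈ Finset.range n, Mf k + ∑ k ∈ Finset.range n, ∑ m ∈ Finset.range N.E, Ef m k + Lf 0 := by
        rw [Finset.sum_add_distrib]
    _ ≤ (Module.length O (R ⧸ a) + ((C2 * (n + 1) ^ d : ℕ) : ℕ∞)) +
        (((∑ m ∈ Finset.range N.E, C1 m) * (n + 1) ^ d : ℕ) : ℕ∞) +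
        (((∑ m ∈ Finset.range N.E, C0 m) * (n + 1) ^ d : ℕ) : ℕ∞) := by
        gcongr
        exact hM.trans (he1.trans (by gcongr))
    _ = _ := by push_cast; ring


lemma bound_aux {d : ℕ} {O O' R : Type} [CommRing O] [CommRing O'] [CommRing R] [Algebra O R]
    {π : O →+* O'} (hs : Function.Surjective π) (t : Fin (d + 1) → O)
    (hk : RingHom.ker π = Ideal.span {t 0})
    (hreg : ∀ (q : Fin (d + 1) → ℕ) (a : ℕ) (z : O), a < q 0 → t 0 ^ a * z ∈ PI t q →
      π z ∈ PI (fun j => π (t j.succ)) (fun j => q j.succ))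
    (N : Norm1 O R (t 0)) {k : ℕ} (e : Fin k → N.R') (c₀ : O) (he : LinearIndependent O e)
    (hspan : ∀ x : N.R', c₀ • x ∈ Submodule.span O (Set.range e))
    (a : Ideal R) (m : ℕ) (c' : O) (q : Fin (d + 1) → ℕ)
    (hq : ∀ x ∈ a, (t 0 ^ m * c') • x ∈ PI (fun j => algebraMap O R (t j)) q)
    (s0 : ℕ) (hs0 : s0 + m < q 0) (n : ℕ) (hn : n < N.E)
    (y : N.R') (hy : y ∈ col (a.map (N.ι : R →+* N.R')) (algebraMap O N.R' (t 0) ^ s0)) :
    (c' * c₀) • y ∈ PI (fun j : Fin d => algebraMap O N.R' (t j.succ)) (fun j => q j.succ) ⊔ N.P n := by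
  classical
  have h1 : a.map (N.ι : R →+* N.R') ≤ col (PI (fun j => algebraMap O N.R' (t j)) q)
      (algebraMap O N.R' (t 0 ^ m * c')) := by
    rw [Ideal.map_le_iff_le_comap]
    intro x hx
    rw [Ideal.mem_comap, mem_col]
    have h2 := Ideal.mem_map_of_mem (N.ι : R →+* N.R') (hq x hx)
    rw [map_PI] at h2
    have h3 : (fun j => (N.ι : R →+* N.R') (algebraMap O R (t j))) = fun j => algebraMap O N.R' (t j) := by
      funext j
      exact N.ι.commutes (t j)
    rw [h3] at h2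
    have h4 : (N.ι : R →+* N.R') ((t 0 ^ m * c') • x) = algebraMap O N.R' (t 0 ^ m * c') *
        (N.ι : R →+* N.R') x := by
      rw [Algebra.smul_def, map_mul]
      congr 1
      exact N.ι.commutes _
    rwa [h4] at h2
  have h2 : algebraMap O N.R' (t 0 ^ m * c') * (algebraMap O N.R' (t 0) ^ s0 * y) ∈
      PI (fun j => algebraMap O N.R' (t j)) q := h1 hy
  unfold PI at h2
  rw [Ideal.mem_span_range_iff_exists_fun] at h2
  obtain ⟨yj, hyj⟩ := h2
  -- coordinates
  have hcoord : ∀ x : N.R', ∃ α : Fin k → O, ∑ i, α i • e i = c₀ • x := fun x =>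
    (Submodule.mem_span_range_iff_exists_fun O).1 (hspan x)
  obtain ⟨α, hα⟩ := hcoord y
  choose β hβ using fun j => hcoord (yj j)
  have h5 : ∑ i, (t 0 ^ (s0 + m) * (c' * α i)) • e i = ∑ i, (∑ j, β j i * t j ^ q j) • e i := by
    have h6 : ∑ i, (t 0 ^ (s0 + m) * (c' * α i)) • e i = (t 0 ^ (s0 + m) * c') • (c₀ • y) := by
      rw [← hα, Finset.smul_sum]
      refine Finset.sum_congr rfl fun i _ => ?_
      rw [smul_smul]; congr 1; ring
    have h7 : ∑ i, (∑ j, β j i * t j ^ q j) • e i = ∑ j, t j ^ q j • (c₀ • yj j) := by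
      simp only [← hβ, Finset.smul_sum, Finset.sum_smul, smul_smul]
      rw [Finset.sum_comm]
      refine Finset.sum_congr rfl fun i _ => Finset.sum_congr rfl fun j _ => ?_
      congr 1; ring
    rw [h6, h7]
    have h8 : ∑ j, t j ^ q j • (c₀ • yj j) = c₀ • ∑ j, yj j * algebraMap O N.R' (t j) ^ q j := by
      rw [Finset.smul_sum]
      refine Finset.sum_congr rfl fun j _ => ?_
      rw [Algebra.smul_def, Algebra.smul_def, Algebra.smul_def, map_pow]; ring
    rw [h8, hyj, Algebra.smul_def, Algebra.smul_def, Algebra.smul_def]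
    simp only [map_mul, map_pow]
    ring
  have h6 : ∀ i, t 0 ^ (s0 + m) * (c' * α i) = ∑ j, β j i * t j ^ q j := by
    intro i
    have h7 : ∑ i, (t 0 ^ (s0 + m) * (c' * α i) - ∑ j, β j i * t j ^ q j) • e i = 0 := by
      simp only [sub_smul]
      rw [Finset.sum_sub_distrib, h5, sub_self]
    exact sub_eq_zero.1 (Fintype.linearIndependent_iff.1 he _ h7 i)
  have h7 : ∀ i, algebraMap O N.R' (c' * α i) ∈
      PI (fun j : Fin d => algebraMap O N.R' (t j.succ)) (fun j => q j.succ) ⊔ N.P n := by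
    intro i
    have h8 : t 0 ^ (s0 + m) * (c' * α i) ∈ PI t q := by
      rw [h6 i]
      exact Ideal.sum_mem _ fun j _ => Ideal.mul_mem_left _ _ (Ideal.subset_span ⟨j, rfl⟩)
    have h9 := hreg q (s0 + m) (c' * α i) hs0 h8
    have h10 : c' * α i ∈ PI (fun j : Fin d => t j.succ) (fun j => q j.succ) ⊔ Ideal.span {t 0} := by
      rw [← hk, RingHom.ker_eq_comap_bot, ← Ideal.comap_map_of_surjective π hs, Ideal.mem_comap, map_PI]
      exact h9
    have h11 := Ideal.mem_map_of_mem (algebraMap O N.R') h10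
    rw [Ideal.map_sup, map_PI] at h11
    have h12 : (Ideal.span {t 0}).map (algebraMap O N.R') ≤ N.P n := ?_
    · exact (sup_le_sup_left h12 _) h11
    rw [Ideal.map_span, Set.image_singleton, Ideal.span_singleton_le_iff_mem, ← Ideal.mem_comap,
      N.Pcomap n hn]
    exact Ideal.mem_span_singleton_self _
  rw [mul_smul, ← hα, Finset.smul_sum]
  refine Submodule.sum_mem _ fun i _ => ?_
  rw [smul_smul, Algebra.smul_def]
  exact Ideal.mul_mem_right _ _ (h7 i)

theorem main_flag (p : ℕ) [Fact p.Prime] : ∀ (d : ℕ) (O : Type) [CommRing O] (t : Fin d → O),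
    IsFrame p d O t → ∀ (R : Type) [CommRing R] [IsDomain R] [Algebra O R] [Module.Finite O R],
    Function.Injective (algebraMap O R) → ∀ (Γ : Type) [AddCommMonoid Γ] (sz : Γ → ℕ) (r : ℕ),
    0 < r → ∀ (𝔞 : Γ → Ideal R), (∀ g g', 𝔞 g * 𝔞 g' ≤ 𝔞 (g + g')) →
    (∀ g, TI (fun j => algebraMap O R (t j)) ^ (r * sz g) ≤ 𝔞 g) →
    Nonempty (FlagData O R t sz r 𝔞) := by
  intro d
  induction d with
  | zero =>
    intro O _ t hfr R _ _ _ _ hinj Γ _ sz r hr 𝔞 hmul hpow
    exact flag_zero hfr hinj t sz r 𝔞 hmul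
  | succ d IH =>
    intro O _ t hfrO R _ _ _ _ hinj Γ _ sz r hr 𝔞 hmul hpow
    classical
    have hfrO' := hfrO
    obtain ⟨hdom, hnoeth, hchar, hfin, h0, O', _, π, hs, hk, hreg, hfr⟩ := hfrO'
    have hO' : IsDomain O' := hfr.isDomain
    have hprime : Prime (t 0) := prime_of_ker h0 hk
    have hprimeI : (Ideal.span {t 0}).IsPrime := (Ideal.span_singleton_prime h0).2 hprime
    obtain ⟨N⟩ := exists_norm1 p O R hfin (t 0) h0 hprimeI hinj
    set τ := algebraMap O N.R' (t 0) with hτ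
    let 𝔟 : Γ × ℕ → Ideal N.R' := fun u => col ((𝔞 u.1).map (N.ι : R →+* N.R')) (τ ^ u.2)
    have h𝔟mul : ∀ u v, 𝔟 u * 𝔟 v ≤ 𝔟 (u + v) := by
      rintro ⟨g, a⟩ ⟨g', a'⟩
      rw [Ideal.mul_le]
      intro x hx y hy
      change τ ^ (a + a') * (x * y) ∈ (𝔞 (g + g')).map (N.ι : R →+* N.R')
      have hx' : τ ^ a * x ∈ (𝔞 g).map (N.ι : R →+* N.R') := hx
      have hy' : τ ^ a' * y ∈ (𝔞 g').map (N.ι : R →+* N.R') := hy
      have h1 := Ideal.mul_mem_mul hx' hy'
      rw [← Ideal.map_mul] at h1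
      have h2 := Ideal.map_mono (hmul g g') h1
      have h3 : τ ^ (a + a') * (x * y) = τ ^ a * x * (τ ^ a' * y) := by rw [pow_add]; ring
      rw [h3]; exact h2
    have hmapTI : TI (fun j => algebraMap O N.R' (t j)) =
        (TI (fun j => algebraMap O R (t j))).map (N.ι : R →+* N.R') := by
      rw [map_TI]
      congr 1
      funext j
      exact (N.ι.commutes (t j)).symm
    have h𝔟pow : ∀ u : Γ × ℕ, TI (fun j : Fin d => algebraMap O N.R' (t j.succ)) ^ (r * sz u.1) ≤ 𝔟 u := by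
      rintro ⟨g, a⟩
      have h1 : TI (fun j => algebraMap O N.R' (t j)) ^ (r * sz g) ≤ (𝔞 g).map (N.ι : R →+* N.R') := by
        rw [hmapTI, ← Ideal.map_pow]
        exact Ideal.map_mono (hpow g)
      refine le_trans ?_ (h1.trans (le_col _ _))
      refine Ideal.pow_right_mono ?_ _
      refine Ideal.span_mono ?_
      rintro _ ⟨j, rfl⟩
      exact ⟨j.succ, rfl⟩
    -- apply the induction hypothesis to all primes
    have key : ∀ n, ∃ (ι : Type) (_ : Fintype ι) (S : ι → Set ((Γ × ℕ) × (Fin d → ℕ))) (C : ℕ)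
        (z : ι → N.R') (c : O), n < N.E →
        FlagQ O N.R' (t 0) (fun j : Fin d => t j.succ) (N.P n) (fun u : Γ × ℕ => sz u.1) r 𝔟 ι S C z c := by
      intro n
      by_cases hn : n < N.E
      · obtain ⟨ι, fι, S, C, z, c, h⟩ := flag_quot (O' := O') hs hk (N.P n) (N.Pprime n hn)
          (N.Pcomap n hn) (fun j : Fin d => t j.succ) (fun u : Γ × ℕ => sz u.1) r 𝔟 h𝔟mul h𝔟pow (by
            intro R₁ _ _ _ _ hinj₁ 𝔠 h𝔠mul h𝔠pow
            exact IH O' (fun j => π (t j.succ)) hfr R₁ hinj₁ (Γ × ℕ) (fun u => sz u.1) r hr 𝔠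
              h𝔠mul h𝔠pow)
        exact ⟨ι, fι, S, C, z, c, fun _ => h⟩
      · exact ⟨Empty, inferInstance, fun _ => ∅, 0, fun i => i.elim, 0, fun h => absurd h hn⟩
    choose ι fι S C z c hF using key
    obtain ⟨Z, cR, hcR0, hcR⟩ := N.rank ι z c (fun n hn => (hF n hn).c0) (fun n hn => (hF n hn).L)
    obtain ⟨CL, hCL⟩ := step_len hs t hk hfrO hfr N
    refine ⟨{
      ι := Σ n : Fin N.E, ι n
      S := fun i => {u | ((u.1, u.2 0), fun j => u.2 j.succ) ∈ S i.1 i.2}
      C := CL * (r ^ d) + r * ∑ n ∈ Finset.range N.E, C n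
      z := Z
      c := cR
      c0 := hcR0
      L := hcR
      add := ?_
      base := ?_
      count := ?_
      bound := ?_ }⟩
    · rintro ⟨n, i⟩ u hu v hv
      exact (hF n n.2).add i _ hu _ hv
    · rintro ⟨n, i⟩ g s h
      refine (hF n n.2).base i (g, s 0) (fun j => s j.succ) ?_
      have h1 := Ideal.mem_map_of_mem (N.ι : R →+* N.R') h
      have h2 : (N.ι : R →+* N.R') (algebraMap O R (∏ j, t j ^ s j)) =
          algebraMap O N.R' (∏ j, t j ^ s j) := N.ι.commutes _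
      rw [h2, Fin.prod_univ_succ, map_mul, map_pow] at h1
      exact h1
    · intro g
      set n := r * sz g with hn
      have hTIg : TI (fun j => algebraMap O R (t j)) ^ n ≤ 𝔞 g := hpow g
      have h1 := hCL n (𝔞 g) hTIg
      -- the counting sum
      have h2 : (∑ i : (Σ n : Fin N.E, ι n), cnt (d + 1) n
          {s | (g, s) ∈ {u : Γ × (Fin (d + 1) → ℕ) | ((u.1, u.2 0), fun j => u.2 j.succ) ∈ S i.1 i.2}}) =
          ∑ a ∈ Finset.range n, ∑ m ∈ Finset.range N.E, ∑ i : ι m, cnt d n {s | ((g, a), s) ∈ S m i} := by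
        rw [Fintype.sum_sigma, Finset.sum_comm (s := Finset.range n), Finset.sum_range]
        refine Finset.sum_congr rfl fun m _ => ?_
        rw [Finset.sum_comm]
        refine Finset.sum_congr rfl fun i _ => ?_
        rw [cnt]
        rfl
      rw [h2]
      have h3 : ∀ a ∈ Finset.range n, ∀ m ∈ Finset.range N.E,
          ((sz g + 1 : ℕ) : ℕ∞) * ((∑ i : ι m, cnt d n {s | ((g, a), s) ∈ S m i} : ℕ) : ℕ∞) ≤
          ((sz g + 1 : ℕ) : ℕ∞) * Module.length O (N.R' ⧸ (N.P m ⊔ 𝔟 (g, a))) +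
            ((C m * (sz g + 1) ^ d : ℕ) : ℕ∞) := by
        intro a _ m hm
        exact (hF m (Finset.mem_range.1 hm)).count (g, a)
      have hrn : n + 1 ≤ r * (sz g + 1) := by rw [hn, mul_add, mul_one]; omega
      have hnr : n ≤ r * (sz g + 1) := by omega
      calc ((sz g + 1 : ℕ) : ℕ∞) * ((∑ a ∈ Finset.range n, ∑ m ∈ Finset.range N.E, ∑ i : ι m,
            cnt d n {s | ((g, a), s) ∈ S m i} : ℕ) : ℕ∞)
          = ∑ a ∈ Finset.range n, ∑ m ∈ Finset.range N.E, ((sz g + 1 : ℕ) : ℕ∞) *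
            ((∑ i : ι m, cnt d n {s | ((g, a), s) ∈ S m i} : ℕ) : ℕ∞) := by
            push_cast
            rw [Finset.mul_sum]
            refine Finset.sum_congr rfl fun a _ => ?_
            rw [Finset.mul_sum]
        _ ≤ ∑ a ∈ Finset.range n, ∑ m ∈ Finset.range N.E,
            (((sz g + 1 : ℕ) : ℕ∞) * Module.length O (N.R' ⧸ (N.P m ⊔ 𝔟 (g, a))) +
            ((C m * (sz g + 1) ^ d : ℕ) : ℕ∞)) :=
            Finset.sum_le_sum fun a ha => Finset.sum_le_sum fun m hm => h3 a ha m hm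
        _ = ((sz g + 1 : ℕ) : ℕ∞) * ∑ a ∈ Finset.range n, ∑ m ∈ Finset.range N.E,
            Module.length O (N.R' ⧸ (N.P m ⊔ 𝔟 (g, a))) +
            ((n * ((∑ m ∈ Finset.range N.E, C m) * (sz g + 1) ^ d) : ℕ) : ℕ∞) := by
            simp only [Finset.sum_add_distrib]
            congr 1
            · rw [Finset.mul_sum]
              refine Finset.sum_congr rfl fun a _ => ?_
              rw [Finset.mul_sum]
            · rw [Finset.sum_const, Finset.card_range, nsmul_eq_mul, Finset.sum_mul]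
              push_cast
              rfl
        _ ≤ ((sz g + 1 : ℕ) : ℕ∞) * (Module.length O (R ⧸ 𝔞 g) + ((CL * (n + 1) ^ d : ℕ) : ℕ∞)) +
            ((n * ((∑ m ∈ Finset.range N.E, C m) * (sz g + 1) ^ d) : ℕ) : ℕ∞) := by
            gcongr
        _ = ((sz g + 1 : ℕ) : ℕ∞) * Module.length O (R ⧸ 𝔞 g) +
            (((sz g + 1) * (CL * (n + 1) ^ d) +
              n * ((∑ m ∈ Finset.range N.E, C m) * (sz g + 1) ^ d) : ℕ) : ℕ∞) := by
            push_cast; ring
        _ ≤ _ := by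
            refine add_le_add le_rfl (Nat.cast_le.2 ?_)
            have h5 : (n + 1) ^ d ≤ r ^ d * (sz g + 1) ^ d := by
              rw [← mul_pow]
              exact Nat.pow_le_pow_left hrn d
            calc (sz g + 1) * (CL * (n + 1) ^ d) +
                  n * ((∑ m ∈ Finset.range N.E, C m) * (sz g + 1) ^ d)
                ≤ (sz g + 1) * (CL * (r ^ d * (sz g + 1) ^ d)) +
                  (r * (sz g + 1)) * ((∑ m ∈ Finset.range N.E, C m) * (sz g + 1) ^ d) := by
                  gcongr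
              _ = _ := by ring
    · intro c hc
      obtain ⟨k, e, c₀, hc₀, he, hspan⟩ := N.free
      obtain ⟨m, c', hc', hcc⟩ := WfDvdMonoid.max_power_factor hc hprime.irreducible
      have hcc' : c' * c₀ ∉ Ideal.span {t 0} := by
        intro h
        rcases hprimeI.mem_or_mem h with h | h
        · rw [Ideal.mem_span_singleton] at h
          exact hc' h
        · exact hc₀ h
      have hb : ∀ n, ∃ b : ℕ, n < N.E → ∀ i g s, (g, s) ∈ S n i → ∀ q : Fin d → ℕ,
          (∀ y ∈ 𝔟 g, (c' * c₀) • y ∈ PI (fun j => algebraMap O N.R' (t j.succ)) q ⊔ N.P n) →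
          ∃ j, q j ≤ s j + b := by
        intro n
        by_cases hn : n < N.E
        · obtain ⟨b, hb⟩ := (hF n hn).bound (c' * c₀) hcc'
          exact ⟨b, fun _ => hb⟩
        · exact ⟨0, fun h => absurd h hn⟩
      choose b hb using hb
      refine ⟨m + ∑ n ∈ Finset.range N.E, b n, ?_⟩
      rintro ⟨n, i⟩ g s hgs q hq
      have hbn : b n ≤ ∑ n ∈ Finset.range N.E, b n :=
        Finset.single_le_sum (f := b) (fun _ _ => Nat.zero_le _) (Finset.mem_range.2 n.2)
      by_cases h0q : q 0 ≤ s 0 + m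
      · exact ⟨0, by omega⟩
      · push Not at h0q
        obtain ⟨j, hj⟩ := hb n n.2 i (g, s 0) (fun j => s j.succ) hgs (fun j => q j.succ) (by
          intro y hy
          refine bound_aux hs t hk hreg N e c₀ he hspan (𝔞 g) m c' q ?_ (s 0) h0q n n.2 y hy
          intro x hx
          rw [← hcc]
          exact hq x hx)
        exact ⟨j.succ, by omega⟩

end Pool.Agent.W461.HM
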