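import Mathlib
import Pool.Agent.W461.HM.Flag

set_option autoImplicit false
set_option linter.unusedSectionVars false
set_option linter.unusedVariables false

namespace Pool.Agent.W461.HM

open Finset

lemma pow_sub_aux (y y' : ℝ) (h0 : 0 ≤ y') (h : y' ≤ y) (n : ℕ) :
    y ^ (n + 1) - y' ^ (n + 1) ≤ (n + 1) * (y - y') * y ^ n := by
  induction n with
  | zero => simp
  | succ n ih =>
    have hy : 0 ≤ y := h0.trans h
    have h1 : y' ^ (n + 1) ≤ y ^ (n + 1) := pow_le_pow_left₀ h0 h _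
    have h2 : y ^ (n + 1 + 1) - y' ^ (n + 1 + 1) =
        y * (y ^ (n + 1) - y' ^ (n + 1)) + y' ^ (n + 1) * (y - y') := by ring
    rw [h2]
    calc y * (y ^ (n + 1) - y' ^ (n + 1)) + y' ^ (n + 1) * (y - y')
        ≤ y * ((n + 1) * (y - y') * y ^ n) + y ^ (n + 1) * (y - y') := by
          gcongr
      _ = _ := by push_cast; ring

lemma cnt_mono : ∀ (d N : ℕ) (T T' : Set (Fin d → ℕ)), T ⊆ T' → cnt d N T' ≤ cnt d N T
  | 0, N, T, T', h => by
    unfold cnt
    split_ifs with h1 h2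
    · exact le_rfl
    · exact Nat.zero_le _
    · exact absurd (h ‹_›) h1
    · exact le_rfl
  | d + 1, N, T, T', h => by
    unfold cnt
    refine Finset.sum_le_sum fun a _ => ?_
    exact cnt_mono d N _ _ fun s hs => h hs

/-- telescoping comparison -/
lemma sum_tele (d N : ℕ) (w x : ℝ) (hw : 0 < w) (hx : 0 ≤ x) (hN : x ≤ w * N) :
    x ^ (d + 1) ≤ (d + 1) * w * ∑ a ∈ range N, (if 0 < x - w * a then (x - w * a) ^ d else 0) := by
  have key : ∀ M : ℕ, x ^ (d + 1) - (max (x - w * M) 0) ^ (d + 1) ≤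
      (d + 1) * w * ∑ a ∈ range M, (if 0 < x - w * a then (x - w * a) ^ d else 0) := by
    intro M
    induction M with
    | zero => simp [hx]
    | succ M ih =>
      rw [sum_range_succ, mul_add]
      have h1 : (max (x - w * M) 0) ^ (d + 1) - (max (x - w * ((M + 1 : ℕ) : ℝ)) 0) ^ (d + 1) ≤
          (d + 1) * w * (if 0 < x - w * M then (x - w * M) ^ d else 0) := by
        split_ifs with h
        · have h2 : max (x - w * M) 0 = x - w * M := max_eq_left h.le
          rw [h2]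
          have h3 : max (x - w * ((M + 1 : ℕ) : ℝ)) 0 ≤ x - w * M := by
            apply max_le
            · push_cast; nlinarith
            · exact h.le
          have h4 := pow_sub_aux (x - w * M) (max (x - w * ((M + 1 : ℕ) : ℝ)) 0) (le_max_right _ _) h3 d
          refine h4.trans ?_
          have h5 : x - w * M - max (x - w * ((M + 1 : ℕ) : ℝ)) 0 ≤ w := by
            have := le_max_left (x - w * ((M + 1 : ℕ) : ℝ)) 0
            push_cast at this ⊢
            linarith
          have h6 : 0 ≤ (x - w * M) ^ d := pow_nonneg h.le _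
          gcongr
        · have h2 : max (x - w * M) 0 = 0 := max_eq_right (not_lt.1 h)
          have h3 : max (x - w * ((M + 1 : ℕ) : ℝ)) 0 = 0 := by
            apply max_eq_right
            push_cast
            nlinarith [not_lt.1 h]
          rw [h2, h3]
          simp
      linarith
  have h := key N
  have h2 : max (x - w * N) 0 = 0 := max_eq_right (by linarith)
  rw [h2, zero_pow (Nat.succ_ne_zero d), sub_zero] at h
  exact h

lemma cnt_lower (r : ℕ) (hr : 0 < r) : ∀ (d N : ℕ) (w : Fin d → ℝ), (∀ j, 1 ≤ r * w j) →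
    ∀ x : ℝ, 0 < x → r * x ≤ N →
    x ^ d ≤ (d.factorial : ℝ) * (∏ j, w j) * (cnt d N {s | x ≤ ∑ j, w j * (s j : ℝ)} : ℝ)
  | 0, N, w, hw, x, hx, hN => by
    unfold cnt
    rw [if_neg]
    · simp
    · simp [hx]
  | d + 1, N, w, hw, x, hx, hN => by
    have hr' : (0 : ℝ) < r := by exact_mod_cast hr
    have hwpos : ∀ j, 0 < w j := fun j => by
      have := hw j
      by_contra h
      have : r * w j ≤ 0 := mul_nonpos_of_nonneg_of_nonpos hr'.le (not_lt.1 h)
      linarith [hw j]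
    have hxN : x ≤ w 0 * N := by
      have h1 := hw 0
      have h2 := hwpos 0
      have : x ≤ r * w 0 * x := by nlinarith
      nlinarith
    refine (sum_tele d N (w 0) x (hwpos 0) hx.le hxN).trans ?_
    have hterm : ∀ a ∈ range N, (if 0 < x - w 0 * a then (x - w 0 * a) ^ d else 0) ≤
        (d.factorial : ℝ) * (∏ j : Fin d, w j.succ) *
          (cnt d N {s | (Fin.cons a s : Fin (d + 1) → ℕ) ∈ {s | x ≤ ∑ j, w j * (s j : ℝ)}} : ℝ) := by
      intro a _
      have hset : {s | (Fin.cons a s : Fin (d + 1) → ℕ) ∈ {s | x ≤ ∑ j, w j * (s j : ℝ)}} =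
          {s : Fin d → ℕ | x - w 0 * a ≤ ∑ j : Fin d, w j.succ * (s j : ℝ)} := by
        ext s
        simp only [Set.mem_ofPred_eq, Fin.sum_univ_succ, Fin.cons_zero, Fin.cons_succ]
        constructor <;> intro h <;> linarith
      rw [hset]
      split_ifs with h
      · refine cnt_lower r hr d N (fun j => w j.succ) (fun j => hw j.succ) _ h ?_
        have : 0 ≤ w 0 * (a : ℝ) := mul_nonneg (hwpos 0).le (Nat.cast_nonneg _)
        nlinarith
      · have : 0 ≤ ∏ j : Fin d, w j.succ := prod_nonneg fun j _ => (hwpos _).le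
        positivity
    calc ((d : ℝ) + 1) * w 0 * ∑ a ∈ range N, (if 0 < x - w 0 * a then (x - w 0 * a) ^ d else 0)
        ≤ ((d : ℝ) + 1) * w 0 * ∑ a ∈ range N, (d.factorial : ℝ) * (∏ j : Fin d, w j.succ) *
          (cnt d N {s | (Fin.cons a s : Fin (d + 1) → ℕ) ∈ {s | x ≤ ∑ j, w j * (s j : ℝ)}} : ℝ) := by
          have := (hwpos 0).le
          gcongr with a ha
          exact hterm a ha
      _ = _ := by
          rw [cnt]
          rw [← mul_sum, Nat.factorial_succ, Fin.prod_univ_succ]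
          push_cast
          ring

lemma amgm (d : ℕ) (hd : 0 < d) (w : Fin d → ℝ) (hw : ∀ j, 0 ≤ w j) :
    ∏ j, w j ≤ ((∑ j, w j) / d) ^ d := by
  have hd' : (0 : ℝ) < d := by exact_mod_cast hd
  have h := Real.geom_mean_le_arith_mean_weighted (univ : Finset (Fin d)) (fun _ => (1 : ℝ) / d) w
    (fun _ _ => by positivity) (by simp; field_simp) (fun j _ => hw j)
  have h1 : (∏ j, w j ^ ((1 : ℝ) / d)) ^ d = ∏ j, w j := by
    rw [← prod_pow]
    refine prod_congr rfl fun j _ => ?_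
    rw [← Real.rpow_natCast, ← Real.rpow_mul (hw j)]
    rw [one_div, inv_mul_cancel₀ hd'.ne', Real.rpow_one]
  rw [← h1]
  have h2 : ∑ j, (1 : ℝ) / d * w j = (∑ j, w j) / d := by
    rw [← mul_sum]; ring
  rw [h2] at h
  exact pow_le_pow_left₀ (prod_nonneg fun j _ => Real.rpow_nonneg (hw j) _) h d


/-- the convex set of an additive set -/
def UU {d : ℕ} (S : Set (ℕ × (Fin d → ℕ))) : Set (Fin d → ℝ) :=
  {x | ∃ m s, (m, s) ∈ S ∧ 0 < m ∧ ∀ j, (s j : ℝ) < m * x j}

lemma UU_open {d : ℕ} (S : Set (ℕ × (Fin d → ℕ))) : IsOpen (UU S) := by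
  have : UU S = ⋃ (m : ℕ) (s : Fin d → ℕ) (_ : (m, s) ∈ S) (_ : 0 < m),
      ⋂ j, {x : Fin d → ℝ | (s j : ℝ) < m * x j} := by
    ext x
    simp [UU]
    constructor
    · rintro ⟨m, s, h1, h2, h3⟩
      exact ⟨m, h2, s, h1, h3⟩
    · rintro ⟨m, h2, s, h1, h3⟩
      exact ⟨m, s, h1, h2, h3⟩
  rw [this]
  refine isOpen_iUnion fun m => isOpen_iUnion fun s => isOpen_iUnion fun _ => isOpen_iUnion fun _ => ?_
  refine isOpen_iInter_of_finite fun j => ?_
  exact isOpen_lt continuous_const (continuous_const.mul (continuous_apply j))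

lemma nsmul_mem_of_add {M : Type*} [AddCommMonoid M] (S : Set M) (hadd : ∀ u ∈ S, ∀ v ∈ S, u + v ∈ S)
    (u : M) (hu : u ∈ S) (k : ℕ) (hk : 0 < k) : k • u ∈ S := by
  induction k with
  | zero => omega
  | succ k ih =>
    by_cases h : k = 0
    · subst h; simpa using hu
    · rw [succ_nsmul]; exact hadd _ (ih (by omega)) _ hu

lemma UU_convex {d : ℕ} (S : Set (ℕ × (Fin d → ℕ))) (hadd : ∀ u ∈ S, ∀ v ∈ S, u + v ∈ S) :
    Convex ℝ (UU S) := by
  rw [convex_iff_forall_pos]
  rintro x ⟨m, s, hms, hm, hx⟩ y ⟨m', s', hms', hm', hy⟩ a b ha hb hab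
  have hmr : (0 : ℝ) < m := by exact_mod_cast hm
  have hmr' : (0 : ℝ) < m' := by exact_mod_cast hm'
  -- the open set of admissible parameters
  let T : Set ℝ := {l | 0 < l ∧ l < 1 ∧ ∀ j, l * (s j / m) + (1 - l) * (s' j / m') < a * x j + b * y j}
  have hTo : IsOpen T := by
    have : T = {l | 0 < l} ∩ {l | l < 1} ∩ ⋂ j, {l : ℝ | l * (s j / m) + (1 - l) * (s' j / m') < a * x j + b * y j} := by
      ext l; simp [T, and_assoc]
    rw [this]
    refine ((isOpen_lt continuous_const continuous_id).inter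
      (isOpen_lt continuous_id continuous_const)).inter (isOpen_iInter_of_finite fun j => ?_)
    exact isOpen_lt (by fun_prop) continuous_const
  have haT : a ∈ T := by
    refine ⟨ha, by linarith, fun j => ?_⟩
    have h1 : (s j : ℝ) / m < x j := by
      rw [div_lt_iff₀ hmr]; linarith [hx j]
    have h2 : (s' j : ℝ) / m' < y j := by
      rw [div_lt_iff₀ hmr']; linarith [hy j]
    have h3 : 1 - a = b := by linarith
    rw [h3]
    nlinarith
  obtain ⟨l, hl0, hl1, hl⟩ := Rat.denseRange_cast.exists_mem_open hTo ⟨a, haT⟩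
  -- write `l = P / N`
  have hlq0 : 0 < l := by exact_mod_cast hl0
  have hlq1 : l < 1 := by exact_mod_cast hl1
  obtain ⟨P, N, hP, hN, hPN, hlPN⟩ : ∃ P N : ℕ, 0 < P ∧ 0 < N ∧ P < N ∧ (l : ℝ) = P / N := by
    refine ⟨l.num.toNat, l.den, ?_, l.pos, ?_, ?_⟩
    · have := Rat.num_pos.2 hlq0; omega
    · have h1 := Rat.num_pos.2 hlq0
      have h2 : l.num < l.den := by
        rw [Rat.lt_iff] at hlq1
        simpa using hlq1
      omega
    · have h1 := Rat.num_pos.2 hlq0
      have h3 : ((l.num.toNat : ℕ) : ℝ) = (l.num : ℝ) := by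
        rw [← Int.cast_natCast, Int.toNat_of_nonneg h1.le]
      rw [h3]
      exact_mod_cast (Rat.num_div_den l).symm
  have hNr : (0 : ℝ) < N := by exact_mod_cast hN
  refine ⟨(P * m') * m + ((N - P) * m) * m', (P * m') • s + ((N - P) * m) • s', ?_, ?_, ?_⟩
  · have h1 := nsmul_mem_of_add S hadd _ hms (P * m') (Nat.mul_pos hP hm')
    have h2 := nsmul_mem_of_add S hadd _ hms' ((N - P) * m) (Nat.mul_pos (by omega) hm)
    have h3 := hadd _ h1 _ h2
    simpa using h3
  · positivity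
  · intro j
    have hsub : ((N - P : ℕ) : ℝ) = N - P := by
      rw [Nat.cast_sub hPN.le]
    have h4 := hl j
    have h5 : ((((P * m') • s + ((N - P) * m) • s') j : ℕ) : ℝ) =
        (N * m * m') * ((l : ℝ) * (s j / m) + (1 - l) * (s' j / m')) := by
      simp only [Pi.add_apply, Pi.smul_apply, smul_eq_mul]
      push_cast
      rw [hsub, hlPN]
      field_simp
    have h6 : ((((P * m') * m + ((N - P) * m) * m' : ℕ) : ℝ)) = N * m * m' := by
      push_cast
      rw [hsub]; ring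
    rw [h5, h6]
    have h7 : (0 : ℝ) < N * m * m' := by positivity
    simp only [Pi.add_apply, Pi.smul_apply, smul_eq_mul]
    exact mul_lt_mul_of_pos_left h4 h7

theorem exists_weight (d : ℕ) (hd : 0 < d) (r : ℕ) (hr : 0 < r) (S : Set (ℕ × (Fin d → ℕ)))
    (hadd : ∀ u ∈ S, ∀ v ∈ S, u + v ∈ S) (hunit : ∀ j, (1, Pi.single j r) ∈ S)
    (D : ℝ) (hD : 0 < D)
    (hbound : ∀ m s, (m, s) ∈ S → 0 < m → ∃ j, (m : ℝ) ≤ D * s j) :
    ∃ w : Fin d → ℝ, (∀ j, 1 ≤ r * w j) ∧ ∑ j, w j = D ∧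
      ∀ m s, (m, s) ∈ S → 0 < m → (m : ℝ) ≤ ∑ j, w j * s j := by
  classical
  have hp : (fun _ : Fin d => 1 / D) ∉ UU S := by
    rintro ⟨m, s, hms, hm, hlt⟩
    obtain ⟨j, hj⟩ := hbound m s hms hm
    have := hlt j
    have h1 : (m : ℝ) * (1 / D) * D = m := by field_simp
    nlinarith
  obtain ⟨f, hf⟩ := geometric_hahn_banach_open_point (UU_convex S hadd) (UU_open S) hp
  set v : Fin d → ℝ := fun j => - f (Pi.single j 1) with hv
  have hfx : ∀ x : Fin d → ℝ, f x = - ∑ j, v j * x j := by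
    intro x
    have h1 : x = ∑ j, x j • (Pi.single j (1 : ℝ) : Fin d → ℝ) := by
      simpa using (pi_eq_sum_univ' x)
    conv_lhs => rw [h1]
    rw [map_sum, ← sum_neg_distrib]
    refine sum_congr rfl fun j _ => ?_
    rw [map_smul, smul_eq_mul, hv]
    ring
  have hsep : ∀ x ∈ UU S, (∑ j, v j) / D < ∑ j, v j * x j := by
    intro x hx
    have h1 := hf x hx
    rw [hfx x, hfx] at h1
    have h2 : ∑ j, v j * (1 / D) = (∑ j, v j) / D := by
      rw [← sum_mul]; ring
    rw [h2] at h1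
    linarith
  -- upward closed
  have hup : ∀ x ∈ UU S, ∀ y : Fin d → ℝ, (∀ j, 0 ≤ y j) → x + y ∈ UU S := by
    rintro x ⟨m, s, hms, hm, hlt⟩ y hy
    refine ⟨m, s, hms, hm, fun j => ?_⟩
    have h1 := hlt j
    have hmr : (0 : ℝ) < m := by exact_mod_cast hm
    have h2 := hy j
    simp only [Pi.add_apply]
    nlinarith
  -- a point of U
  have hpt : ∀ m s, (m, s) ∈ S → 0 < m → ∀ δ : ℝ, 0 < δ → (fun j => (s j : ℝ) / m + δ) ∈ UU S := by
    intro m s hms hm δ hδ
    refine ⟨m, s, hms, hm, fun j => ?_⟩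
    have hmr : (0 : ℝ) < m := by exact_mod_cast hm
    have : (m : ℝ) * (s j / m + δ) = s j + m * δ := by field_simp
    rw [this]
    have : 0 < (m : ℝ) * δ := by positivity
    linarith
  obtain ⟨x₀, hx₀⟩ : ∃ x : Fin d → ℝ, x ∈ UU S := ⟨_, hpt 1 _ (hunit ⟨0, hd⟩) one_pos 1 one_pos⟩
  have hv0 : ∀ j, 0 ≤ v j := by
    intro j
    by_contra hneg
    push Not at hneg
    -- move far in direction j
    set A := ∑ i, v i * x₀ i - (∑ i, v i) / D with hA
    have hA0 : 0 < A := by have := hsep x₀ hx₀; linarith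
    have h1 := hsep _ (hup x₀ hx₀ (Pi.single j (A / (- v j))) (by
      intro i
      by_cases hij : i = j
      · subst hij
        rw [Pi.single_eq_same]
        have : 0 < - v i := by linarith
        positivity
      · rw [Pi.single_eq_of_ne hij]))
    have h2 : ∑ i, v i * (x₀ + Pi.single j (A / (- v j)) : Fin d → ℝ) i = ∑ i, v i * x₀ i + v j * (A / (- v j)) := by
      simp only [Pi.add_apply, mul_add]
      rw [sum_add_distrib]
      congr 1
      rw [Finset.sum_eq_single j]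
      · rw [Pi.single_eq_same]
      · intro i _ hij
        rw [Pi.single_eq_of_ne hij, mul_zero]
      · simp
    have h3 : v j * (A / (- v j)) = - A := by
      have : v j ≠ 0 := by linarith
      field_simp
    rw [h2, h3] at h1
    linarith
  set V := ∑ j, v j with hV
  have hVpos : 0 < V := by
    have h1 : 0 ≤ V := sum_nonneg fun j _ => hv0 j
    rcases h1.lt_or_eq with h | h
    · exact h
    · exfalso
      have h2 : ∀ j, v j = 0 := by
        intro j
        have h3 := (sum_eq_zero_iff_of_nonneg (fun i _ => hv0 i)).1 (hV.symm.trans h.symm)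
        exact h3 j (mem_univ j)
      have h4 := hsep x₀ hx₀
      rw [← h] at h4
      simp [h2] at h4
  have hmain : ∀ m s, (m, s) ∈ S → 0 < m → (m : ℝ) ≤ ∑ j, (v j * D / V) * s j := by
    intro m s hms hm
    have hmr : (0 : ℝ) < m := by exact_mod_cast hm
    have h1 : V / D ≤ ∑ j, v j * (s j / m) := by
      refine le_of_forall_pos_le_add fun ε hε => ?_
      have h2 := hsep _ (hpt m s hms hm (ε / V) (by positivity))
      have h3 : ∑ j, v j * ((s j : ℝ) / m + ε / V) = ∑ j, v j * (s j / m) + ε := by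
        simp only [mul_add]
        rw [sum_add_distrib, ← sum_mul, ← hV]
        congr 1
        field_simp
      rw [h3] at h2
      exact h2.le
    have h4 : ∑ j, v j * ((s j : ℝ) / m) = (∑ j, v j * s j) / m := by
      rw [sum_div]
      refine sum_congr rfl fun j _ => by ring
    rw [h4, div_le_div_iff₀ hD hmr] at h1
    have h5 : ∑ j, (v j * D / V) * (s j : ℝ) = (∑ j, v j * s j) * D / V := by
      rw [sum_mul, sum_div]
      refine sum_congr rfl fun j _ => by ring
    rw [h5, le_div_iff₀ hVpos]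
    linarith
  refine ⟨fun j => v j * D / V, ?_, ?_, hmain⟩
  · intro j
    have h1 := hmain 1 _ (hunit j) one_pos
    have h2 : ∑ i, (v i * D / V) * ((Pi.single j r : Fin d → ℕ) i : ℝ) = (v j * D / V) * r := by
      rw [Finset.sum_eq_single j]
      · rw [Pi.single_eq_same]
      · intro i _ hij
        rw [Pi.single_eq_of_ne hij, Nat.cast_zero, mul_zero]
      · simp
    rw [h2] at h1
    push_cast at h1
    linarith
  · rw [← sum_div, ← sum_mul, ← hV]
    field_simp

theorem convex_count (d : ℕ) (hd : 0 < d) (r : ℕ) (hr : 0 < r) (S : Set (ℕ × (Fin d → ℕ)))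
    (hadd : ∀ u ∈ S, ∀ v ∈ S, u + v ∈ S) (hunit : ∀ j, (1, Pi.single j r) ∈ S)
    (D : ℝ) (hD : 0 < D)
    (hbound : ∀ m s, (m, s) ∈ S → 0 < m → ∃ j, (m : ℝ) ≤ D * s j) (m : ℕ) :
    ((d : ℝ) / D) ^ d * (m : ℝ) ^ d ≤ (d.factorial : ℝ) * (cnt d (r * m) {s | (m, s) ∈ S} : ℝ) := by
  rcases Nat.eq_zero_or_pos m with hm | hm
  · subst hm
    rw [Nat.cast_zero, zero_pow hd.ne', mul_zero]
    positivity
  obtain ⟨w, hw1, hw2, hw3⟩ := exists_weight d hd r hr S hadd hunit D hD hbound
  have hr' : (0 : ℝ) < r := by exact_mod_cast hr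
  have hmr : (0 : ℝ) < m := by exact_mod_cast hm
  have hwpos : ∀ j, 0 < w j := fun j => by
    by_contra h
    have : r * w j ≤ 0 := mul_nonpos_of_nonneg_of_nonpos hr'.le (not_lt.1 h)
    linarith [hw1 j]
  have h1 := cnt_lower r hr d (r * m) w hw1 m hmr (by push_cast; exact le_rfl)
  have h2 : cnt d (r * m) {s | (m : ℝ) ≤ ∑ j, w j * (s j : ℝ)} ≤ cnt d (r * m) {s | (m, s) ∈ S} :=
    cnt_mono _ _ _ _ fun s hs => hw3 m s hs hm
  have h3 : (cnt d (r * m) {s | (m : ℝ) ≤ ∑ j, w j * (s j : ℝ)} : ℝ) ≤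
      (cnt d (r * m) {s | (m, s) ∈ S} : ℝ) := by exact_mod_cast h2
  have h4 : ∏ j, w j ≤ (D / d) ^ d := by
    have := amgm d hd w fun j => (hwpos j).le
    rwa [hw2] at this
  have hd' : (0 : ℝ) < d := by exact_mod_cast hd
  have hprod : 0 < ∏ j, w j := prod_pos fun j _ => hwpos j
  have h5 : (m : ℝ) ^ d ≤ (d.factorial : ℝ) * (D / d) ^ d *
      (cnt d (r * m) {s | (m, s) ∈ S} : ℝ) := by
    refine h1.trans ?_
    gcongr
  have h6 : ((d : ℝ) / D) ^ d * (D / d) ^ d = 1 := by
    rw [← mul_pow]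
    have : (d : ℝ) / D * (D / d) = 1 := by field_simp
    rw [this, one_pow]
  calc ((d : ℝ) / D) ^ d * (m : ℝ) ^ d
      ≤ ((d : ℝ) / D) ^ d * ((d.factorial : ℝ) * (D / d) ^ d *
      (cnt d (r * m) {s | (m, s) ∈ S} : ℝ)) := by gcongr
    _ = (((d : ℝ) / D) ^ d * (D / d) ^ d) * ((d.factorial : ℝ) *
      (cnt d (r * m) {s | (m, s) ∈ S} : ℝ)) := by ring
    _ = _ := by rw [h6, one_mul]

end Pool.Agent.W461.HM
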