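import Mathlib
import Pool.Agent.W461.HM.Convex

set_option autoImplicit false
set_option linter.unusedSectionVars false
set_option linter.unusedVariables false
set_option linter.style.haveILetI false

namespace Pool.Agent.W461.HM

open Finset

/-- upper bound for the lengths of the quotients by powers of the parameter ideal -/
lemma len_upper {p d : ℕ} {O R : Type} [CommRing O] [CommRing R] [Algebra O R] [Module.Finite O R]
    (t : Fin d → O) (hfr : IsFrame p d O t) {ι : Type} [Fintype ι] (z : ι → R) (c : O) (hc : c ≠ 0)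
    (hz : ∀ x : R, c • x ∈ Submodule.span O (Set.range z)) :
    ∃ C : ℕ, ∀ n : ℕ, ((n + 1 : ℕ) : ℕ∞) *
      Module.length O (R ⧸ TI (fun j => algebraMap O R (t j)) ^ n) ≤
      ((n + 1 : ℕ) : ℕ∞) * ((Fintype.card ι : ℕ) * ((n + d - 1).choose d : ℕ)) +
        ((C * (n + 1) ^ d : ℕ) : ℕ∞) := by
  classical
  obtain ⟨k, f, hf⟩ := exists_fg_map O R
  obtain ⟨C, hC⟩ := len_tors hfr c hc
  refine ⟨k * C, fun n => ?_⟩
  set A : Ideal R := TI (fun j => algebraMap O R (t j)) ^ n with hA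
  rw [← len_rs (O := O) A, len_quot_sup (A.restrictScalars O) (Submodule.span O (Set.range z)),
    mul_add]
  refine add_le_add ?_ ?_
  · refine mul_le_mul_right ?_ _
    let g0 : (ι → O) →ₗ[O] R := Fintype.linearCombination O z
    let g : (ι → O) →ₗ[O] (R ⧸ A.restrictScalars O) := (Submodule.mkQ _) ∘ₗ g0
    have h1 : LinearMap.range ((A.restrictScalars O).mkQ ∘ₗ
        (Submodule.span O (Set.range z)).subtype) = LinearMap.range g := by
      rw [LinearMap.range_comp, LinearMap.range_comp, Submodule.range_subtype,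
        Fintype.range_linearCombination]
    rw [h1]
    let q : (ι → O) →ₗ[O] (ι → O ⧸ (TI t ^ n)) :=
      LinearMap.pi fun i => (Submodule.mkQ (TI t ^ n)) ∘ₗ LinearMap.proj i
    have hq : Function.Surjective q := by
      intro y
      choose x hx using fun i => Submodule.mkQ_surjective (TI t ^ n) (y i)
      exact ⟨x, funext fun i => hx i⟩
    have hker : LinearMap.ker q ≤ LinearMap.ker g := by
      intro x hx
      have hx' : ∀ i, x i ∈ TI t ^ n := by
        intro i
        have : q x i = 0 := by rw [LinearMap.mem_ker.1 hx]; rfl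
        exact (Submodule.Quotient.mk_eq_zero _).1 this
      rw [LinearMap.mem_ker]
      change (Submodule.Quotient.mk (g0 x) : R ⧸ (A.restrictScalars O)) = 0
      rw [Submodule.Quotient.mk_eq_zero]
      change g0 x ∈ A
      have : g0 x = ∑ i, x i • z i := rfl
      rw [this]
      exact Ideal.sum_mem _ fun i _ => TI_act t n A le_rfl (x i) (hx' i) (z i)
    have h2 := len_range_le_of_ker_le q g hker
    rw [LinearMap.range_eq_top.2 hq, Module.length_top] at h2
    refine h2.trans ?_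
    rw [Module.length_pi_of_fintype]
    simp only [sum_const, card_univ, nsmul_eq_mul]
    gcongr
    exact len_frame hfr n
  · have h1 := len_gen f hf (Ideal.span {c} ⊔ TI t ^ n)
      (A.restrictScalars O ⊔ Submodule.span O (Set.range z)) (by
        have h2 : Ideal.span {c} ⊔ TI t ^ n ≤
            (A.restrictScalars O ⊔ Submodule.span O (Set.range z)).colon (Set.univ : Set R) := by
          refine sup_le ?_ ?_
          · rw [Ideal.span_singleton_le_iff_mem, Submodule.mem_colon]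
            intro y _
            exact Submodule.mem_sup_right (hz y)
          · intro u hu
            rw [Submodule.mem_colon]
            intro y _
            refine (Submodule.mem_sup_left ?_)
            exact TI_act t n A le_rfl u hu y
        intro a ha y
        exact Submodule.mem_colon.1 (h2 ha) y trivial)
    calc _ ≤ ((n + 1 : ℕ) : ℕ∞) * ((k : ℕ∞) * Module.length O (O ⧸ (Ideal.span {c} ⊔ TI t ^ n))) := by
          gcongr
      _ = (k : ℕ∞) * (((n + 1 : ℕ) : ℕ∞) * Module.length O (O ⧸ (Ideal.span {c} ⊔ TI t ^ n))) := by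
          ring
      _ ≤ (k : ℕ∞) * ((C * (n + 1) ^ d : ℕ) : ℕ∞) := by
          gcongr
          exact hC n
      _ = _ := by push_cast; ring

/-- the additive sets satisfy the hypothesis of the convexity argument -/
lemma bound_of_flag {p : ℕ} [hp : Fact p.Prime] {d : ℕ} {O R : Type} [CommRing O] [CommRing R]
    [Algebra O R] (t : Fin d → O) (𝔟 : Ideal R) (S : Set (ℕ × (Fin d → ℕ)))
    (hadd : ∀ u ∈ S, ∀ v ∈ S, u + v ∈ S)
    (D : ℝ) (hD : 0 < D)
    (hF : ∀ᶠ e : ℕ in Filter.atTop, ∃ n : ℕ, (n : ℝ) ≤ D * (p : ℝ) ^ e ∧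
      𝔟 ^ n ≤ PI (fun j => algebraMap O R (t j)) (fun _ => p ^ e))
    (b : ℕ) (hb : ∀ g s, (g, s) ∈ S → ∀ q : Fin d → ℕ,
      (∀ x ∈ 𝔟 ^ g, (1 : O) • x ∈ PI (fun j => algebraMap O R (t j)) q) → ∃ j, q j ≤ s j + b)
    (m : ℕ) (s : Fin d → ℕ) (hms : (m, s) ∈ S) (hm : 0 < m) : ∃ j, (m : ℝ) ≤ D * s j := by
  by_contra hcon
  push Not at hcon
  have hmr : (0 : ℝ) < m := by exact_mod_cast hm
  have h1 : ∀ j, ∀ᶠ e : ℕ in Filter.atTop, (m : ℝ) * (s j + b) < (p : ℝ) ^ e * (m - D * s j) := by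
    intro j
    have hpos : 0 < (m : ℝ) - D * s j := by linarith [hcon j]
    have ht : Filter.Tendsto (fun e : ℕ => (p : ℝ) ^ e) Filter.atTop Filter.atTop :=
      tendsto_pow_atTop_atTop_of_one_lt (by exact_mod_cast hp.out.one_lt)
    exact (ht.atTop_mul_const hpos).eventually_gt_atTop _
  obtain ⟨e, ⟨n, hn1, hn2⟩, he⟩ := (hF.and (Filter.eventually_all.2 h1)).exists
  -- multiple
  set k := n / m + 1 with hk
  have hkm : n ≤ k * m := by
    have := Nat.lt_div_mul_add (a := n) (b := m) hm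
    rw [hk, add_mul, one_mul]; omega
  have hkm2 : k * m ≤ n + m := by
    have := Nat.div_mul_le_self n m
    rw [hk, add_mul, one_mul]; omega
  have hmem : (k * m, fun j => k * s j) ∈ S := by
    have := nsmul_mem_of_add S hadd _ hms k (Nat.succ_pos _)
    exact this
  obtain ⟨j, hj⟩ := hb _ _ hmem (fun _ => p ^ e) (by
    intro x hx
    rw [one_smul]
    exact hn2 (Ideal.pow_le_pow_right hkm hx))
  have hj' : ((p : ℝ) ^ e) ≤ k * s j + b := by exact_mod_cast hj
  have hkm2' : (k : ℝ) * m ≤ n + m := by exact_mod_cast hkm2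
  have h2 := he j
  have hs : (0 : ℝ) ≤ s j := Nat.cast_nonneg _
  have h3 : (p : ℝ) ^ e * m ≤ (k * m) * s j + b * m := by nlinarith
  have h4 : ((k : ℝ) * m) * s j ≤ (D * (p : ℝ) ^ e + m) * s j := by
    apply mul_le_mul_of_nonneg_right _ hs
    linarith
  nlinarith

theorem domain_case (p : ℕ) [hp : Fact p.Prime] (d : ℕ) (O R : Type) [CommRing O] [CommRing R]
    [IsDomain R] [Algebra O R] [Module.Finite O R] (t : Fin (d + 1) → O)
    (hfr : IsFrame p (d + 1) O t) (hinj : Function.Injective (algebraMap O R)) (𝔟 : Ideal R) (r : ℕ)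
    (hr : 0 < r) (hTI : TI (fun j => algebraMap O R (t j)) ^ r ≤ 𝔟) (D : ℝ) (hD : 0 < D)
    (hF : ∀ᶠ e : ℕ in Filter.atTop, ∃ n : ℕ, (n : ℝ) ≤ D * (p : ℝ) ^ e ∧
      𝔟 ^ n ≤ PI (fun j => algebraMap O R (t j)) (fun _ => p ^ e)) :
    ∃ L C : ℕ, (∀ m : ℕ, ENNReal.ofReal ((((d + 1 : ℕ) : ℝ) / D) ^ (d + 1) / ((d + 1).factorial : ℝ) *
        L * (m : ℝ) ^ (d + 1)) ≤ ((Module.length O (R ⧸ 𝔟 ^ m) : ℕ∞) : ENNReal) +
          ((C * (m + 1) ^ d : ℕ) : ENNReal)) ∧
      ∀ n : ℕ, Module.length O (R ⧸ TI (fun j => algebraMap O R (t j)) ^ n) ≤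
        ((L * (n + d).choose (d + 1) + C * (n + 1) ^ d : ℕ) : ℕ∞) := by
  classical
  obtain ⟨F⟩ := main_flag p (d + 1) O t hfr R hinj ℕ (fun n => n) r hr (fun m => 𝔟 ^ m)
    (fun g g' => by rw [pow_add]) (fun g => by rw [pow_mul]; exact Ideal.pow_right_mono hTI g)
  letI := F.fι
  obtain ⟨C', hC'⟩ := len_upper t hfr F.z F.c F.c0 F.L
  obtain ⟨b, hb⟩ := F.bound 1 (by
    have := hfr.isDomain
    exact one_ne_zero)
  refine ⟨Fintype.card F.ι, F.C + C', fun m => ?_, fun n => ?_⟩
  · have hcnt : ∀ i, (((d + 1 : ℕ) : ℝ) / D) ^ (d + 1) * (m : ℝ) ^ (d + 1) ≤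
        ((d + 1).factorial : ℝ) * (cnt (d + 1) (r * m) {s | (m, s) ∈ F.S i} : ℝ) := by
      intro i
      refine convex_count (d + 1) (Nat.succ_pos d) r hr (F.S i) (F.add i) ?_ D hD ?_ m
      · intro j
        refine F.base i 1 _ ?_
        rw [pow_one]
        have h1 : ∏ j', t j' ^ (Pi.single j r : Fin (d + 1) → ℕ) j' = t j ^ r := by
          rw [Finset.prod_eq_single j]
          · rw [Pi.single_eq_same]
          · intro i _ hij
            rw [Pi.single_eq_of_ne hij, pow_zero]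
          · simp
        rw [h1, map_pow]
        exact hTI (pow_mem_TI (fun j => algebraMap O R (t j)) j r)
      · intro m s hms hm
        exact bound_of_flag t 𝔟 (F.S i) (F.add i) D hD hF b (fun g s h q hq => hb i g s h q hq) m s hms hm
    have hsum : (((d + 1 : ℕ) : ℝ) / D) ^ (d + 1) / ((d + 1).factorial : ℝ) *
        (Fintype.card F.ι : ℝ) * (m : ℝ) ^ (d + 1) ≤
        ((∑ i, cnt (d + 1) (r * m) {s | (m, s) ∈ F.S i} : ℕ) : ℝ) := by
      have hfac : (0 : ℝ) < ((d + 1).factorial : ℝ) := by exact_mod_cast Nat.factorial_pos _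
      have h1 : ∀ i, (((d + 1 : ℕ) : ℝ) / D) ^ (d + 1) / ((d + 1).factorial : ℝ) * (m : ℝ) ^ (d + 1) ≤
          (cnt (d + 1) (r * m) {s | (m, s) ∈ F.S i} : ℝ) := by
        intro i
        rw [div_mul_eq_mul_div, div_le_iff₀ hfac]
        linarith [hcnt i]
      push_cast
      refine le_trans (le_of_eq ?_) (sum_le_sum fun i _ => h1 i)
      rw [sum_const, card_univ, nsmul_eq_mul]
      push_cast
      ring
    have hlen : ((∑ i, cnt (d + 1) (r * m) {s | (m, s) ∈ F.S i} : ℕ) : ℕ∞) ≤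
        Module.length O (R ⧸ 𝔟 ^ m) + ((F.C * (m + 1) ^ d : ℕ) : ℕ∞) := by
      apply enat_cancel m
      refine (F.count m).trans (le_of_eq ?_)
      rw [mul_add]
      congr 1
      push_cast; ring
    calc _ ≤ ENNReal.ofReal ((∑ i, cnt (d + 1) (r * m) {s | (m, s) ∈ F.S i} : ℕ) : ℝ) :=
          ENNReal.ofReal_le_ofReal hsum
      _ = ((∑ i, cnt (d + 1) (r * m) {s | (m, s) ∈ F.S i} : ℕ) : ENNReal) := ENNReal.ofReal_natCast _
      _ = (((∑ i, cnt (d + 1) (r * m) {s | (m, s) ∈ F.S i} : ℕ) : ℕ∞) : ENNReal) :=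
          (ENat.toENNReal_coe _).symm
      _ ≤ ((Module.length O (R ⧸ 𝔟 ^ m) + ((F.C * (m + 1) ^ d : ℕ) : ℕ∞) : ℕ∞) : ENNReal) :=
          ENat.toENNReal_le.2 hlen
      _ = ((Module.length O (R ⧸ 𝔟 ^ m) : ℕ∞) : ENNReal) + ((F.C * (m + 1) ^ d : ℕ) : ENNReal) := by
          rw [ENat.toENNReal_add]
          congr 1
      _ ≤ _ := by
          gcongr
          exact Nat.le_add_right _ _
  · apply enat_cancel n
    refine (hC' n).trans ?_
    have : n + (d + 1) - 1 = n + d := by omega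
    rw [this]
    have h2 : ((n + 1 : ℕ) : ℕ∞) * ((Fintype.card F.ι : ℕ) * ((n + d).choose (d + 1) : ℕ)) +
        ((C' * (n + 1) ^ (d + 1) : ℕ) : ℕ∞) =
        (((n + 1) * (Fintype.card F.ι * (n + d).choose (d + 1) + C' * (n + 1) ^ d) : ℕ) : ℕ∞) := by
      push_cast; ring
    rw [h2, ← Nat.cast_mul, Nat.cast_le]
    gcongr
    exact Nat.le_add_left _ _

end Pool.Agent.W461.HM
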