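import Mathlib
import Pool.Agent.W461.HM.Domain

set_option autoImplicit false
set_option linter.unusedSectionVars false
set_option linter.unusedVariables false
set_option linter.style.haveILetI false

namespace Pool.Agent.W461.HM

open Finset

lemma len_exact {O N₁ N₂ N₃ : Type*} [CommRing O] [AddCommGroup N₁] [Module O N₁]
    [AddCommGroup N₂] [Module O N₂] [AddCommGroup N₃] [Module O N₃]
    (f : N₁ →ₗ[O] N₂) (g : N₂ →ₗ[O] N₃) (hg : Function.Surjective g) (hfg : Function.Exact f g)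
    (A : Submodule O N₂) :
    Module.length O (N₂ ⧸ A) = Module.length O (N₁ ⧸ A.comap f) +
      Module.length O (N₃ ⧸ A.map g) := by
  refine Module.length_eq_add_of_exact (Submodule.mapQ (A.comap f) A f le_rfl)
    (Submodule.mapQ A (A.map g) g (Submodule.le_comap_map g A)) ?_ ?_ ?_
  · rw [← LinearMap.ker_eq_bot, Submodule.ker_mapQ]
    rw [eq_bot_iff]
    rintro _ ⟨x, hx, rfl⟩
    rw [Submodule.mem_bot, Submodule.mkQ_apply, Submodule.Quotient.mk_eq_zero]
    exact hx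
  · intro y
    obtain ⟨y, rfl⟩ := Submodule.mkQ_surjective _ y
    obtain ⟨x, rfl⟩ := hg y
    exact ⟨Submodule.Quotient.mk x, rfl⟩
  · intro y
    obtain ⟨y, rfl⟩ := Submodule.mkQ_surjective _ y
    constructor
    · intro h
      have h1 : (Submodule.Quotient.mk (g y) : N₃ ⧸ A.map g) = 0 := h
      rw [Submodule.Quotient.mk_eq_zero] at h1
      obtain ⟨a, ha, hag⟩ := h1
      have h2 : g (y - a) = 0 := by rw [map_sub, hag, sub_self]
      obtain ⟨x, hx⟩ := (hfg _).1 h2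
      refine ⟨Submodule.Quotient.mk x, ?_⟩
      change (Submodule.Quotient.mk (f x) : N₂ ⧸ A) = Submodule.Quotient.mk y
      rw [Submodule.Quotient.eq, hx]
      have : y - a - y = - a := by abel
      rw [this]
      exact A.neg_mem ha
    · rintro ⟨x, hx⟩
      obtain ⟨x, rfl⟩ := Submodule.mkQ_surjective _ x
      have h1 : (Submodule.Quotient.mk (f x) : N₂ ⧸ A) = Submodule.Quotient.mk y := hx
      rw [Submodule.Quotient.eq] at h1
      change (Submodule.Quotient.mk (g y) : N₃ ⧸ A.map g) = 0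
      rw [Submodule.Quotient.mk_eq_zero]
      have h2 : g y = - g (f x - y) := by
        rw [map_sub, (hfg _).2 ⟨x, rfl⟩, zero_sub, neg_neg]
      rw [h2]
      exact Submodule.neg_mem _ ⟨_, h1, rfl⟩

lemma len_rs' {O B N : Type*} [CommRing O] [CommRing B] [Algebra O B] [AddCommGroup N] [Module B N]
    [Module O N] [IsScalarTower O B N] (A : Submodule B N) :
    Module.length O (N ⧸ A.restrictScalars O) = Module.length O (N ⧸ A) :=
  (Submodule.Quotient.restrictScalarsEquiv O A).length_eq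

/-- the property of modules used in the devissage -/
def QQ (O B : Type) [CommRing O] [CommRing B] [Algebra O B] (d : ℕ) (β : ℝ) (𝔟 J : Ideal B)
    (M : Type) [AddCommGroup M] [Module B M] : Prop :=
  ∀ [Module O M] [IsScalarTower O B M], ∃ L C : ℕ,
    (∀ m : ℕ, ENNReal.ofReal (β * L * (m : ℝ) ^ (d + 1)) ≤
      ((Module.length O (M ⧸ (𝔟 ^ m • (⊤ : Submodule B M))) : ℕ∞) : ENNReal) +
        ((C * (m + 1) ^ d : ℕ) : ENNReal)) ∧
    ∀ n : ℕ, Module.length O (M ⧸ (J ^ n • (⊤ : Submodule B M))) ≤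
      ((L * (n + d).choose (d + 1) + C * (n + 1) ^ d : ℕ) : ℕ∞)

lemma QQ_exact {O B : Type} [CommRing O] [CommRing B] [IsNoetherianRing B] [Algebra O B] (d : ℕ)
    (β : ℝ) (hβ : 0 ≤ β) (𝔟 J : Ideal B) (N₁ N₂ N₃ : Type) [AddCommGroup N₁] [Module B N₁]
    [AddCommGroup N₂] [Module B N₂] [AddCommGroup N₃] [Module B N₃] [Module.Finite B N₂]
    (f : N₁ →ₗ[B] N₂) (g : N₂ →ₗ[B] N₃) (hf : Function.Injective f) (hg : Function.Surjective g)
    (hfg : Function.Exact f g) (h1 : QQ O B d β 𝔟 J N₁) (h3 : QQ O B d β 𝔟 J N₃) :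
    QQ O B d β 𝔟 J N₂ := by
  intro _ _
  letI : Module O N₁ := Module.compHom N₁ (algebraMap O B)
  letI : Module O N₃ := Module.compHom N₃ (algebraMap O B)
  haveI : IsScalarTower O B N₁ := ⟨fun a b x => by
    rw [Algebra.smul_def, mul_smul]; rfl⟩
  haveI : IsScalarTower O B N₃ := ⟨fun a b x => by
    rw [Algebra.smul_def, mul_smul]; rfl⟩
  obtain ⟨L1, C1, hl1, hu1⟩ := h1
  obtain ⟨L3, C3, hl3, hu3⟩ := h3
  -- Artin-Rees
  obtain ⟨k, hk⟩ := Ideal.exists_pow_inf_eq_pow_smul 𝔟 (LinearMap.range f)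
  have hAR : ∀ m, (𝔟 ^ m • (⊤ : Submodule B N₂)).comap f ≤ 𝔟 ^ (m - k) • (⊤ : Submodule B N₁) := by
    intro m x hx
    by_cases hm : k ≤ m
    · have h4 : f x ∈ 𝔟 ^ m • (⊤ : Submodule B N₂) ⊓ LinearMap.range f := ⟨hx, ⟨x, rfl⟩⟩
      rw [hk m hm] at h4
      have h5 : 𝔟 ^ (m - k) • (𝔟 ^ k • (⊤ : Submodule B N₂) ⊓ LinearMap.range f) ≤
          (𝔟 ^ (m - k) • (⊤ : Submodule B N₁)).map f := by
        rw [Submodule.map_smul'', Submodule.map_top]
        exact Submodule.smul_mono le_rfl inf_le_right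
      obtain ⟨y, hy, hyx⟩ := h5 h4
      rwa [← hf hyx]
    · have : m - k = 0 := by omega
      rw [this, pow_zero, Ideal.one_eq_top, Submodule.top_smul]
      trivial
  have hmap : ∀ I : Ideal B, (I • (⊤ : Submodule B N₂)).map g = I • (⊤ : Submodule B N₃) := by
    intro I
    rw [Submodule.map_smul'', Submodule.map_top, LinearMap.range_eq_top.2 hg]
  have hex : ∀ A : Submodule B N₂, Module.length O (N₂ ⧸ A) = Module.length O (N₁ ⧸ A.comap f) +
      Module.length O (N₃ ⧸ A.map g) := by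
    intro A
    have := len_exact (f.restrictScalars O) (g.restrictScalars O) hg hfg (A.restrictScalars O)
    rw [len_rs'] at this
    rw [this, ← len_rs' (O := O) (A.comap f), ← len_rs' (O := O) (A.map g)]
    rfl
  have hanti : ∀ {A A' : Submodule B N₁}, A ≤ A' →
      Module.length O (N₁ ⧸ A') ≤ Module.length O (N₁ ⧸ A) := by
    intro A A' h
    rw [← len_rs' (O := O) A, ← len_rs' (O := O) A']
    exact len_quot_anti (A := A.restrictScalars O) (B := A'.restrictScalars O) h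
  refine ⟨L1 + L3, C1 + C3 + ⌈β * L1 * (d + 1) * k⌉₊, fun m => ?_, fun n => ?_⟩
  · rw [hex, hmap]
    have h4 : Module.length O (N₁ ⧸ (𝔟 ^ (m - k) • (⊤ : Submodule B N₁))) ≤
        Module.length O (N₁ ⧸ (𝔟 ^ m • (⊤ : Submodule B N₂)).comap f) := hanti (hAR m)
    set X1 := β * L1 * ((m - k : ℕ) : ℝ) ^ (d + 1) with hX1
    set X2 := β * L1 * (d + 1) * k * (m : ℝ) ^ d with hX2
    set X3 := β * L3 * (m : ℝ) ^ (d + 1) with hX3
    have h5 : β * ((L1 + L3 : ℕ) : ℝ) * (m : ℝ) ^ (d + 1) ≤ X1 + X2 + X3 := by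
      have h6 := pow_sub_aux (m : ℝ) ((m - k : ℕ) : ℝ) (Nat.cast_nonneg _)
        (by exact_mod_cast Nat.sub_le m k) d
      have h7 : (m : ℝ) - ((m - k : ℕ) : ℝ) ≤ k := by
        have : m ≤ (m - k) + k := by omega
        have : (m : ℝ) ≤ ((m - k : ℕ) : ℝ) + k := by exact_mod_cast this
        linarith
      have h8 : (m : ℝ) ^ (d + 1) - ((m - k : ℕ) : ℝ) ^ (d + 1) ≤ (d + 1) * k * (m : ℝ) ^ d := by
        refine h6.trans ?_
        gcongr
      have h9 : 0 ≤ β * L1 := by positivity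
      have h10 := mul_le_mul_of_nonneg_left h8 h9
      rw [hX1, hX2, hX3]
      push_cast
      linarith
    have h6 : ENNReal.ofReal X2 ≤ ((⌈β * L1 * (d + 1) * k⌉₊ * (m + 1) ^ d : ℕ) : ENNReal) := by
      rw [← ENNReal.ofReal_natCast]
      apply ENNReal.ofReal_le_ofReal
      rw [hX2]
      push_cast
      have h7 := Nat.le_ceil (β * L1 * (d + 1) * k)
      gcongr
      linarith
    calc ENNReal.ofReal (β * ((L1 + L3 : ℕ) : ℝ) * (m : ℝ) ^ (d + 1))
        ≤ ENNReal.ofReal (X1 + X2 + X3) := ENNReal.ofReal_le_ofReal h5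
      _ ≤ ENNReal.ofReal X1 + ENNReal.ofReal X2 + ENNReal.ofReal X3 :=
          ENNReal.ofReal_add_le.trans (add_le_add ENNReal.ofReal_add_le le_rfl)
      _ ≤ (((Module.length O (N₁ ⧸ (𝔟 ^ (m - k) • (⊤ : Submodule B N₁))) : ℕ∞) : ENNReal) +
          ((C1 * (m - k + 1) ^ d : ℕ) : ENNReal)) +
          ((⌈β * L1 * (d + 1) * k⌉₊ * (m + 1) ^ d : ℕ) : ENNReal) +
          (((Module.length O (N₃ ⧸ (𝔟 ^ m • (⊤ : Submodule B N₃))) : ℕ∞) : ENNReal) +
          ((C3 * (m + 1) ^ d : ℕ) : ENNReal)) :=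
          add_le_add (add_le_add (hl1 _) h6) (hl3 m)
      _ ≤ (((Module.length O (N₁ ⧸ (𝔟 ^ m • (⊤ : Submodule B N₂)).comap f) : ℕ∞) : ENNReal) +
          ((C1 * (m + 1) ^ d : ℕ) : ENNReal)) +
          ((⌈β * L1 * (d + 1) * k⌉₊ * (m + 1) ^ d : ℕ) : ENNReal) +
          (((Module.length O (N₃ ⧸ (𝔟 ^ m • (⊤ : Submodule B N₃))) : ℕ∞) : ENNReal) +
          ((C3 * (m + 1) ^ d : ℕ) : ENNReal)) := by
          have h7 : ((C1 * (m - k + 1) ^ d : ℕ) : ENNReal) ≤ ((C1 * (m + 1) ^ d : ℕ) : ENNReal) := by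
            rw [Nat.cast_le]
            gcongr
            exact Nat.sub_le _ _
          have h8 := ENat.toENNReal_le.2 h4
          gcongr
      _ = _ := by
          rw [ENat.toENNReal_add]
          push_cast
          ring
  · rw [hex, hmap]
    have h4 : Module.length O (N₁ ⧸ (J ^ n • (⊤ : Submodule B N₂)).comap f) ≤
        Module.length O (N₁ ⧸ (J ^ n • (⊤ : Submodule B N₁))) := by
      refine hanti ?_
      rw [Submodule.smul_le]
      intro a ha x _
      rw [Submodule.mem_comap, map_smul]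
      exact Submodule.smul_mem_smul ha trivial
    refine (add_le_add (h4.trans (hu1 n)) (hu3 n)).trans ?_
    rw [← Nat.cast_add, Nat.cast_le]
    nlinarith [Nat.zero_le (⌈β * L1 * (d + 1) * k⌉₊ * (n + 1) ^ d)]


lemma QQ_quot (p : ℕ) [hp : Fact p.Prime] {O B : Type} [CommRing O] [CommRing B] [Algebra O B]
    [Module.Finite O B] (d : ℕ) (t : Fin (d + 1) → O) (hfr : IsFrame p (d + 1) O t) (𝔟 : Ideal B)
    (r : ℕ) (hr : 0 < r) (hTI : TI (fun j => algebraMap O B (t j)) ^ r ≤ 𝔟) (D : ℝ) (hD : 0 < D)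
    (hF : ∀ᶠ e : ℕ in Filter.atTop, ∃ n : ℕ, (n : ℝ) ≤ D * (p : ℝ) ^ e ∧
      𝔟 ^ n ≤ PI (fun j => algebraMap O B (t j)) (fun _ => p ^ e))
    (P : Ideal B) (hP : P.IsPrime) (N : Type) [AddCommGroup N] [Module B N] (e : N ≃ₗ[B] B ⧸ P) :
    QQ O B d ((((d + 1 : ℕ) : ℝ) / D) ^ (d + 1) / ((d + 1).factorial : ℝ)) 𝔟
      (TI (fun j => algebraMap O B (t j))) N := by
  intro _ _
  -- transfer to `B ⧸ P`
  have htr : ∀ I : Ideal B, Module.length O (N ⧸ (I • (⊤ : Submodule B N))) =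
      Module.length O ((B ⧸ P) ⧸ I.map (Ideal.Quotient.mk P)) := by
    intro I
    have h1 : (I • (⊤ : Submodule B N)).map (e : N →ₗ[B] B ⧸ P) =
        (I.map (algebraMap B (B ⧸ P))).restrictScalars B := by
      rw [Submodule.map_smul'', Submodule.map_top, LinearEquiv.range, Ideal.smul_top_eq_map]
    have e1 : (N ⧸ (I • (⊤ : Submodule B N))) ≃ₗ[B]
        ((B ⧸ P) ⧸ (I.map (algebraMap B (B ⧸ P))).restrictScalars B) :=
      Submodule.Quotient.equiv _ _ e h1
    rw [(e1.restrictScalars O).length_eq]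
    have e2 : ((B ⧸ P) ⧸ (I.map (algebraMap B (B ⧸ P))).restrictScalars B) ≃ₗ[B]
      ((B ⧸ P) ⧸ (I.map (algebraMap B (B ⧸ P)))) :=
      Submodule.Quotient.restrictScalarsEquiv B _
    rw [(e2.restrictScalars O).length_eq]
    rfl
  haveI : IsDomain (B ⧸ P) := Ideal.Quotient.isDomain P
  have hmapt : ∀ j, algebraMap O (B ⧸ P) (t j) = Ideal.Quotient.mk P (algebraMap O B (t j)) :=
    fun j => rfl
  have hTImap : (TI (fun j => algebraMap O B (t j))).map (Ideal.Quotient.mk P) =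
      TI (fun j => algebraMap O (B ⧸ P) (t j)) := by
    rw [map_TI]
    rfl
  by_cases hinj : Function.Injective (algebraMap O (B ⧸ P))
  · obtain ⟨L, C, h1, h2⟩ := domain_case p d O (B ⧸ P) t hfr hinj (𝔟.map (Ideal.Quotient.mk P)) r hr
      (by
        rw [← hTImap, ← Ideal.map_pow]
        exact Ideal.map_mono hTI) D hD (by
        filter_upwards [hF] with e ⟨n, hn1, hn2⟩
        refine ⟨n, hn1, ?_⟩
        have := Ideal.map_mono (f := Ideal.Quotient.mk P) hn2
        rw [Ideal.map_pow, map_PI] at this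
        exact this)
    refine ⟨L, C, fun m => ?_, fun n => ?_⟩
    · rw [htr, Ideal.map_pow]
      exact h1 m
    · rw [htr, Ideal.map_pow, hTImap]
      exact h2 n
  · -- torsion case
    rw [injective_iff_map_eq_zero] at hinj
    push Not at hinj
    obtain ⟨c, hc0, hc⟩ := hinj
    obtain ⟨k, f, hf⟩ := exists_fg_map O (B ⧸ P)
    obtain ⟨C, hC⟩ := len_tors hfr c hc
    refine ⟨0, k * C, fun m => ?_, fun n => ?_⟩
    · simp
    · rw [htr, Ideal.map_pow, hTImap]
      apply enat_cancel n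
      have h1 := len_gen f hf (Ideal.span {c} ⊔ TI t ^ n)
        ((TI (fun j => algebraMap O (B ⧸ P) (t j)) ^ n).restrictScalars O) (by
          have h2 : Ideal.span {c} ⊔ TI t ^ n ≤
              ((TI (fun j => algebraMap O (B ⧸ P) (t j)) ^ n).restrictScalars O).colon
                (Set.univ : Set (B ⧸ P)) := by
            refine sup_le ?_ ?_
            · rw [Ideal.span_singleton_le_iff_mem, Submodule.mem_colon]
              intro y _
              rw [Algebra.smul_def, hc0, zero_mul]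
              exact Submodule.zero_mem _
            · intro u hu
              rw [Submodule.mem_colon]
              intro y _
              exact TI_act t n _ le_rfl u hu y
          intro a ha y
          exact Submodule.mem_colon.1 (h2 ha) y trivial)
      rw [len_rs] at h1
      calc _ ≤ ((n + 1 : ℕ) : ℕ∞) * ((k : ℕ∞) * Module.length O (O ⧸ (Ideal.span {c} ⊔ TI t ^ n))) := by
            gcongr
        _ = (k : ℕ∞) * (((n + 1 : ℕ) : ℕ∞) * Module.length O (O ⧸ (Ideal.span {c} ⊔ TI t ^ n))) := by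
            ring
        _ ≤ (k : ℕ∞) * ((C * (n + 1) ^ (d + 1) : ℕ) : ℕ∞) := by
            gcongr
            exact hC n
        _ = _ := by push_cast; ring

theorem mainB (p : ℕ) [hp : Fact p.Prime] {O B : Type} [CommRing O] [CommRing B] [Algebra O B]
    [Module.Finite O B] (d : ℕ) (t : Fin (d + 1) → O) (hfr : IsFrame p (d + 1) O t) (𝔟 : Ideal B)
    (r : ℕ) (hr : 0 < r) (hTI : TI (fun j => algebraMap O B (t j)) ^ r ≤ 𝔟) (D : ℝ) (hD : 0 < D)
    (hF : ∀ᶠ e : ℕ in Filter.atTop, ∃ n : ℕ, (n : ℝ) ≤ D * (p : ℝ) ^ e ∧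
      𝔟 ^ n ≤ PI (fun j => algebraMap O B (t j)) (fun _ => p ^ e)) :
    ∃ L C : ℕ, (∀ m : ℕ, ENNReal.ofReal ((((d + 1 : ℕ) : ℝ) / D) ^ (d + 1) / ((d + 1).factorial : ℝ) *
        L * (m : ℝ) ^ (d + 1)) ≤ ((Module.length O (B ⧸ 𝔟 ^ m) : ℕ∞) : ENNReal) +
          ((C * (m + 1) ^ d : ℕ) : ENNReal)) ∧
      ∀ n : ℕ, Module.length O (B ⧸ TI (fun j => algebraMap O B (t j)) ^ n) ≤
        ((L * (n + d).choose (d + 1) + C * (n + 1) ^ d : ℕ) : ℕ∞) := by
  have hnO : IsNoetherianRing O := hfr.isNoetherianRing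
  have hnB : IsNoetherianRing B :=
    isNoetherianRing_iff.mpr (isNoetherian_of_tower O
      (isNoetherian_of_isNoetherianRing_of_finite O B))
  set β := (((d + 1 : ℕ) : ℝ) / D) ^ (d + 1) / ((d + 1).factorial : ℝ) with hβ
  have hβ0 : 0 ≤ β := by positivity
  have key : QQ O B d β 𝔟 (TI (fun j => algebraMap O B (t j))) B := by
    refine IsNoetherianRing.induction_on_isQuotientEquivQuotientPrime B
      (motive := fun N _ _ _ => QQ O B d β 𝔟 (TI (fun j => algebraMap O B (t j))) N)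
      (inferInstance : Module.Finite B B) ?_ ?_ ?_
    · intro N _ _ _ _ _ _
      refine ⟨0, 0, fun m => by simp, fun n => ?_⟩
      have : Module.length O (N ⧸ ((TI (fun j => algebraMap O B (t j))) ^ n • (⊤ : Submodule B N))) = 0 :=
        Module.length_eq_zero
      rw [this]
      exact zero_le
    · intro N _ _ _ P e
      exact QQ_quot p d t hfr 𝔟 r hr hTI D hD hF P.1 P.2 N e
    · intro N₁ _ _ _ N₂ _ _ _ N₃ _ _ _ f g hf hg hfg h1 h3
      exact QQ_exact d β hβ0 𝔟 _ N₁ N₂ N₃ f g hf hg hfg h1 h3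
  obtain ⟨L, C, h1, h2⟩ := key
  refine ⟨L, C, fun m => ?_, fun n => ?_⟩
  · have := h1 m
    rwa [smul_eq_mul, Ideal.mul_top] at this
  · have := h2 n
    rwa [smul_eq_mul, Ideal.mul_top] at this

end Pool.Agent.W461.HM
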