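import Mathlib

set_option autoImplicit false
set_option linter.unusedSectionVars false
set_option linter.unusedVariables false
set_option linter.style.haveILetI false

namespace Pool.Agent.W461.HM

open IsLocalRing

section cq

variable {A : Type} [CommRing A] (𝔫 : Ideal A)

lemma mem_map_of_eval_eq_zero (hfg : 𝔫.FG) (n : ℕ) (b : AdicCompletion 𝔫 A)
    (hb : AdicCompletion.evalₐ 𝔫 n b = 0) :
    b ∈ (𝔫 ^ n).map (algebraMap A (AdicCompletion 𝔫 A)) := by
  have h1 : AdicCompletion.eval 𝔫 A n b = 0 := by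
    have h2 := AdicCompletion.factor_evalₐ_eq_eval 𝔫 b (n := n) (by simp)
    rw [← h2, hb, map_zero]
  have h3 : b ∈ LinearMap.ker (AdicCompletion.eval 𝔫 A n) := h1
  rw [← AdicCompletion.pow_smul_top_eq_ker_eval hfg, Ideal.smul_top_eq_map] at h3
  exact h3

lemma cq_injective (I : Ideal A) (n : ℕ) (hI : 𝔫 ^ n ≤ I) (a : A)
    (ha : algebraMap A (AdicCompletion 𝔫 A) a ∈ I.map (algebraMap A (AdicCompletion 𝔫 A))) :
    a ∈ I := by
  let ev : AdicCompletion 𝔫 A →+* A ⧸ I :=
    (Ideal.Quotient.factor hI).comp (AdicCompletion.evalₐ 𝔫 n : AdicCompletion 𝔫 A →+* A ⧸ 𝔫 ^ n)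
  have hev : ∀ a : A, ev (algebraMap A (AdicCompletion 𝔫 A) a) = Ideal.Quotient.mk I a := by
    intro a
    change Ideal.Quotient.factor hI (AdicCompletion.evalₐ 𝔫 n (algebraMap A _ a)) = _
    rw [AlgHom.commutes]
    rfl
  have h1 : I.map (algebraMap A (AdicCompletion 𝔫 A)) ≤ RingHom.ker ev := by
    rw [Ideal.map_le_iff_le_comap]
    intro x hx
    rw [Ideal.mem_comap, RingHom.mem_ker, hev]
    exact Ideal.Quotient.eq_zero_iff_mem.2 hx
  have h2 := h1 ha
  rw [RingHom.mem_ker, hev] at h2
  exact Ideal.Quotient.eq_zero_iff_mem.1 h2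

lemma cq_surjective (hfg : 𝔫.FG) (I : Ideal A) (n : ℕ) (hI : 𝔫 ^ n ≤ I) (b : AdicCompletion 𝔫 A) :
    ∃ a : A, b - algebraMap A (AdicCompletion 𝔫 A) a ∈
      I.map (algebraMap A (AdicCompletion 𝔫 A)) := by
  obtain ⟨a, ha⟩ := Ideal.Quotient.mk_surjective (AdicCompletion.evalₐ 𝔫 n b)
  refine ⟨a, Ideal.map_mono hI (mem_map_of_eval_eq_zero 𝔫 hfg n _ ?_)⟩
  rw [map_sub, AlgHom.commutes, sub_eq_zero, ← ha]
  rfl

/-- the quotients of the completion -/
noncomputable def cqEquiv (hfg : 𝔫.FG) (I : Ideal A) (n : ℕ) (hI : 𝔫 ^ n ≤ I) :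
    (A ⧸ I) ≃ₗ[A] (AdicCompletion 𝔫 A ⧸ I.map (algebraMap A (AdicCompletion 𝔫 A))) := by
  let f : A →ₗ[A] (AdicCompletion 𝔫 A ⧸ I.map (algebraMap A (AdicCompletion 𝔫 A))) :=
    Algebra.linearMap A _
  have hf : Function.Surjective f := by
    intro y
    obtain ⟨y, rfl⟩ := Ideal.Quotient.mk_surjective y
    obtain ⟨a, ha⟩ := cq_surjective 𝔫 hfg I n hI y
    refine ⟨a, ?_⟩
    change Ideal.Quotient.mk (I.map (algebraMap A (AdicCompletion 𝔫 A)))
      (algebraMap A (AdicCompletion 𝔫 A) a) = _
    rw [eq_comm, Ideal.Quotient.eq]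
    exact ha
  have hker : LinearMap.ker f = I := by
    ext a
    rw [LinearMap.mem_ker]
    constructor
    · intro h
      have h1 : Ideal.Quotient.mk (I.map (algebraMap A (AdicCompletion 𝔫 A)))
        (algebraMap A (AdicCompletion 𝔫 A) a) = 0 := h
      exact cq_injective 𝔫 I n hI a (Ideal.Quotient.eq_zero_iff_mem.1 h1)
    · intro h
      change Ideal.Quotient.mk (I.map (algebraMap A (AdicCompletion 𝔫 A)))
        (algebraMap A (AdicCompletion 𝔫 A) a) = 0
      exact Ideal.Quotient.eq_zero_iff_mem.2 (Ideal.mem_map_of_mem _ h)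
  exact (Submodule.quotEquivOfEq _ _ hker.symm).trans (f.quotKerEquivOfSurjective hf)

end cq

/-- lengths over a local ring with residue field equal to a coefficient field -/
theorem length_eq_of_residue {F S M : Type} [Field F] [CommRing S] [IsLocalRing S] [Algebra F S]
    (h : ∀ s : S, ∃ a : F, s - algebraMap F S a ∈ maximalIdeal S) [AddCommGroup M] [Module S M]
    [Module F M] [IsScalarTower F S M] : Module.length F M = Module.length S M := by
  have hloc : IsLocalHom (algebraMap F S) := inferInstance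
  rw [IsLocalRing.length_restrictScalars F S M]
  have h1 : Module.length (ResidueField F) (ResidueField S) = 1 := by
    have hs : Function.Surjective (algebraMap (ResidueField F) (ResidueField S)) := by
      intro y
      obtain ⟨s, rfl⟩ := IsLocalRing.residue_surjective y
      obtain ⟨a, ha⟩ := h s
      refine ⟨residue F a, ?_⟩
      change residue S (algebraMap F S a) = residue S s
      rw [eq_comm, ← sub_eq_zero, ← map_sub]
      exact Ideal.Quotient.eq_zero_iff_mem.2 ha
    have h2 : Module.length (ResidueField F) (ResidueField S) =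
      Module.length (ResidueField S) (ResidueField S) := Module.length_eq_of_surjective hs
    rw [h2]
    exact Module.length_eq_one _ _
  rw [h1, mul_one]

end Pool.Agent.W461.HM
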