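import Mathlib
import Pool.Agent.W461.HM.Frame
import Pool.Agent.W461.HM.Struct

set_option autoImplicit false
set_option linter.unusedSectionVars false
set_option linter.unusedVariables false
set_option linter.style.haveILetI false

namespace Pool.Agent.W461.HM

open PowerSeries in
lemma coeff_pow_char {S : Type} [CommRing S] (p : ℕ) [hp : Fact p.Prime] [CharP S p]
    (f : PowerSeries S) (n : ℕ) :
    PowerSeries.coeff n (f ^ p) = if p ∣ n then (PowerSeries.coeff (n / p) f) ^ p else 0 := by
  have hp0 : p ≠ 0 := hp.out.ne_zero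
  haveI : ExpChar S p := ExpChar.prime hp.out
  have h1 : PowerSeries.map (frobenius S p) (PowerSeries.expand p hp0 f) = f ^ p :=
    MvPowerSeries.map_frobenius_expand (σ := Unit) p hp0 (f := f)
  rw [← h1, PowerSeries.coeff_map, PowerSeries.coeff_expand]
  split_ifs with h
  · rfl
  · exact map_zero _

lemma FF.powerSeries {p : ℕ} [hp : Fact p.Prime] {S : Type} [CommRing S] [CharP S p]
    (h : FF p S) : FF p (PowerSeries S) := by
  classical
  obtain ⟨n, g, hg⟩ := h
  have hpos : 0 < p := hp.out.pos
  refine ⟨p * n, fun k => PowerSeries.X ^ ((finProdFinEquiv.symm k).1 : ℕ) *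
    PowerSeries.C (g (finProdFinEquiv.symm k).2), fun f => ?_⟩
  choose a ha using hg
  refine ⟨fun k => PowerSeries.mk fun m => a (PowerSeries.coeff (p * m + (finProdFinEquiv.symm k).1) f)
    (finProdFinEquiv.symm k).2, ?_⟩
  rw [← finProdFinEquiv.sum_comp, Fintype.sum_prod_type]
  simp only [Equiv.symm_apply_apply]
  ext N
  rw [map_sum]
  have hterm : ∀ i : Fin p, PowerSeries.coeff N (∑ j : Fin n, PowerSeries.X ^ (i : ℕ) *
      PowerSeries.C (g j) * (PowerSeries.mk fun m => a (PowerSeries.coeff (p * m + i) f) j) ^ p) =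
      if (i : ℕ) = N % p then PowerSeries.coeff N f else 0 := by
    intro i
    rw [map_sum]
    have h1 : ∀ j : Fin n, PowerSeries.coeff N (PowerSeries.X ^ (i : ℕ) * PowerSeries.C (g j) *
        (PowerSeries.mk fun m => a (PowerSeries.coeff (p * m + i) f) j) ^ p) =
        if (i : ℕ) = N % p then g j * (a (PowerSeries.coeff N f) j) ^ p else 0 := by
      intro j
      rw [mul_assoc, PowerSeries.coeff_X_pow_mul', PowerSeries.coeff_C_mul, coeff_pow_char]
      have hi := i.2
      by_cases hiN : (i : ℕ) = N % p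
      · have hle : (i : ℕ) ≤ N := by rw [hiN]; exact Nat.mod_le _ _
        have hd : N - (i : ℕ) = p * (N / p) := by
          have := Nat.div_add_mod N p
          omega
        rw [if_pos hle, if_pos hiN, if_pos ⟨_, hd⟩, hd, Nat.mul_div_cancel_left _ hpos,
          PowerSeries.coeff_mk]
        have h2 : p * (N / p) + (i : ℕ) = N := by omega
        rw [h2]
      · rw [if_neg hiN]
        split_ifs with hle hdvd
        · exfalso
          apply hiN
          obtain ⟨q, hq⟩ := hdvd
          have hN : N = p * q + i := by omega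
          rw [hN, Nat.mul_add_mod, Nat.mod_eq_of_lt hi]
        · rw [mul_zero]
        · rfl
    rw [Finset.sum_congr rfl fun j _ => h1 j]
    split_ifs with h
    · exact (ha _).symm
    · simp
  rw [Finset.sum_congr rfl fun i _ => hterm i]
  have hlt : N % p < p := Nat.mod_lt _ hpos
  rw [Finset.sum_eq_single (⟨N % p, hlt⟩ : Fin p)]
  · simp
  · intro i _ hi
    rw [if_neg]
    intro h
    exact hi (Fin.ext h)
  · simp

lemma FF.ringEquiv {p : ℕ} {S T : Type} [CommRing S] [CommRing T] (e : S ≃+* T) (h : FF p S) :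
    FF p T := by
  obtain ⟨n, g, hg⟩ := h
  refine ⟨n, fun i => e (g i), fun x => ?_⟩
  obtain ⟨a, ha⟩ := hg (e.symm x)
  refine ⟨fun i => e (a i), ?_⟩
  have := congrArg e ha
  rw [e.apply_symm_apply, map_sum] at this
  rw [this]
  refine Finset.sum_congr rfl fun i _ => ?_
  rw [map_mul, map_pow]

lemma FF_mvPowerSeries (p : ℕ) [hp : Fact p.Prime] (κ : Type) [Field κ] [CharP κ p]
    [PerfectRing κ p] (d : ℕ) : FF p (MvPowerSeries (Fin d) κ) := by
  induction d with
  | zero =>
    have h0 : FF p κ := by
      refine ⟨1, fun _ => 1, fun x => ?_⟩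
      obtain ⟨a, ha⟩ := (PerfectRing.bijective_frobenius (R := κ) (p := p)).2 x
      exact ⟨fun _ => a, by simpa [frobenius_def] using ha.symm⟩
    exact h0.ringEquiv (MvPowerSeries.isEmptyEquiv (Fin 0) κ).toRingEquiv.symm
  | succ d ih =>
    haveI : CharP (MvPowerSeries (Fin d) κ) p :=
      charP_of_injective_algebraMap (algebraMap κ (MvPowerSeries (Fin d) κ)).injective p
    exact ih.powerSeries.ringEquiv (MvPowerSeries.finSuccEquiv κ d).toRingEquiv.symm

theorem frame_mvPowerSeries (p : ℕ) [hp : Fact p.Prime] (κ : Type) [Field κ] [CharP κ p]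
    [PerfectRing κ p] : ∀ d : ℕ, IsFrame p d (MvPowerSeries (Fin d) κ) MvPowerSeries.X
  | 0 => by
    refine MulEquiv.isField (Field.toIsField κ) (MvPowerSeries.isEmptyEquiv (Fin 0) κ).toRingEquiv.toMulEquiv
  | d + 1 => by
    set e := MvPowerSeries.finSuccEquiv κ d with he
    have hdom : IsDomain (MvPowerSeries (Fin (d + 1)) κ) := NoZeroDivisors.to_isDomain _
    have hX0 : e (MvPowerSeries.X 0) = PowerSeries.X := MvPowerSeries.finSuccEquiv_X_zero
    let π : MvPowerSeries (Fin (d + 1)) κ →+* MvPowerSeries (Fin d) κ :=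
      (PowerSeries.constantCoeff).comp (e : MvPowerSeries (Fin (d + 1)) κ →+* _)
    have hπ : ∀ z, π z = PowerSeries.constantCoeff (e z) := fun _ => rfl
    have hπX : ∀ j : Fin d, π (MvPowerSeries.X j.succ) = MvPowerSeries.X j := by
      intro j
      rw [hπ, he, MvPowerSeries.finSuccEquiv_X_succ, PowerSeries.constantCoeff_C]
    refine ⟨hdom, inferInstance,
      charP_of_injective_algebraMap (algebraMap κ (MvPowerSeries (Fin (d + 1)) κ)).injective p,
      FF_mvPowerSeries p κ (d + 1), ?_, MvPowerSeries (Fin d) κ, inferInstance, π, ?_, ?_, ?_, ?_⟩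
    · intro h
      rw [h, map_zero] at hX0
      exact PowerSeries.X_ne_zero hX0.symm
    · exact (PowerSeries.constantCoeff_surj).comp e.surjective
    · ext z
      rw [RingHom.mem_ker, hπ, ← PowerSeries.X_dvd_iff, Ideal.mem_span_singleton]
      rw [← hX0]
      exact map_dvd_iff e
    · intro q a z ha hz
      unfold PI at hz
      rw [Ideal.mem_span_range_iff_exists_fun] at hz
      obtain ⟨c, hc⟩ := hz
      rw [Fin.sum_univ_succ] at hc
      have h1 := congrArg (fun y => PowerSeries.coeff a (e y)) hc
      simp only [map_add, map_sum, map_mul, map_pow, hX0] at h1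
      rw [mul_comm (PowerSeries.X ^ a), PowerSeries.coeff_mul_X_pow', if_neg (by omega), zero_add,
        PowerSeries.coeff_mul_X_pow', if_pos le_rfl, Nat.sub_self] at h1
      rw [hπ, ← PowerSeries.coeff_zero_eq_constantCoeff_apply, ← h1]
      refine Ideal.sum_mem _ fun j _ => ?_
      rw [he, MvPowerSeries.finSuccEquiv_X_succ, ← he, ← map_pow, PowerSeries.coeff_mul_C]
      refine Ideal.mul_mem_left _ _ (Ideal.subset_span ⟨j, ?_⟩)
      simp only [hπX]
    · have : (fun j : Fin d => π (MvPowerSeries.X j.succ)) = MvPowerSeries.X := funext hπX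
      rw [this]
      exact frame_mvPowerSeries p κ d

end Pool.Agent.W461.HM
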