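import Mathlib

set_option autoImplicit false
set_option linter.unusedSectionVars false
set_option linter.unusedVariables false
set_option linter.style.haveILetI false

namespace Pool.Agent.W461.HM

open Algebra MvPolynomial

/-- every field extension of a perfect field is formally smooth -/
theorem formallySmooth_of_perfect (F L : Type) [Field F] [PerfectField F] [Field L] [Algebra F L] :
    Algebra.FormallySmooth F L := by
  classical
  refine ⟨inferInstance, ?_⟩
  change Subsingleton (Generators.self F L).toExtension.H1Cotangent
  rw [Extension.subsingleton_h1Cotangent, injective_iff_map_eq_zero]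
  intro x hx
  obtain ⟨f, rfl⟩ := Extension.Cotangent.mk_surjective x
  -- the values of all partial derivatives vanish
  have hd : ∀ j : L, aeval (id : L → L) (pderiv j (f.1 : MvPolynomial L F)) = 0 := by
    intro j
    have h1 := congrArg (fun y => (Generators.self F L).cotangentSpaceBasis.repr y j) hx
    simp only [Extension.cotangentComplex_mk, map_zero, Finsupp.coe_zero, Pi.zero_apply] at h1
    rw [(Generators.self F L).cotangentSpaceBasis_repr_one_tmul] at h1
    exact h1
  -- the finitely generated subfield
  let E := IntermediateField.adjoin F ((f.1 : MvPolynomial L F).vars : Set L)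
  haveI : Algebra.EssFiniteType F E := by
    rw [IntermediateField.essFiniteType_iff]
    exact ⟨_, rfl⟩
  haveI hE : Algebra.FormallySmooth F E := inferInstance
  have hinj : Function.Injective (fun e : E => (e : L)) := Subtype.val_injective
  obtain ⟨g, hg⟩ := exists_rename_eq_of_vars_subset_range (f.1 : MvPolynomial L F)
    (fun e : E => (e : L)) hinj (by
      intro v hv
      exact ⟨⟨v, IntermediateField.subset_adjoin F _ hv⟩, rfl⟩)
  have hval : ∀ q : MvPolynomial E F, aeval (id : L → L) (rename (fun e : E => (e : L)) q) =
      ((aeval (id : E → E) q : E) : L) := by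
    intro q
    rw [aeval_rename]
    have : (id : L → L) ∘ (fun e : E => (e : L)) = fun e : E => algebraMap E L e := rfl
    rw [this]
    have h2 := (MvPolynomial.aeval_algebraMap_apply (B := L) (id : E → E) q)
    exact h2
  have hgker : g ∈ (Generators.self F E).ker := by
    have h1 : aeval (id : L → L) (f.1 : MvPolynomial L F) = 0 := f.2
    rw [← hg, hval] at h1
    have h2 : (aeval (id : E → E) g : E) = 0 := Subtype.ext h1
    exact h2
  have hcc : (Generators.self F E).toExtension.cotangentComplex (Extension.Cotangent.mk ⟨g, hgker⟩) = 0 := by
    apply (Generators.self F E).cotangentSpaceBasis.repr.injective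
    ext i
    rw [Extension.cotangentComplex_mk, map_zero, Finsupp.coe_zero, Pi.zero_apply]
    rw [(Generators.self F E).cotangentSpaceBasis_repr_one_tmul]
    have h1 := hd (i : L)
    rw [← hg, pderiv_rename hinj i g, hval] at h1
    exact congrArg _ (Subtype.ext h1)
  have hinjE : Function.Injective (Generators.self F E).toExtension.cotangentComplex :=
    (Extension.subsingleton_h1Cotangent _).1 hE.subsingleton_h1Cotangent
  have hg0 : (Extension.Cotangent.mk ⟨g, hgker⟩ : (Generators.self F E).toExtension.Cotangent) = 0 :=
    hinjE (by rw [hcc, map_zero])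
  rw [Extension.Cotangent.mk_eq_zero_iff] at hg0 ⊢
  have hg0' : g ∈ (Generators.self F E).ker ^ 2 := hg0
  have h3 := Ideal.mem_map_of_mem (rename (fun e : E => (e : L)) :
    MvPolynomial E F →ₐ[F] MvPolynomial L F) hg0'
  rw [Ideal.map_pow, hg] at h3
  have h5 : Ideal.map (rename (fun e : E => (e : L)) : MvPolynomial E F →ₐ[F] MvPolynomial L F)
      ((Generators.self F E).ker : Ideal (MvPolynomial E F)) ≤
      RingHom.ker (aeval (id : L → L) : MvPolynomial L F →ₐ[F] L) := by
    rw [Ideal.map_le_iff_le_comap]
    intro q hq
    have hq' : (aeval (id : E → E) q : E) = 0 := hq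
    have h4 : aeval (id : L → L) (rename (fun e : E => (e : L)) q) = 0 := by
      rw [hval, hq']; rfl
    exact h4
  have h6 : (f.1 : MvPolynomial L F) ∈
      (RingHom.ker (aeval (id : L → L) : MvPolynomial L F →ₐ[F] L)) ^ 2 :=
    Ideal.pow_right_mono h5 2 h3
  exact h6

end Pool.Agent.W461.HM
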