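import Mathlib
import Pool.Agent.W461.HM.Smooth
import Pool.Agent.W461.HM.Compl
import Pool.Agent.W461.HM.PSeries

set_option autoImplicit false
set_option linter.unusedSectionVars false
set_option linter.unusedVariables false
set_option linter.style.haveILetI false

namespace Pool.Agent.W461.HM

open IsLocalRing TensorProduct

/-- coefficient fields -/
theorem exists_coeff (R : Type) [CommRing R] [IsLocalRing R] (p : ℕ) [Fact p.Prime] [CharP R p] :
    ∃ σ : ResidueField R →+* AdicCompletion (maximalIdeal R) R,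
      ∀ a : ResidueField R, AdicCompletion.evalOneₐ (maximalIdeal R) (σ a) = a := by
  letI : Algebra (ZMod p) R := ZMod.algebra R p
  haveI : Algebra.FormallySmooth (ZMod p) (ResidueField R) :=
    formallySmooth_of_perfect (ZMod p) (ResidueField R)
  let f : ResidueField R →ₐ[ZMod p] R ⧸ maximalIdeal R := AlgHom.id (ZMod p) (ResidueField R)
  obtain ⟨g, hg⟩ := Algebra.FormallySmooth.exists_adicCompletionEvalOneₐ_comp_eq
    (R := ZMod p) (A := ResidueField R) (I := maximalIdeal R) f
  exact ⟨g.toRingHom, fun a => DFunLike.congr_fun hg a⟩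

lemma len_completion (R : Type) [CommRing R] [IsLocalRing R] [IsNoetherianRing R] (I : Ideal R)
    (n : ℕ) (hI : maximalIdeal R ^ n ≤ I) :
    Module.length (AdicCompletion (maximalIdeal R) R) (AdicCompletion (maximalIdeal R) R ⧸
      I.map (algebraMap R (AdicCompletion (maximalIdeal R) R))) = Module.length R (R ⧸ I) := by
  have hfg : (maximalIdeal R).FG := IsNoetherian.noetherian _
  set S := AdicCompletion (maximalIdeal R) R with hS
  have h1 := (cqEquiv (maximalIdeal R) hfg I n hI).length_eq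
  rw [h1]
  have h2 : Module.length R (S ⧸ I.map (algebraMap R S)) =
      Module.length (S ⧸ I.map (algebraMap R S)) (S ⧸ I.map (algebraMap R S)) := by
    refine Module.length_eq_of_surjective ?_
    intro y
    obtain ⟨y, rfl⟩ := Ideal.Quotient.mk_surjective y
    obtain ⟨a, ha⟩ := cq_surjective (maximalIdeal R) hfg I n hI y
    refine ⟨a, ?_⟩
    change Ideal.Quotient.mk (I.map (algebraMap R S)) (algebraMap R S a) = _
    rw [eq_comm, Ideal.Quotient.eq]
    exact ha
  have h3 : Module.length S (S ⧸ I.map (algebraMap R S)) =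
      Module.length (S ⧸ I.map (algebraMap R S)) (S ⧸ I.map (algebraMap R S)) :=
    Module.length_eq_of_surjective Ideal.Quotient.mk_surjective
  rw [h2, h3]

lemma len_tensor (k κ S : Type) [Field k] [Field κ] [Algebra k κ] [CommRing S] [Algebra k S]
    (J : Ideal S) :
    Module.length κ ((κ ⊗[k] S) ⧸
      J.map (Algebra.TensorProduct.includeRight : S →ₐ[k] κ ⊗[k] S)) =
      Module.length k (S ⧸ J) := by
  let g : S →ₐ[k] S ⧸ J := Ideal.Quotient.mkₐ k J
  have hg : Function.Surjective g := Ideal.Quotient.mk_surjective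
  let G : (κ ⊗[k] S) →ₐ[κ] (κ ⊗[k] (S ⧸ J)) := Algebra.TensorProduct.map (AlgHom.id κ κ) g
  have hG : Function.Surjective G := by
    have := LinearMap.lTensor_surjective κ (g := g.toLinearMap) hg
    exact this
  have hker : LinearMap.ker G.toLinearMap =
      (J.map (Algebra.TensorProduct.includeRight : S →ₐ[k] κ ⊗[k] S)).restrictScalars κ := by
    have h1 := Algebra.TensorProduct.lTensor_ker (A := κ) g hg
    have h2 : RingHom.ker g = J := Ideal.mk_ker
    rw [h2] at h1
    ext z
    rw [LinearMap.mem_ker, Submodule.restrictScalars_mem, ← h1, RingHom.mem_ker]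
    rfl
  have h3 := (G.toLinearMap.quotKerEquivOfSurjective hG).length_eq
  have h4 := (Submodule.quotEquivOfEq _ _ hker).length_eq
  have h5 : Module.length κ ((κ ⊗[k] S) ⧸
      (J.map (Algebra.TensorProduct.includeRight : S →ₐ[k] κ ⊗[k] S)).restrictScalars κ) =
      Module.length κ ((κ ⊗[k] S) ⧸
      (J.map (Algebra.TensorProduct.includeRight : S →ₐ[k] κ ⊗[k] S))) :=
    (Submodule.Quotient.restrictScalarsEquiv κ
      (J.map (Algebra.TensorProduct.includeRight : S →ₐ[k] κ ⊗[k] S))).length_eq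
  rw [← h5, ← h4, h3, Module.length_eq_rank, Module.length_eq_rank, Module.rank_baseChange]
  simp

lemma isPrecomplete_pi {O : Type} [CommRing O] (I : Ideal O) [IsPrecomplete I O] (k : ℕ) :
    IsPrecomplete I (Fin k → O) := by
  refine ⟨fun f hf => ?_⟩
  have h1 : ∀ i, ∃ L : O, ∀ n, f n i ≡ L [SMOD (I ^ n • ⊤ : Submodule O O)] := by
    intro i
    refine IsPrecomplete.prec' (fun n => f n i) ?_
    intro m n hmn
    have := hf hmn
    rw [SModEq.sub_mem] at this ⊢
    have h2 : (I ^ m • (⊤ : Submodule O (Fin k → O))).map (LinearMap.proj i) ≤ I ^ m • ⊤ := by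
      rw [Submodule.map_smul'']
      exact Submodule.smul_mono le_rfl le_top
    exact h2 ⟨_, this, rfl⟩
  choose L hL using h1
  refine ⟨L, fun n => ?_⟩
  rw [SModEq.sub_mem]
  have h3 : f n - L = ∑ i, (f n i - L i) • (Pi.single i 1 : Fin k → O) := by
    simpa using (pi_eq_sum_univ' (f n - L))
  rw [h3]
  refine Submodule.sum_mem _ fun i _ => ?_
  have h4 := hL i n
  rw [SModEq.sub_mem, smul_eq_mul, Ideal.mul_top] at h4
  exact Submodule.smul_mem_smul h4 trivial


section phi

variable {κ A : Type} [Field κ] [CommRing A] [Algebra κ A] (𝔫 : Ideal A) {d : ℕ} (y : Fin d → A)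
  (hy : ∀ i, y i ∈ 𝔫)

include hy in
lemma aeval_pow_mem (n : ℕ) (q : MvPolynomial (Fin d) κ)
    (hq : q ∈ MvPolynomial.idealOfVars (Fin d) κ ^ n) : MvPolynomial.aeval y q ∈ 𝔫 ^ n := by
  have h1 : (MvPolynomial.idealOfVars (Fin d) κ).map
      (MvPolynomial.aeval y : MvPolynomial (Fin d) κ →ₐ[κ] A) ≤ 𝔫 := by
    unfold MvPolynomial.idealOfVars
    rw [Ideal.map_span, Ideal.span_le]
    rintro _ ⟨_, ⟨i, rfl⟩, rfl⟩
    rw [SetLike.mem_coe, MvPolynomial.aeval_X]
    exact hy i
  have h2 := Ideal.mem_map_of_mem (MvPolynomial.aeval y : MvPolynomial (Fin d) κ →ₐ[κ] A) hq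
  rw [Ideal.map_pow] at h2
  exact Ideal.pow_right_mono h1 n h2

/-- the truncated maps -/
noncomputable def phiN (n : ℕ) : MvPowerSeries (Fin d) κ →+* A ⧸ 𝔫 ^ n :=
  (Ideal.quotientMap (𝔫 ^ n)
    ((MvPolynomial.aeval y : MvPolynomial (Fin d) κ →ₐ[κ] A) : MvPolynomial (Fin d) κ →+* A)
    (fun q hq => aeval_pow_mem 𝔫 y hy n q hq)).comp
    (MvPowerSeries.truncTotalAlgHom (Fin d) κ n :
      MvPowerSeries (Fin d) κ →+* MvPolynomial (Fin d) κ ⧸ MvPolynomial.idealOfVars (Fin d) κ ^ n)

lemma phiN_apply (n : ℕ) (z : MvPowerSeries (Fin d) κ) :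
    phiN 𝔫 y hy n z = Ideal.Quotient.mk (𝔫 ^ n) (MvPolynomial.aeval y (MvPowerSeries.truncTotal n z)) :=
  rfl

lemma phiN_poly (n : ℕ) (q : MvPolynomial (Fin d) κ) :
    phiN 𝔫 y hy n (q : MvPowerSeries (Fin d) κ) = Ideal.Quotient.mk (𝔫 ^ n) (MvPolynomial.aeval y q) := by
  have h1 : (MvPowerSeries.truncTotalAlgHom (Fin d) κ n) (q : MvPowerSeries (Fin d) κ) =
      Ideal.Quotient.mk (MvPolynomial.idealOfVars (Fin d) κ ^ n) q :=
    (MvPowerSeries.truncTotalAlgHom (Fin d) κ n).commutes q
  rw [phiN_apply, Ideal.Quotient.eq, ← map_sub]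
  apply aeval_pow_mem 𝔫 y hy n
  rw [← Ideal.Quotient.eq]
  exact h1

lemma phiN_compat {m n : ℕ} (hle : m ≤ n) :
    (Ideal.Quotient.factorPow 𝔫 hle).comp (phiN (κ := κ) 𝔫 y hy n) = phiN 𝔫 y hy m := by
  ext z
  rw [RingHom.comp_apply, phiN_apply, phiN_apply]
  change Ideal.Quotient.mk (𝔫 ^ m) _ = Ideal.Quotient.mk (𝔫 ^ m) _
  rw [Ideal.Quotient.eq, ← map_sub]
  exact aeval_pow_mem 𝔫 y hy m _
    (MvPowerSeries.truncTotal_sub_truncTotal_mem_pow_idealOfVars hle le_rfl z)

/-- the map from power series to the completion -/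
noncomputable def phi : MvPowerSeries (Fin d) κ →+* AdicCompletion 𝔫 A :=
  AdicCompletion.liftRingHom 𝔫 (phiN 𝔫 y hy) (fun hle => phiN_compat 𝔫 y hy hle)

lemma eval_phi (n : ℕ) (z : MvPowerSeries (Fin d) κ) :
    AdicCompletion.evalₐ 𝔫 n (phi 𝔫 y hy z) = phiN 𝔫 y hy n z :=
  AdicCompletion.evalₐ_liftRingHom _ _ _ _ _

lemma phi_poly (q : MvPolynomial (Fin d) κ) :
    phi 𝔫 y hy (q : MvPowerSeries (Fin d) κ) =
      algebraMap A (AdicCompletion 𝔫 A) (MvPolynomial.aeval y q) := by
  apply AdicCompletion.ext_evalₐ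
  intro n
  rw [eval_phi, phiN_poly, AlgHom.commutes]
  rfl

lemma phi_X (i : Fin d) : phi (κ := κ) 𝔫 y hy (MvPowerSeries.X i) =
    algebraMap A (AdicCompletion 𝔫 A) (y i) := by
  have := phi_poly (κ := κ) 𝔫 y hy (MvPolynomial.X i)
  rwa [MvPolynomial.coe_X, MvPolynomial.aeval_X] at this

lemma phi_C (a : κ) : phi (κ := κ) 𝔫 y hy (MvPowerSeries.C a) =
    algebraMap A (AdicCompletion 𝔫 A) (algebraMap κ A a) := by
  have := phi_poly (κ := κ) 𝔫 y hy (MvPolynomial.C a)
  rwa [MvPolynomial.coe_C, MvPolynomial.aeval_C] at this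

lemma eval_phi_pow (n : ℕ) (z : MvPowerSeries (Fin d) κ)
    (hz : z ∈ (Ideal.span (Set.range MvPowerSeries.X) : Ideal (MvPowerSeries (Fin d) κ)) ^ n) :
    AdicCompletion.evalₐ 𝔫 n (phi 𝔫 y hy z) = 0 := by
  rw [eval_phi]
  have h1 : (Ideal.span (Set.range MvPowerSeries.X) : Ideal (MvPowerSeries (Fin d) κ)).map
      (phiN 𝔫 y hy n) ≤ 𝔫.map (Ideal.Quotient.mk (𝔫 ^ n)) := by
    rw [Ideal.map_span, Ideal.span_le]
    rintro _ ⟨_, ⟨i, rfl⟩, rfl⟩
    rw [SetLike.mem_coe, ← MvPolynomial.coe_X, phiN_poly, MvPolynomial.aeval_X]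
    exact Ideal.mem_map_of_mem _ (hy i)
  have h2 := Ideal.mem_map_of_mem (phiN 𝔫 y hy n) hz
  rw [Ideal.map_pow] at h2
  have h3 := Ideal.pow_right_mono h1 n h2
  rw [← Ideal.map_pow, Ideal.map_quotient_self, Ideal.mem_bot] at h3
  exact h3

/-- finiteness -/
theorem phi_finite (hfin : Module.length κ (AdicCompletion 𝔫 A ⧸
      (Ideal.span (Set.range y)).map (algebraMap A (AdicCompletion 𝔫 A))) ≠ ⊤) :
    (phi (κ := κ) 𝔫 y hy).Finite := by
  set B := AdicCompletion 𝔫 A with hB
  set O := MvPowerSeries (Fin d) κ with hO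
  letI : Algebra O B := (phi (κ := κ) 𝔫 y hy).toAlgebra
  change Module.Finite O B
  set J : Ideal B := (Ideal.span (Set.range y)).map (algebraMap A B) with hJ
  set IO : Ideal O := Ideal.span (Set.range MvPowerSeries.X) with hIO
  have hfd : Module.Finite κ (B ⧸ J) := by
    rw [Module.length_ne_top_iff] at hfin
    have := (isFiniteLength_iff_isNoetherian_isArtinian.1 hfin).1
    infer_instance
  obtain ⟨k, g, hg⟩ := Module.Finite.exists_fin' κ (B ⧸ J)
  choose b hb using fun i : Fin k => Ideal.Quotient.mk_surjective (I := J) (g (Pi.single i 1))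
  let f : (Fin k → O) →ₗ[O] B := Fintype.linearCombination O b
  haveI : IsPrecomplete IO (Fin k → O) := by
    haveI : IsAdicComplete IO O := inferInstance
    exact isPrecomplete_pi IO k
  haveI : IsHausdorff IO B := by
    refine ⟨fun x hx => ?_⟩
    apply AdicCompletion.ext_evalₐ
    intro n
    rw [map_zero]
    have h1 := hx n
    clear hx
    rw [SModEq.zero] at h1
    induction h1 using Submodule.smul_induction_on' with
    | smul r hr m _ =>
      rw [Algebra.smul_def, map_mul]
      have : AdicCompletion.evalₐ 𝔫 n (algebraMap O B r) = 0 := eval_phi_pow 𝔫 y hy n r hr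
      rw [this, zero_mul]
    | add x _ y _ h1 h2 => rw [map_add, h1, h2, add_zero]
  have hmapJ : IO.map (algebraMap O B) = J := by
    rw [hIO, hJ, Ideal.map_span, Ideal.map_span, ← Set.range_comp, ← Set.range_comp]
    congr 2
    funext i
    exact phi_X 𝔫 y hy i
  have hsurj : Function.Surjective (Submodule.mkQ (IO • (⊤ : Submodule O B)) ∘ₗ f) := by
    intro x
    obtain ⟨x, rfl⟩ := Submodule.mkQ_surjective _ x
    obtain ⟨c, hc⟩ := hg (Ideal.Quotient.mk J x)
    refine ⟨fun i => MvPowerSeries.C (c i), ?_⟩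
    rw [LinearMap.comp_apply, Submodule.mkQ_apply, Submodule.mkQ_apply, Submodule.Quotient.eq,
      Ideal.smul_top_eq_map, hmapJ]
    change f (fun i => MvPowerSeries.C (c i)) - x ∈ J
    rw [← Ideal.Quotient.eq, ← hc]
    have h1 : f (fun i => MvPowerSeries.C (c i)) = ∑ i, algebraMap κ B (c i) * b i := by
      change ∑ i, (MvPowerSeries.C (c i) : O) • b i = _
      refine Finset.sum_congr rfl fun i _ => ?_
      rw [Algebra.smul_def]
      congr 1
      exact phi_C 𝔫 y hy (c i)
    rw [h1, map_sum]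
    have h2 : c = ∑ i, c i • (Pi.single i 1 : Fin k → κ) := by
      simpa using (pi_eq_sum_univ' c)
    conv_rhs => rw [h2]
    rw [map_sum]
    refine Finset.sum_congr rfl fun i _ => ?_
    rw [map_smul, ← hb i, ← Algebra.smul_def]
    rfl
  have hf : Function.Surjective f := surjective_of_mkQ_comp_surjective (I := IO) hsurj
  exact Module.Finite.of_surjective f hf

end phi


lemma length_ne_top (R : Type) [CommRing R] [IsLocalRing R] [IsNoetherianRing R] (I : Ideal R)
    (n : ℕ) (hI : maximalIdeal R ^ n ≤ I) : Module.length R (R ⧸ I) ≠ ⊤ := by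
  by_cases htop : I = ⊤
  · subst htop
    have : Subsingleton (R ⧸ (⊤ : Ideal R)) := Ideal.Quotient.subsingleton_iff.2 rfl
    rw [Module.length_eq_zero]
    simp
  haveI : Nontrivial (R ⧸ I) := Ideal.Quotient.nontrivial_iff.2 htop
  haveI : IsLocalRing (R ⧸ I) := IsLocalRing.of_surjective' (Ideal.Quotient.mk I)
    Ideal.Quotient.mk_surjective
  have h1 : Module.length R (R ⧸ I) = Module.length (R ⧸ I) (R ⧸ I) :=
    Module.length_eq_of_surjective Ideal.Quotient.mk_surjective
  rw [h1]
  haveI : IsArtinianRing (R ⧸ I) := by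
    rw [isArtinianRing_iff_isNilpotent_maximalIdeal]
    refine ⟨n, ?_⟩
    have h2 : maximalIdeal (R ⧸ I) = (maximalIdeal R).map (Ideal.Quotient.mk I) := by
      have hloc : IsLocalHom (Ideal.Quotient.mk I) :=
        Ideal.Quotient.mk_surjective.isLocalHom (Ideal.Quotient.mk I)
      apply le_antisymm
      · intro y hy
        obtain ⟨y, rfl⟩ := Ideal.Quotient.mk_surjective y
        refine Ideal.mem_map_of_mem _ ?_
        rw [IsLocalRing.mem_maximalIdeal, mem_nonunits_iff] at hy ⊢
        exact fun h => hy (h.map _)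
      · exact ((IsLocalRing.local_hom_TFAE (Ideal.Quotient.mk I)).out 0 2).1 hloc
    rw [h2, ← Ideal.map_pow]
    rw [Submodule.zero_eq_bot, Ideal.map_eq_bot_iff_le_ker, Ideal.mk_ker]
    exact hI
  exact Module.length_ne_top

theorem exists_base_change (R : Type) [CommRing R] [IsLocalRing R] [IsNoetherianRing R] (p : ℕ)
    [hp : Fact p.Prime] [CharP R p] (d : ℕ) (x : Fin d → R) (hx : ∀ i, x i ∈ maximalIdeal R)
    (N : ℕ) (hN : maximalIdeal R ^ N ≤ Ideal.span (Set.range x)) :
    ∃ (κ : Type) (_ : Field κ) (_ : CharP κ p) (_ : PerfectRing κ p) (B : Type) (_ : CommRing B)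
      (_ : Algebra (MvPowerSeries (Fin d) κ) B) (_ : Module.Finite (MvPowerSeries (Fin d) κ) B)
      (φ : R →+* B), (∀ i, algebraMap (MvPowerSeries (Fin d) κ) B (MvPowerSeries.X i) = φ (x i)) ∧
      ∀ (I : Ideal R) (n : ℕ), maximalIdeal R ^ n ≤ I →
        Module.length (MvPowerSeries (Fin d) κ) (B ⧸ I.map φ) = Module.length R (R ⧸ I) := by
  classical
  obtain ⟨σ, hσ⟩ := exists_coeff R p
  let k := ResidueField R
  let S := AdicCompletion (maximalIdeal R) R
  letI : Algebra k S := σ.toAlgebra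
  let κ := AlgebraicClosure k
  haveI : CharP k p := by
    rw [CharP.charP_iff_prime_eq_zero hp.out]
    have h1 : (p : R) = 0 := CharP.cast_eq_zero R p
    have := congrArg (residue R) h1
    rwa [map_natCast, map_zero] at this
  haveI : CharP κ p := charP_of_injective_algebraMap (algebraMap k κ).injective p
  haveI : PerfectRing κ p := inferInstance
  have hres : ∀ s : S, ∃ a : k, s - algebraMap k S a ∈ maximalIdeal S := by
    intro s
    refine ⟨AdicCompletion.evalOneₐ (maximalIdeal R) s, ?_⟩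
    rw [IsLocalRing.mem_maximalIdeal, mem_nonunits_iff]
    intro hu
    have h1 := hu.map (AdicCompletion.evalOneₐ (maximalIdeal R))
    rw [map_sub] at h1
    have h2 : AdicCompletion.evalOneₐ (maximalIdeal R)
        (algebraMap k S (AdicCompletion.evalOneₐ (maximalIdeal R) s)) =
        AdicCompletion.evalOneₐ (maximalIdeal R) s := hσ _
    rw [h2, sub_self] at h1
    haveI : Nontrivial (R ⧸ maximalIdeal R) :=
      Ideal.Quotient.nontrivial_iff.2 (Ideal.IsPrime.ne_top inferInstance)
    exact not_isUnit_zero h1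
  let A := κ ⊗[k] S
  let ψ : R →+* A := ((Algebra.TensorProduct.includeRight : S →ₐ[k] A) : S →+* A).comp
    (algebraMap R S)
  let 𝔫 : Ideal A := (maximalIdeal R).map ψ
  have hfg : 𝔫.FG := Ideal.FG.map (IsNoetherian.noetherian (maximalIdeal R)) ψ
  have hy : ∀ i, ψ (x i) ∈ 𝔫 := fun i => Ideal.mem_map_of_mem ψ (hx i)
  let B := AdicCompletion 𝔫 A
  let Φ := phi (κ := κ) 𝔫 (fun i => ψ (x i)) hy
  -- lengths over κ
  haveI : IsScalarTower κ A B := IsScalarTower.of_algebraMap_eq fun _ => rfl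
  have hlenκ : ∀ (I : Ideal R) (n : ℕ), maximalIdeal R ^ n ≤ I →
      Module.length κ (B ⧸ I.map ((algebraMap A B).comp ψ)) = Module.length R (R ⧸ I) := by
    intro I n hI
    have hIn : 𝔫 ^ n ≤ I.map ψ := by
      rw [← Ideal.map_pow]
      exact Ideal.map_mono hI
    have h1 := ((cqEquiv 𝔫 hfg (I.map ψ) n hIn).restrictScalars κ).length_eq
    rw [Ideal.map_map] at h1
    rw [← h1]
    have h2 : I.map ψ = (I.map (algebraMap R S)).map
        (Algebra.TensorProduct.includeRight : S →ₐ[k] A) := by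
      exact (Ideal.map_map (algebraMap R S)
        ((Algebra.TensorProduct.includeRight : S →ₐ[k] A) : S →+* A) (I := I)).symm
    rw [h2, len_tensor, ← len_completion R I n hI]
    exact length_eq_of_residue hres
  have hfinlen : Module.length κ (B ⧸ (Ideal.span (Set.range fun i => ψ (x i))).map (algebraMap A B)) ≠ ⊤ := by
    have h1 : (Ideal.span (Set.range fun i => ψ (x i))).map (algebraMap A B) =
        (Ideal.span (Set.range x)).map ((algebraMap A B).comp ψ) := by
      rw [← Ideal.map_map, Ideal.map_span ψ, ← Set.range_comp]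
      rfl
    rw [h1, hlenκ _ N hN]
    exact length_ne_top R _ N hN
  letI : Algebra (MvPowerSeries (Fin d) κ) B := Φ.toAlgebra
  haveI : IsScalarTower κ (MvPowerSeries (Fin d) κ) B := IsScalarTower.of_algebraMap_eq fun a =>
    (phi_C (κ := κ) 𝔫 (fun i => ψ (x i)) hy a).symm
  have hfinite : Module.Finite (MvPowerSeries (Fin d) κ) B :=
    phi_finite (κ := κ) 𝔫 (fun i => ψ (x i)) hy hfinlen
  refine ⟨κ, inferInstance, inferInstance, inferInstance, B, inferInstance, inferInstance, hfinite,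
    (algebraMap A B).comp ψ, fun i => phi_X 𝔫 (fun i => ψ (x i)) hy i, fun I n hI => ?_⟩
  rw [← hlenκ I n hI]
  symm
  refine length_eq_of_residue (S := MvPowerSeries (Fin d) κ) ?_
  intro z
  refine ⟨MvPowerSeries.constantCoeff z, ?_⟩
  rw [IsLocalRing.mem_maximalIdeal, mem_nonunits_iff, MvPowerSeries.isUnit_iff_constantCoeff]
  intro h
  rw [map_sub] at h
  have h2 : MvPowerSeries.constantCoeff
    (algebraMap κ (MvPowerSeries (Fin d) κ) (MvPowerSeries.constantCoeff z)) =
    MvPowerSeries.constantCoeff z := MvPowerSeries.constantCoeff_C _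
  rw [h2, sub_self] at h
  exact not_isUnit_zero h

end Pool.Agent.W461.HM
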