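import Mathlib
import Pool.Agent.W461.HM.Devissage
import Pool.Agent.W461.HM.Reduce

set_option autoImplicit false
set_option linter.unusedSectionVars false
set_option linter.unusedVariables false
set_option linter.style.haveILetI false

namespace Pool.Agent.W461.HM

open IsLocalRing Filter Topology

lemma tendsto_aux1 (C : ℝ) (d : ℕ) :
    Tendsto (fun m : ℕ => C * ((m : ℝ) + 1) ^ d / (m : ℝ) ^ (d + 1)) atTop (𝓝 0) := by
  have h1 : Tendsto (fun m : ℕ => C * (1 + 1 / (m : ℝ)) ^ d * (1 / (m : ℝ))) atTop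
      (𝓝 (C * (1 + 0) ^ d * 0)) := by
    have h0 : Tendsto (fun m : ℕ => 1 / (m : ℝ)) atTop (𝓝 0) := tendsto_one_div_atTop_nhds_zero_nat
    exact ((h0.const_add 1).pow d |>.const_mul C).mul h0
  rw [mul_zero] at h1
  refine h1.congr' ?_
  filter_upwards [eventually_gt_atTop 0] with m hm
  have hm' : (0 : ℝ) < m := by exact_mod_cast hm
  have : (1 : ℝ) + 1 / m = (m + 1) / m := by field_simp
  rw [this, div_pow]
  field_simp
  ring

lemma tendsto_aux2 (a : ℝ) (d : ℕ) :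
    Tendsto (fun n : ℕ => ((n : ℝ) + a) ^ d / (n : ℝ) ^ d) atTop (𝓝 1) := by
  have h1 : Tendsto (fun m : ℕ => (1 + a * (1 / (m : ℝ))) ^ d) atTop (𝓝 ((1 + a * 0) ^ d)) := by
    have h0 : Tendsto (fun m : ℕ => 1 / (m : ℝ)) atTop (𝓝 0) := tendsto_one_div_atTop_nhds_zero_nat
    exact ((h0.const_mul a).const_add 1).pow d
  rw [mul_zero, add_zero, one_pow] at h1
  refine h1.congr' ?_
  filter_upwards [eventually_gt_atTop 0] with m hm
  have hm' : (0 : ℝ) < m := by exact_mod_cast hm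
  rw [← div_pow]
  congr 1
  field_simp

theorem main_real (R : Type) [CommRing R] [IsLocalRing R] [IsNoetherianRing R] (p : ℕ)
    [hp : Fact p.Prime] [CharP R p] (d : ℕ) (x : Fin (d + 1) → R)
    (hx : ∀ i, x i ∈ maximalIdeal R)
    (hrad : (Ideal.span (Set.range x)).radical = maximalIdeal R)
    (𝔞 : Ideal R) (ha : 𝔞.radical = maximalIdeal R) (c eJ ea : ℝ)
    (hc : Tendsto (fun e : ℕ =>
      ((sInf {N : ℕ | 𝔞 ^ N ≤ Ideal.span (Set.range (fun i => x i ^ p ^ e))} : ℕ) : ℝ)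
        / (p : ℝ) ^ e) atTop (𝓝 c))
    (hJ : Tendsto (fun n : ℕ => ((d + 1).factorial : ℝ)
      * ((Module.length R (R ⧸ (Ideal.span (Set.range x)) ^ n)).toNat : ℝ)
        / (n : ℝ) ^ (d + 1)) atTop (𝓝 eJ))
    (hea : Tendsto (fun n : ℕ => ((d + 1).factorial : ℝ)
      * ((Module.length R (R ⧸ 𝔞 ^ n)).toNat : ℝ) / (n : ℝ) ^ (d + 1)) atTop (𝓝 ea))
    (D : ℝ) (hD : c < D) :
    eJ ≤ (D / ((d + 1 : ℕ) : ℝ)) ^ (d + 1) * ea := by
  classical
  have hc0 : 0 ≤ c := ge_of_tendsto' hc fun e => by positivity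
  have hD0 : 0 < D := lt_of_le_of_lt hc0 hD
  set J := Ideal.span (Set.range x) with hJdef
  have hJle : J ≤ maximalIdeal R := by rw [← hrad]; exact Ideal.le_radical
  have hale : 𝔞 ≤ maximalIdeal R := by rw [← ha]; exact Ideal.le_radical
  obtain ⟨N, hN⟩ : ∃ N, maximalIdeal R ^ N ≤ J :=
    Ideal.exists_pow_le_of_le_radical_of_fg (by rw [hrad]) (IsNoetherian.noetherian _)
  obtain ⟨Na, hNa⟩ : ∃ N, maximalIdeal R ^ N ≤ 𝔞 :=
    Ideal.exists_pow_le_of_le_radical_of_fg (by rw [ha]) (IsNoetherian.noetherian _)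
  obtain ⟨r, hr⟩ : ∃ r, J ^ r ≤ 𝔞 :=
    Ideal.exists_pow_le_of_le_radical_of_fg (by rw [ha]; exact hJle) (IsNoetherian.noetherian _)
  have hr1 : J ^ (r + 1) ≤ 𝔞 := (Ideal.pow_le_pow_right (Nat.le_succ r)).trans hr
  obtain ⟨κ, _, _, _, B, _, _, _, φ, hφ, hlen⟩ := exists_base_change R p (d + 1) x hx N hN
  set O := MvPowerSeries (Fin (d + 1)) κ with hO
  have hfr : IsFrame p (d + 1) O MvPowerSeries.X := frame_mvPowerSeries p κ (d + 1)
  have hTI : TI (fun j => algebraMap O B (MvPowerSeries.X j)) = J.map φ := by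
    have h1 : (fun j => algebraMap O B (MvPowerSeries.X j)) = fun j => φ (x j) := funext hφ
    rw [h1, hJdef]
    exact (map_TI φ x).symm
  have hF : ∀ᶠ e : ℕ in atTop, ∃ n : ℕ, (n : ℝ) ≤ D * (p : ℝ) ^ e ∧
      (𝔞.map φ) ^ n ≤ PI (fun j => algebraMap O B (MvPowerSeries.X j)) (fun _ => p ^ e) := by
    filter_upwards [hc.eventually (gt_mem_nhds hD)] with e he
    have hpe : (0 : ℝ) < (p : ℝ) ^ e := by
      have : (0 : ℝ) < p := by exact_mod_cast hp.out.pos
      positivity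
    rw [div_lt_iff₀ hpe] at he
    refine ⟨_, he.le, ?_⟩
    have hne : {N : ℕ | 𝔞 ^ N ≤ Ideal.span (Set.range (fun i => x i ^ p ^ e))}.Nonempty := by
      have h1 : 𝔞 ≤ (Ideal.span (Set.range (fun i => x i ^ p ^ e))).radical := by
        refine hale.trans ?_
        rw [← hrad]
        have h2 : J ≤ (Ideal.span (Set.range (fun i => x i ^ p ^ e))).radical := by
          rw [hJdef, Ideal.span_le]
          rintro _ ⟨i, rfl⟩
          exact ⟨p ^ e, Ideal.subset_span ⟨i, rfl⟩⟩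
        exact (Ideal.radical_isRadical _).radical_le_iff.2 h2
      exact Ideal.exists_pow_le_of_le_radical_of_fg h1 (IsNoetherian.noetherian _)
    have hmem := Nat.sInf_mem hne
    have h3 := Ideal.map_mono (f := φ) hmem
    rw [Ideal.map_pow] at h3
    refine h3.trans (le_of_eq ?_)
    have h4 : (fun j => algebraMap O B (MvPowerSeries.X j)) = fun j => φ (x j) := funext hφ
    rw [h4]
    exact map_PI φ x (fun _ => p ^ e)
  obtain ⟨L, C, hlow, hup⟩ := mainB p d MvPowerSeries.X hfr (𝔞.map φ) (r + 1) (Nat.succ_pos r) (by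
    rw [hTI, ← Ideal.map_pow]
    exact Ideal.map_mono hr1) D hD0 hF
  have hpowa : ∀ m : ℕ, maximalIdeal R ^ (Na * m) ≤ 𝔞 ^ m := fun m => by
    rw [pow_mul]; exact Ideal.pow_right_mono hNa m
  have hpowJ : ∀ m : ℕ, maximalIdeal R ^ (N * m) ≤ J ^ m := fun m => by
    rw [pow_mul]; exact Ideal.pow_right_mono hN m
  set fac : ℝ := ((d + 1).factorial : ℝ) with hfac
  have hfacpos : 0 < fac := by rw [hfac]; exact_mod_cast Nat.factorial_pos _
  -- lower bound
  have hlow' : (((d + 1 : ℕ) : ℝ) / D) ^ (d + 1) * L ≤ ea := by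
    have hineq : ∀ᶠ m : ℕ in atTop, (((d + 1 : ℕ) : ℝ) / D) ^ (d + 1) * L ≤
        fac * ((Module.length R (R ⧸ 𝔞 ^ m)).toNat : ℝ) / (m : ℝ) ^ (d + 1) +
          (fac * C) * ((m : ℝ) + 1) ^ d / (m : ℝ) ^ (d + 1) := by
      filter_upwards [eventually_gt_atTop 0] with m hm
      have hm' : (0 : ℝ) < m := by exact_mod_cast hm
      have h1 := hlow m
      rw [← Ideal.map_pow, hlen _ _ (hpowa m)] at h1
      have hfin := length_ne_top R _ _ (hpowa m)
      have h2 : ((Module.length R (R ⧸ 𝔞 ^ m) : ℕ∞) : ENNReal) =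
          ENNReal.ofReal ((Module.length R (R ⧸ 𝔞 ^ m)).toNat : ℝ) := by
        rw [ENNReal.ofReal_natCast]
        conv_lhs => rw [← ENat.natCast_toNat hfin]
        exact ENat.toENNReal_coe _
      have h3 : ((C * (m + 1) ^ d : ℕ) : ENNReal) = ENNReal.ofReal ((C * (m + 1) ^ d : ℕ) : ℝ) :=
        (ENNReal.ofReal_natCast _).symm
      rw [h2, h3, ← ENNReal.ofReal_add (Nat.cast_nonneg _) (Nat.cast_nonneg _),
        ENNReal.ofReal_le_ofReal_iff (by positivity)] at h1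
      rw [← add_div, le_div_iff₀ (by positivity)]
      have h4 := mul_le_mul_of_nonneg_left h1 hfacpos.le
      have h5 : fac * ((((d + 1 : ℕ) : ℝ) / D) ^ (d + 1) / fac * L * (m : ℝ) ^ (d + 1)) =
          (((d + 1 : ℕ) : ℝ) / D) ^ (d + 1) * L * (m : ℝ) ^ (d + 1) := by
        field_simp
      rw [h5] at h4
      refine h4.trans (le_of_eq ?_)
      push_cast
      ring
    have hlim : Tendsto (fun m : ℕ => fac * ((Module.length R (R ⧸ 𝔞 ^ m)).toNat : ℝ) /
        (m : ℝ) ^ (d + 1) + (fac * C) * ((m : ℝ) + 1) ^ d / (m : ℝ) ^ (d + 1)) atTop (𝓝 (ea + 0)) :=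
      hea.add (tendsto_aux1 (fac * C) d)
    rw [add_zero] at hlim
    exact ge_of_tendsto hlim hineq
  -- upper bound
  have hup' : eJ ≤ L := by
    have hineq : ∀ᶠ n : ℕ in atTop, fac * ((Module.length R (R ⧸ J ^ n)).toNat : ℝ) /
        (n : ℝ) ^ (d + 1) ≤ L * (((n : ℝ) + d) ^ (d + 1) / (n : ℝ) ^ (d + 1)) +
          (fac * C) * ((n : ℝ) + 1) ^ d / (n : ℝ) ^ (d + 1) := by
      filter_upwards [eventually_gt_atTop 0] with n hn
      have hn' : (0 : ℝ) < n := by exact_mod_cast hn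
      have h1 := hup n
      rw [hTI, ← Ideal.map_pow, hlen _ _ (hpowJ n)] at h1
      have hfin := length_ne_top R _ _ (hpowJ n)
      rw [← ENat.natCast_toNat hfin, Nat.cast_le] at h1
      have h2 : ((Module.length R (R ⧸ J ^ n)).toNat : ℝ) ≤
          L * ((n + d).choose (d + 1) : ℝ) + C * ((n : ℝ) + 1) ^ d := by exact_mod_cast h1
      have h3 : ((n + d).choose (d + 1) : ℝ) ≤ ((n : ℝ) + d) ^ (d + 1) / fac := by
        have := Nat.choose_le_pow_div (α := ℝ) (d + 1) (n + d)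
        push_cast at this
        rw [hfac]
        exact this
      rw [← mul_div_assoc, ← add_div]
      rw [div_le_div_iff_of_pos_right (by positivity)]
      calc fac * ((Module.length R (R ⧸ J ^ n)).toNat : ℝ)
          ≤ fac * (L * (((n : ℝ) + d) ^ (d + 1) / fac) + C * ((n : ℝ) + 1) ^ d) := by
            gcongr
            refine h2.trans ?_
            gcongr
        _ = _ := by field_simp
    have hlim : Tendsto (fun n : ℕ => L * (((n : ℝ) + d) ^ (d + 1) / (n : ℝ) ^ (d + 1)) +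
          (fac * C) * ((n : ℝ) + 1) ^ d / (n : ℝ) ^ (d + 1)) atTop (𝓝 (L * 1 + 0)) :=
      ((tendsto_aux2 (d : ℝ) (d + 1)).const_mul (L : ℝ)).add (tendsto_aux1 (fac * C) d)
    rw [mul_one, add_zero] at hlim
    exact le_of_tendsto_of_tendsto hJ hlim hineq
  have hdpos : (0 : ℝ) < ((d + 1 : ℕ) : ℝ) := by positivity
  have h6 : (D / ((d + 1 : ℕ) : ℝ)) ^ (d + 1) * (((d + 1 : ℕ) : ℝ) / D) ^ (d + 1) = 1 := by
    rw [← mul_pow]
    have : D / ((d + 1 : ℕ) : ℝ) * (((d + 1 : ℕ) : ℝ) / D) = 1 := by field_simp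
    rw [this, one_pow]
  calc eJ ≤ L := hup'
    _ = (D / ((d + 1 : ℕ) : ℝ)) ^ (d + 1) * ((((d + 1 : ℕ) : ℝ) / D) ^ (d + 1) * L) := by
        rw [← mul_assoc, h6, one_mul]
    _ ≤ _ := by gcongr

theorem main_zero (R : Type) [CommRing R] [IsLocalRing R] [IsNoetherianRing R]
    (x : Fin 0 → R) (hrad : (Ideal.span (Set.range x)).radical = maximalIdeal R)
    (𝔞 : Ideal R) (ha : 𝔞.radical = maximalIdeal R) (eJ ea : ℝ)
    (hJ : Tendsto (fun n : ℕ => ((0 : ℕ).factorial : ℝ)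
      * ((Module.length R (R ⧸ (Ideal.span (Set.range x)) ^ n)).toNat : ℝ)
        / (n : ℝ) ^ 0) atTop (𝓝 eJ))
    (hea : Tendsto (fun n : ℕ => ((0 : ℕ).factorial : ℝ)
      * ((Module.length R (R ⧸ 𝔞 ^ n)).toNat : ℝ) / (n : ℝ) ^ 0) atTop (𝓝 ea)) :
    eJ = ea := by
  have hspan : Ideal.span (Set.range x) = ⊥ := by
    rw [Set.range_eq_empty, Ideal.span_empty]
  have hale : 𝔞 ≤ (⊥ : Ideal R).radical := by
    rw [← hspan, hrad, ← ha]; exact Ideal.le_radical
  obtain ⟨N, hN⟩ : ∃ N, 𝔞 ^ N ≤ ⊥ :=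
    Ideal.exists_pow_le_of_le_radical_of_fg hale (IsNoetherian.noetherian _)
  refine tendsto_nhds_unique_of_eventuallyEq hJ hea ?_
  filter_upwards [eventually_ge_atTop N, eventually_gt_atTop 0] with n hn hn0
  have h1 : 𝔞 ^ n = ⊥ := le_bot_iff.1 ((Ideal.pow_le_pow_right hn).trans hN)
  have h2 : (Ideal.span (Set.range x)) ^ n = ⊥ := by
    rw [hspan, ← Ideal.zero_eq_bot, zero_pow hn0.ne']
  rw [h1, h2]

end Pool.Agent.W461.HM
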